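import Pool.Agent.H25.P5.Hs2
import Pool.Agent.H89.P4.Hs

/-!
# P5: (HS), the proof
-/

set_option autoImplicit false

namespace Pool.P5

open Finset Real MvPolynomial
open Pool.Agent.H49.Ent Pool.Agent.H32.Dense Pool.STK Pool.STAT Pool.MIC.Frm Pool.MIC7 Pool.FRM
open Pool.GSD Pool.POT
open Pool.BFL (Pb)
open Pool.P4 (t0 rt pp PthC FraC bb ze zt z0 be cl1 dg dgp Ry cb LLC tq GoodS FrP err
  dg_near dg_abs dg_lip dgp_lip dgp_near dgp_abs c_up c_up1 Ry_pos rt_near floor_near aC aC_nonneg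
  aE aE_nonneg few_z few_exp few_exp0 sides MI_inner le_expz mul_expz dg_lipR dg_absR card_ne)

/-- The number of the coordinates. -/
theorem count_kc {k c n : ℕ} {gam : ℕ → ℝ} {ys : Fin k → ℕ} {gs : Fin c → ℕ}
    (h1 : ∀ a, sl gam n (ys a)) (h2 : Function.Injective ys) (h3 : ∀ l, sl gam n l → ∃ a, ys a = l)
    (g1 : ∀ u, gr gam n (gs u)) (g2 : Function.Injective gs)
    (g3 : ∀ l, gr gam n l → ∃ u, gs u = l) : k + c = n := by
  have e : (Finset.univ.image ys) ∪ (Finset.univ.image gs) = Finset.Icc 1 n := by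
    ext l
    rw [Finset.mem_union, Finset.mem_image, Finset.mem_image, Finset.mem_Icc]
    constructor
    · rintro (⟨a, _, ha⟩ | ⟨u, _, hu⟩)
      · rw [← ha]
        exact ⟨(h1 a).1, (h1 a).2.1.le⟩
      · rw [← hu]
        exact ⟨(g1 u).1, (g1 u).2.1⟩
    · rintro ⟨a1, a2⟩
      rcases sl_or_gr (gam := gam) a1 a2 with hs | hs
      · obtain ⟨a, ha⟩ := h3 l hs
        exact Or.inl ⟨a, Finset.mem_univ _, ha⟩
      · obtain ⟨u, hu⟩ := g3 l hs
        exact Or.inr ⟨u, Finset.mem_univ _, hu⟩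
  have d : Disjoint (Finset.univ.image ys) (Finset.univ.image gs) := by
    rw [Finset.disjoint_left]
    intro l hl hl'
    obtain ⟨a, _, ha⟩ := Finset.mem_image.1 hl
    obtain ⟨u, _, hu⟩ := Finset.mem_image.1 hl'
    have b1 := (h1 a).2.2
    have b2 := (g1 u).2.2
    rw [ha] at b1
    rw [hu] at b2
    linarith
  have f := congrArg Finset.card e
  rw [Finset.card_union_of_disjoint d, Finset.card_image_of_injective _ h2,
    Finset.card_image_of_injective _ g2, Finset.card_univ, Finset.card_univ, Fintype.card_fin,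
    Fintype.card_fin, Nat.card_Icc] at f
  omega

/-- **(HS).** -/
theorem hs : HsStmt := by
  intro n K K' c k0 k1 C₁ C
  obtain ⟨A1, hA1⟩ : ∃ A, A = aS c k0 k1 |C| + aH c k0 k1 + aV c k0 k1 := ⟨_, rfl⟩
  obtain ⟨A2, hA2⟩ : ∃ A, A = aS c k0 k1 |C| + aE (k0 + k1 + (c - 1)) 6 := ⟨_, rfl⟩
  obtain ⟨A3, hA3⟩ : ∃ A, A = aE (c - 1) (27 + 27 * ((k0 : ℝ) + k1) + |C|) := ⟨_, rfl⟩
  obtain ⟨A4, hA4⟩ : ∃ A, A = aE c 4 := ⟨_, rfl⟩
  obtain ⟨A5, hA5⟩ : ∃ A, A = aE (k0 + k1) 6 := ⟨_, rfl⟩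
  obtain ⟨A6, hA6⟩ : ∃ A, A = aE (n - 1) (5 + 2 * |C₁| + 4 * |C|) := ⟨_, rfl⟩
  have b1 : 0 ≤ A1 := by
    rw [hA1]
    have := aS_nonneg c k0 k1 (abs_nonneg C)
    have := aH_nonneg c k0 k1
    have := aV_nonneg c k0 k1
    positivity
  have b2 : 0 ≤ A2 := by
    rw [hA2]
    have := aS_nonneg c k0 k1 (abs_nonneg C)
    have := aE_nonneg (k0 + k1 + (c - 1)) (by norm_num : (0 : ℝ) ≤ 6)
    positivity
  have b3 : 0 ≤ A3 := by
    rw [hA3]
    exact aE_nonneg _ (by positivity)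
  have b4 : 0 ≤ A4 := by
    rw [hA4]
    exact aE_nonneg _ (by positivity)
  have b5 : 0 ≤ A5 := by
    rw [hA5]
    exact aE_nonneg _ (by positivity)
  have b6 : 0 ≤ A6 := by
    rw [hA6]
    exact aE_nonneg _ (by positivity)
  refine ⟨3 + |C| + (A1 + A2 + A3 + A4 + A5 + A6), by positivity, ?_⟩
  intro D J a₀ w₀ z M w i j r r2 r' r'' y a X lam gam κ q E P S ys gs H n₀ hn x hx
  have hq := H.ok.isLaw
  have h0 := hq.nonneg
  rw [abs_of_nonneg (by linarith [H.Cg] : 0 ≤ C)] at hA1 hA2 hA3 hA6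
  rw [abs_of_nonneg (by linarith [H.C1] : 0 ≤ C₁)] at hA6
  obtain ⟨b, hb⟩ : ∃ b, b = Pb q (fun ω => ¬ E ω) := ⟨_, rfl⟩
  have b0 : 0 ≤ b := by
    rw [hb]
    exact H.b0
  obtain ⟨ρ, hρ⟩ : ∃ ρ : ℝ, ρ = z + X * b := ⟨_, rfl⟩
  -- the deeper place
  have z1 := H.z1
  obtain ⟨x₀, hX, hxM⟩ := H.Xz
  obtain ⟨v, hv⟩ : ∃ v, v = x / z := ⟨_, rfl⟩
  have hv1 : v * z ≤ x := by
    rw [hv]
    exact Nat.div_mul_le_self _ _
  have hv2 : x < v * z + z := by
    rw [hv]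
    exact Nat.lt_div_mul_add (by omega)
  have hv3 : v ≤ x₀ := by
    have h1 : v * z ≤ x₀ * z := by
      rw [← hX]
      omega
    exact Nat.le_of_mul_le_mul_right h1 (by omega)
  obtain ⟨U, hU⟩ : ∃ U, x₀ = v + U := ⟨x₀ - v, by omega⟩
  have hUX : (v + U) * z = X := by rw [hX, hU]
  have hUX' : X - v * z = U * z := by
    rw [← hUX, Nat.add_mul]
    omega
  have hM : i + v + r'' < M := by omega
  have j1 := H.j1
  have j2 := H.j2
  -- the variables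
  obtain ⟨Z, hZ⟩ : ∃ Z : D.Ω → D.Γ × (D.Γ × ℕ), Z = fun ω =>
    (D.c (i - 1) (j - r) ω, (D.c (i + v) j ω, D.T ω)) := ⟨_, rfl⟩
  obtain ⟨N, hN⟩ : ∃ N : D.Ω → {u : Fin c // u ≠ n₀} → ℤ, N =
    fun ω (u : {u : Fin c // u ≠ n₀}) => nuv D J w z i j r X C P gs ω u := ⟨_, rfl⟩
  obtain ⟨F, hF⟩ : ∃ F : D.Ω → Fin c → ℤ, F = fun ω u =>
    nuv D J w z i j r X C P gs ω u / 2 ^ (X - x) := ⟨_, rfl⟩
  obtain ⟨V, hV⟩ : ∃ V, V = v4 (c := c) (k0 := k0) (k1 := k1) D J w z i j r X C P ys gs :=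
    ⟨_, rfl⟩
  obtain ⟨sv, hsv⟩ : ∃ sv, sv = s3 (c := c) (k0 := k0) (k1 := k1) D w z X C S ys gs := ⟨_, rfl⟩
  obtain ⟨hg, hhg⟩ : ∃ hg : D.Ω → Fin c → ℤ, hg =
    (qh (c := c) (k0 := k0) (k1 := k1) D J w z i j r X C P S ys gs q).hgt := ⟨_, rfl⟩
  obtain ⟨Ho, hHo⟩ : ∃ Ho : D.Ω → {u : Fin c // u ≠ n₀} → ℤ, Ho =
    fun ω (u : {u : Fin c // u ≠ n₀}) => hg ω u := ⟨_, rfl⟩
  obtain ⟨Zs, hZs⟩ : ∃ Zs, Zs = zg D z i j r X C P ys := ⟨_, rfl⟩
  obtain ⟨Zo, hZo⟩ : ∃ Zo, Zo = zg D z i j r X C P (fun u : {u : Fin c // u ≠ n₀} => gs u) :=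
    ⟨_, rfl⟩
  obtain ⟨g, hg'⟩ : ∃ g : Fin (k0 + k1) ⊕ {u : Fin c // u ≠ n₀} → ℕ,
    g = Sum.elim ys (fun u : {u : Fin c // u ≠ n₀} => gs u) := ⟨_, rfl⟩
  obtain ⟨Za, hZa⟩ : ∃ Za, Za = zg D z i j r X C P g := ⟨_, rfl⟩
  -- equal data of the line and of the time
  have eZ : ∀ ω ω', 0 < q ω → 0 < q ω' → Z ω = Z ω' → V ω = V ω' → sv ω = sv ω' →
      vv D J w z i j r X C P ys gs ω = vv D J w z i j r X C P ys gs ω' ∧
      tv D J w z i j r X C S ys gs ω = tv D J w z i j r X C S ys gs ω' ∧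
      cb D J w i j r ω = cb D J w i j r ω' := by
    intro ω ω' hω hω' e1 e2 e3
    rw [hZ] at e1
    obtain ⟨f1, f2, f3⟩ := H.up (i' := i + v) (by omega) hM hω hω' e1
    have g1 : cb D J w i j r ω = cb D J w i j r ω' := Prod.ext f1 (by
      change D.T ω / 2 ^ (J - w) = D.T ω' / 2 ^ (J - w)
      rw [f3])
    rw [hV] at e2
    rw [hsv] at e3
    rw [vv_eq, vv_eq, tv_eq, tv_eq]
    exact ⟨Prod.ext g1 e2, Prod.ext g1 (Prod.ext f3 e3), g1⟩
  -- (1)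
  have m1 : CH q N (fun ω => (F ω, (V ω, (sv ω, Z ω)))) ≤
      CH q N (fun ω => (F ω, (vv D J w z i j r X C P ys gs ω,
        (tv D J w z i j r X C S ys gs ω, cb D J w i j r ω)))) := by
    refine CH_mono_cond h0 fun ω ω' hω hω' e => ?_
    have e1 := (Prod.ext_iff.mp e).1
    have e2 := (Prod.ext_iff.mp e).2
    have e3 := (Prod.ext_iff.mp e2).1
    have e4 := (Prod.ext_iff.mp e2).2
    obtain ⟨f1, f2, f3⟩ := eZ ω ω' hω hω' (Prod.ext_iff.mp e4).2 e3 (Prod.ext_iff.mp e4).1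
    exact Prod.ext e1 (Prod.ext f1 (Prod.ext f2 f3))
  have m2 := CH_le_add h0 N F (fun ω => (V ω, (sv ω, Z ω)))
  have m3 : CH q F (fun ω => (V ω, (sv ω, Z ω))) ≤ A4 * ρ := by
    have h1 := H.few1 hx hv1 hv2 hM (fun ω => (V ω, sv ω))
    rw [← hF, ← hA4, ← hb, ← hρ] at h1
    refine le_trans (CH_mono_cond h0 fun ω ω' hω hω' e => ?_) h1
    have e3 := (Prod.ext_iff.mp e).1
    have e4 := (Prod.ext_iff.mp e).2
    have e5 := (Prod.ext_iff.mp e4).2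
    simp only at e5
    rw [hZ] at e5
    exact Prod.ext (Prod.ext e3 (Prod.ext_iff.mp e4).1) e5
  -- (2)
  have m4 : CH q N (fun ω => (V ω, (sv ω, Z ω))) = CH q Ho (fun ω => (V ω, (sv ω, Z ω))) := by
    have key : ∀ ω ω', 0 < q ω → 0 < q ω' → (V ω, (sv ω, Z ω)) = (V ω', (sv ω', Z ω')) →
        ∀ u, hg ω u - nuv D J w z i j r X C P gs ω u = hg ω' u -
          nuv D J w z i j r X C P gs ω' u := by
      intro ω ω' hω hω' e u
      have e4 := (Prod.ext_iff.mp e).2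
      obtain ⟨f1, f2, f3⟩ := eZ ω ω' hω hω' (Prod.ext_iff.mp e4).2 (Prod.ext_iff.mp e).1
        (Prod.ext_iff.mp e4).1
      obtain ⟨G, hG⟩ : ∃ G, G = (qh (c := c) (k0 := k0) (k1 := k1) D J w z i j r X C P S ys gs q).g := ⟨_, rfl⟩
      have g1 : ∀ ω, hg ω u = nuv D J w z i j r X C P gs ω u +
          G (tv D J w z i j r X C S ys gs ω) (vv D J w z i j r X C P ys gs ω) u := by
        intro ω
        rw [hhg, hG]
        rfl
      rw [g1, g1, f1, f2]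
      ring
    refine CH_congr h0 ?_ ?_ (fun _ _ _ _ h => h) (fun _ _ _ _ h => h)
    · intro ω ω' hω hω' e
      have e1 : N ω = N ω' := (Prod.ext_iff.mp e).1
      have e2 := (Prod.ext_iff.mp e).2
      rw [hHo]
      funext u
      have h1 := key ω ω' hω hω' e2 u
      have h2 := congrFun e1 u
      rw [hN] at h2
      simp only at h2
      simp only
      linarith
    · intro ω ω' hω hω' e
      have e1 : Ho ω = Ho ω' := (Prod.ext_iff.mp e).1
      have e2 := (Prod.ext_iff.mp e).2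
      rw [hN]
      funext u
      have h1 := key ω ω' hω hω' e2 u
      have h2 := congrFun e1 u
      rw [hHo] at h2
      simp only at h2
      simp only
      linarith
  -- (3)
  have m5 := H.info1 (i' := i + v) (by omega) hM
  rw [← hhg, ← hsv, ← hA1, ← hb, ← hρ] at m5
  have m5' : MI q (fun ω => (sv ω, hg ω)) V Z ≤ κ * z + A1 * ρ := by
    rw [hV, hZ]
    exact m5
  have m6 := MI_inner h0 hg sv V Z
  have m7 : MI q Ho V (fun ω => (sv ω, Z ω)) ≤ MI q hg V (fun ω => (sv ω, Z ω)) :=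
    MI_le_left h0 fun ω ω' _ _ e => by
      have e1 : hg ω = hg ω' := (Prod.ext_iff.mp e).1
      rw [hHo]
      funext u
      exact congrFun e1 u
  -- (4)
  have m8 : CH q Ho (fun ω => (Zs ω, (sv ω, Z ω))) ≤ CH q Ho (fun ω => (sv ω, Z ω)) :=
    CH_mono_cond h0 fun ω ω' _ _ e => (Prod.ext_iff.mp e).2
  have m9 := CH_le_add h0 Zo Ho (fun ω => (Zs ω, (sv ω, Z ω)))
  have m10 : CH q Zo (fun ω => (Ho ω, (Zs ω, (sv ω, Z ω)))) ≤ A3 * ρ := by
    have h1 := H.few3 (fun u : {u : Fin c // u ≠ n₀} => (u : Fin c)) Z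
    rw [card_ne, ← hA3, ← hb, ← hρ, ← hhg, ← hZo, ← hZs, ← hsv] at h1
    rw [hHo]
    exact h1
  -- (5)
  have m11 := H.info2 (i' := i + v) (by omega) hM g (by
    intro u
    rw [hg']
    rcases u with a | u
    · exact H.ys_n a
    · exact H.gs_n u)
  rw [Fintype.card_sum, Fintype.card_fin, card_ne, ← hA2, ← hb, ← hρ, ← hsv, ← hZa, ← hZ] at m11
  have m12 : MI q (fun ω => (Zs ω, Zo ω)) sv Z ≤ MI q sv Za Z := by
    rw [MI_symm h0 sv Za Z]
    refine MI_le_left h0 fun ω ω' _ _ e => ?_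
    have e1 : Za ω = Za ω' := (Prod.ext_iff.mp e).1
    rw [hZa] at e1
    rw [hZs, hZo]
    refine Prod.ext ?_ ?_
    · funext a
      have := congrFun e1 (Sum.inl a)
      rw [hg'] at this
      exact this
    · funext u
      have := congrFun e1 (Sum.inr u)
      rw [hg'] at this
      exact this
  have m13 := MI_inner h0 Zo Zs sv Z
  have m14 : CH q Zo (fun ω => (sv ω, (Zs ω, Z ω))) ≤ CH q Zo (fun ω => (Zs ω, (sv ω, Z ω))) :=
    CH_mono_cond h0 fun ω ω' _ _ e => by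
      have e1 := (Prod.ext_iff.mp e).1
      have e2 := (Prod.ext_iff.mp e).2
      exact Prod.ext (Prod.ext_iff.mp e2).1 (Prod.ext e1 (Prod.ext_iff.mp e2).2)
  -- (6)
  have m15 := CH_chain h0 Zo Zs Z
  have m15' : CH q (fun ω => (Zs ω, Zo ω)) Z = CH q (fun ω => (Zo ω, Zs ω)) Z := by
    refine CH_congr h0 ?_ ?_ (fun _ _ _ _ h => h) (fun _ _ _ _ h => h)
    · intro ω ω' _ _ e
      have e1 := (Prod.ext_iff.mp e).1
      exact Prod.ext (Prod.ext_iff.mp e1).2 (Prod.ext_iff.mp e1).1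
    · intro ω ω' _ _ e
      have e1 := (Prod.ext_iff.mp e).1
      exact Prod.ext (Prod.ext_iff.mp e1).2 (Prod.ext_iff.mp e1).1
  -- (7)
  have m16 := CH_le_add h0 (D.vd n (i + v) j (U * z)) (fun ω => (Zs ω, Zo ω)) Z
  have m17 : CH q (D.vd n (i + v) j (U * z)) (fun ω => ((Zs ω, Zo ω), Z ω)) ≤ A6 * ρ := by
    have h1 := H.few6 hUX hM g (by
      intro l a1 a2
      rw [hg']
      rcases sl_or_gr (gam := gam) a1 a2.le with hs | hs
      · obtain ⟨a, ha⟩ := H.ys_on hs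
        exact ⟨Sum.inl a, ha⟩
      · obtain ⟨u, hu⟩ := H.gs_on l hs
        refine ⟨Sum.inr ⟨u, ?_⟩, hu⟩
        intro e
        rw [e, hn] at hu
        omega) (fun _ => ())
    rw [← hA6, ← hb, ← hρ, ← hZa] at h1
    refine le_trans (CH_mono_cond h0 fun ω ω' hω hω' e => ?_) h1
    have e1 := (Prod.ext_iff.mp e).1
    have e2 : Z ω = Z ω' := (Prod.ext_iff.mp e).2
    have e3 : Zs ω = Zs ω' := (Prod.ext_iff.mp e1).1
    have e4 : Zo ω = Zo ω' := (Prod.ext_iff.mp e1).2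
    rw [hZ] at e2
    refine Prod.ext (Prod.ext rfl ?_) e2
    rw [hZs] at e3
    rw [hZo] at e4
    rw [hZa, hg']
    funext u
    rcases u with a | u
    · exact congrFun e3 a
    · exact congrFun e4 u
  have m18 : ((n - 1 : ℕ) : ℝ) * (U * z) * Real.log 2 - C * z ≤
      CH q (D.vd n (i + v) j (U * z)) Z := by
    have i0 := H.i0
    have hUr : U * r ≤ x₀ * r := Nat.mul_le_mul_right r (by omega)
    have hXr := H.Xr x₀ hX
    have h1 := H.llc (i + v) j r U (by omega) j1 (by omega) (by omega)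
    refine h1.trans (CH_mono_cond h0 fun ω ω' hω hω' e => ?_)
    have e1 := (Prod.ext_iff.mp e).1
    have e2 := (Prod.ext_iff.mp e).2
    rw [hZ]
    have h2 := c_up H.ok (j := j - r) (by omega) (i - 1) v (by omega)
    rw [show i - 1 + v = i + v - 1 by omega] at h2
    exact Prod.ext (h2 ω ω' hω hω' e1) e2
  -- (8)
  have m19 : CH q Zs Z ≤ ((k0 + k1 : ℕ) : ℝ) * ((U * z : ℕ) * Real.log 2) + A5 * ρ := by
    have h1 := H.few8 (v := v) (hv1.trans hx) hM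
    rw [hUX', ← hA5, ← hb, ← hρ, ← hZs, ← hZ] at h1
    exact h1
  -- the sum
  have hkc := count_kc H.ys_sl H.ys_in (fun _ hl => H.ys_on hl) H.gs_gr H.gs_in.injective H.gs_on
  have c1 : 1 ≤ c := by
    have := n₀.2
    omega
  have n1 : ((n - 1 : ℕ) : ℝ) = ((k0 + k1 : ℕ) : ℝ) + (c - 1) := by
    have : n - 1 = k0 + k1 + (c - 1) := by omega
    rw [this]
    push_cast [Nat.cast_sub c1]
    ring
  rw [n1] at m18
  have l2 : 0 ≤ Real.log 2 := Real.log_nonneg (by norm_num)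
  have c1' : (1 : ℝ) ≤ c := by exact_mod_cast c1
  have hUz : ((U * z : ℕ) : ℝ) = X - v * z := by
    rw [← hUX']
    rw [Nat.cast_sub (hv1.trans hx)]
    push_cast
    ring
  have hxx : (X : ℝ) - x ≤ ((U * z : ℕ) : ℝ) := by
    rw [hUz]
    have : ((v * z : ℕ) : ℝ) ≤ x := by exact_mod_cast hv1
    push_cast at this
    linarith
  have m20 : ((c : ℝ) - 1) * (((X : ℝ) - x) * Real.log 2) ≤
      ((c : ℝ) - 1) * (((U * z : ℕ) : ℝ) * Real.log 2) :=
    mul_le_mul_of_nonneg_left (mul_le_mul_of_nonneg_right hxx l2) (by linarith)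
  have m21 : (((k0 + k1 : ℕ) : ℝ) + ((c : ℝ) - 1)) * (U * z) * Real.log 2 =
      ((k0 + k1 : ℕ) : ℝ) * ((U * z : ℕ) * Real.log 2) +
        ((c : ℝ) - 1) * (((U * z : ℕ) : ℝ) * Real.log 2) := by
    push_cast
    ring
  rw [m21] at m18
  unfold MI at m5' m6 m7 m11 m12 m13
  have κ0 := H.κ0
  have zr : (1 : ℝ) ≤ z := by exact_mod_cast z1
  have x0 : (0 : ℝ) ≤ X := Nat.cast_nonneg X
  have xb : 0 ≤ (X : ℝ) * b := mul_nonneg x0 b0
  have m22 : 3 * (κ * z) + C * z + (A1 + A2 + A3 + A4 + A5 + A6) * ρ ≤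
      err (3 + |C| + (A1 + A2 + A3 + A4 + A5 + A6)) κ z X b := by
    unfold err
    rw [hρ]
    have n2 : 0 ≤ κ * z := mul_nonneg κ0 (by linarith)
    have n3 : 0 ≤ A1 + A2 + A3 + A4 + A5 + A6 := by positivity
    have n4 := mul_nonneg n3 n2
    have n5 : C * z ≤ |C| * z := mul_le_mul_of_nonneg_right (le_abs_self C) (by linarith)
    have n6 : 0 ≤ |C| * (κ * z) := mul_nonneg (abs_nonneg C) n2
    have n7 : 0 ≤ |C| * (X * b) := mul_nonneg (abs_nonneg C) xb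
    have n8 : (3 + |C| + (A1 + A2 + A3 + A4 + A5 + A6)) * ((1 + κ) * z + X * b) =
        3 * z + 3 * (κ * z) + 3 * (X * b) + (|C| * z + |C| * (κ * z) + |C| * (X * b)) +
        ((A1 + A2 + A3 + A4 + A5 + A6) * (z + X * b) +
          (A1 + A2 + A3 + A4 + A5 + A6) * (κ * z)) := by
      ring
    rw [n8]
    linarith
  rw [← hb]
  have n2 : 0 ≤ κ * z := mul_nonneg κ0 (by linarith)
  have goal1 : ((c : ℝ) - 1) * (((X : ℝ) - x) * Real.log 2) -
      err (3 + |C| + (A1 + A2 + A3 + A4 + A5 + A6)) κ z X b ≤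
      CH q N (fun ω => (F ω, (vv D J w z i j r X C P ys gs ω,
        (tv D J w z i j r X C S ys gs ω, cb D J w i j r ω)))) := by
    linarith
  rw [hN, hF] at goal1
  exact goal1

end Pool.P5
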