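import Pool.Agent.H25.P5.V5

/-!
# P5: the visible chart of the picture, the theorem
-/

set_option autoImplicit false

namespace Pool.P5

open Finset Real MvPolynomial
open Pool.Agent.H49.Ent Pool.Agent.H32.Dense Pool.STK Pool.STAT Pool.MIC.Frm Pool.MIC Pool.MIC7
open Pool.FRM Pool.GSD Pool.POT
open Pool.BFL (Pb)
open Pool.QC (nfb)
open Pool.QT64 (QH)
open Pool.P4 (t0 rt pp PthC FraC bb ze zt z0 be cl1 dg dgp Ry cb LLC tq GoodS FrP err
  dg_near dg_abs dg_lip dgp_lip dgp_near dgp_abs c_up c_up1 Ry_pos rt_near floor_near aC aC_nonneg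
  aE aE_nonneg few_z few_exp few_exp0 sides MI_inner le_expz mul_expz dg_lipR dg_absR dgp_inj
  dgp_lipR vecF mem_vecF card_vecF aW aW_nonneg log_rng rng_err yF nF MF yD flag_up flag_lo Cht
  Rcv inv_near exp_mz')

/-- The height and the position, off the event. -/
theorem hgt_nuv {D : NDat2} {J w z i j r X : ℕ} {C : ℝ} {P : D.Γ × D.Γ → ℕ → PN}
    {S : Slo D} {c k0 k1 : ℕ} {ys : Fin (k0 + k1) → ℕ} {gs : Fin c → ℕ} {q : D.Ω → ℝ}
    {ω ω' : D.Ω} (h1 : tv (c := c) (k0 := k0) (k1 := k1) D J w z i j r X C S ys gs ω =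
      tv D J w z i j r X C S ys gs ω') (h2 : vv (c := c) (k0 := k0) (k1 := k1) D J w z i j r X C P ys gs ω =
      vv D J w z i j r X C P ys gs ω') (u : Fin c) :
    dv ((qh (c := c) (k0 := k0) (k1 := k1) D J w z i j r X C P S ys gs q).hgt ω)
      ((qh (c := c) (k0 := k0) (k1 := k1) D J w z i j r X C P S ys gs q).hgt ω') u =
      dv (nuv D J w z i j r X C P gs ω) (nuv D J w z i j r X C P gs ω') u := by
  obtain ⟨G, hG⟩ : ∃ G, G = (qh (c := c) (k0 := k0) (k1 := k1) D J w z i j r X C P S ys gs q).g := ⟨_, rfl⟩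
  have g1 : ∀ ω : D.Ω, (qh (c := c) (k0 := k0) (k1 := k1) D J w z i j r X C P S ys gs q).hgt ω u =
      nuv D J w z i j r X C P gs ω u +
      G (tv D J w z i j r X C S ys gs ω) (vv D J w z i j r X C P ys gs ω) u := by
    intro ω
    rw [hG]
    rfl
  have g2 := g1 ω
  have g3 := g1 ω'
  rw [h1, h2] at g2
  unfold dv
  rw [g2, g3]
  push_cast
  ring

section

variable {D : NDat2} {n K K' J a₀ w₀ z M w i j r r2 r' r'' y a X : ℕ} {lam gam : ℕ → ℝ}
  {κ C₁ C : ℝ} {q : D.Ω → ℝ} {E : D.Ω → Prop} {P : D.Γ × D.Γ → ℕ → PN}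
  {S : Slo D} {c k0 k1 : ℕ} {ys : Fin (k0 + k1) → ℕ} {gs : Fin c → ℕ}
  (H : Hyp D n K K' J a₀ w₀ z M w i j r r2 r' r'' y a X lam gam κ C₁ C q E P S ys gs)
  {Sg : Type} {s : D.Ω → Sg} {zd : D.Ω → ℕ → ℝ}
  (hD : Rcv D n z i j r C q E s zd)
  {Mx : D.Γ × D.Γ → Sg → Matrix (Fin c) (Fin c) ℝ}
  (hc : Cht D z i j r X C E P s zd ys gs Mx)

include H

include hD hc

/-- The visible near point, given the line and the record. -/
theorem Hyp.e1_V : CH q (fun ω => (yF E (yD z X C zd ys) ω, nF E (nuD z X C zd gs)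
      (qh (c := c) (k0 := k0) (k1 := k1) D J w z i j r X C P S ys gs q).hgt ω))
      (fun ω => ((nuv D J w z i j r X C P gs ω, (vv D J w z i j r X C P ys gs ω,
        cb D J w i j r ω)), (E ω, s ω))) ≤
    (aE (k0 + k1) (7 + C + aW (K5 k0 k1)) + aE c (13 + 8 * c + C + aW (K5 k0 k1))) * (z + X * Pb q (fun ω => ¬ E ω)) := by
  have hq := H.ok.isLaw
  have h0 := hq.nonneg
  have C0 : 0 ≤ C := by linarith [H.Cg]
  have w0 := aW_nonneg (K5 k0 k1)
  have e1 := H.e1
  have hR := Rg_pos z C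
  have hRy := Ry_pos z C
  have hX : (0 : ℝ) < 2 ^ X := by positivity
  obtain ⟨hg, hhg⟩ : ∃ hg : D.Ω → Fin c → ℤ, hg =
    (qh (c := c) (k0 := k0) (k1 := k1) D J w z i j r X C P S ys gs q).hgt := ⟨_, rfl⟩
  obtain ⟨Z, hZ⟩ : ∃ Z, Z = fun ω =>
    ((nuv D J w z i j r X C P gs ω, (vv D J w z i j r X C P ys gs ω,
        cb D J w i j r ω)), (E ω, s ω)) := ⟨_, rfl⟩
  rw [← hhg, ← hZ]
  have eq : ∀ ω ω', 0 < q ω → 0 < q ω' → Z ω = Z ω' →
      nuv D J w z i j r X C P gs ω = nuv D J w z i j r X C P gs ω' ∧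
      yv (k0 := k0) (k1 := k1) D J w z i j r X C P ys ω = yv D J w z i j r X C P ys ω' ∧
      mv (k0 := k0) (k1 := k1) D J w z i j r X C P ys ω = mv D J w z i j r X C P ys ω' ∧
      bev (c := c) D J w z i j r X C P gs ω = bev D J w z i j r X C P gs ω' ∧
      be2v (c := c) D J w z i j r X C P gs ω = be2v D J w z i j r X C P gs ω' ∧
      bb D i j r ω = bb D i j r ω' ∧ D.T ω = D.T ω' := by
    intro ω ω' hω hω' e
    rw [hZ] at e
    have f1 := (Prod.ext_iff.mp e).1
    have f2 := (Prod.ext_iff.mp e).2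
    have f3 := (Prod.ext_iff.mp f1).1
    have f4 := (Prod.ext_iff.mp (Prod.ext_iff.mp f1).2).1
    have f5 := (Prod.ext_iff.mp f4).2
    have f6 : cb D J w i j r ω = cb D J w i j r ω' := (Prod.ext_iff.mp f4).1
    have f7 := (Prod.ext_iff.mp f5).2
    have f8 := (Prod.ext_iff.mp f7).2
    exact ⟨f3, (Prod.ext_iff.mp f5).1, (Prod.ext_iff.mp f7).1, (Prod.ext_iff.mp f8).1,
      (Prod.ext_iff.mp f8).2, (Prod.ext_iff.mp f6).1,
      hD.sT ω ω' hω hω' (Prod.ext_iff.mp f2).2⟩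
  have w1 : CH q (yF E (yD z X C zd ys)) Z ≤
      aE (k0 + k1) (7 + C + aW (K5 k0 k1)) * (z + X * Pb q (fun ω => ¬ E ω)) := by
    have := few_exp0 hq (yF E (yD z X C zd ys)) Z E (A := 7 + C + aW (K5 k0 k1)) (X := X)
      (by positivity) H.z1 ?_ ?_
    · rwa [Fintype.card_fin] at this
    · intro ω ω' hω hω' hE hE' e a
      obtain ⟨f1, f2, fm, f3, fb, f4, f5⟩ := eq ω ω' hω hω' e
      unfold yF
      rw [if_pos hE, if_pos hE']
      have h1 := H.y_ze hω hω' hE hE' f5 f2 fm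
      have h2 := (hc.fw ω ω' hE hE' f4 f5 (10 * Ry z C / 2 ^ X) (by positivity) (fun a => by
        rw [le_div_iff₀ hX, mul_comm]
        exact h1 a)).1 a
      have h3 := dgp_lipR (X := X) ((zd ω (ys a) + Ry z C) / (2 * Ry z C))
        ((zd ω' (ys a) + Ry z C) / (2 * Ry z C))
      rw [← sub_div, abs_div, abs_of_pos (by positivity : (0 : ℝ) < 2 * Ry z C),
        add_sub_add_right_eq_sub] at h3
      have h4 : (2 : ℝ) ^ X * (|zd ω (ys a) - zd ω' (ys a)| / (2 * Ry z C)) ≤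
          2 ^ X * ((exp (C * z) * (10 * Ry z C / 2 ^ X + ((2 : ℝ) ^ X)⁻¹)) / (2 * Ry z C)) :=
        mul_le_mul_of_nonneg_left (div_le_div_of_nonneg_right h2 (by positivity)) hX.le
      have h5 : (2 : ℝ) ^ X * ((exp (C * z) * (10 * Ry z C / 2 ^ X + ((2 : ℝ) ^ X)⁻¹)) /
          (2 * Ry z C)) = (10 * exp (C * z) + 1) / 2 := by
        unfold Ry
        field_simp
      rw [h5] at h4
      have h6 : (7 : ℝ) * exp (C * z) ≤ exp ((7 + C) * z) := mul_expz (by norm_num) H.z1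
      have h7 : exp ((7 + C) * z) ≤ exp ((7 + C + aW (K5 k0 k1)) * z) := exp_mz' (by linarith) z
      unfold yD
      linarith
    · intro ω _ a
      exact H.rng (by linarith) (yF_bd k0 k1 ω a)
  have w2 : CH q (nF E (nuD z X C zd gs) hg) Z ≤
      aE c (13 + 8 * c + C + aW (K5 k0 k1)) * (z + X * Pb q (fun ω => ¬ E ω)) := by
    have := few_exp0 hq (nF E (nuD z X C zd gs) hg) Z E (A := 13 + 8 * c + C + aW (K5 k0 k1)) (X := X)
      (by positivity) H.z1 ?_ ?_
    · rwa [Fintype.card_fin] at this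
    · intro ω ω' hω hω' hE hE' e u
      obtain ⟨f1, f2, fm, f3, fb, f4, f5⟩ := eq ω ω' hω hω' e
      unfold nF
      rw [if_pos hE, if_pos hE']
      have h1 := H.y_ze hω hω' hE hE' f5 f2 fm
      have h2 := H.nD_ze hD hc hE hE' f4 f5 (by positivity) h1 u
      have hv : ∀ v, |2 ^ X / Rg z C * (ze D i j r P ω (gs v) - ze D i j r P ω' (gs v))| ≤ 8 := by
        intro v
        have h3 := H.z0_ze hω hω' hE hE' f5 f3 fb v
        have hgv := H.gs_n v
        have h4 := dg_f (X := X) (z := z) (C := C)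
          ((H.geo.bt ω hω hE (gs v) hgv.1 hgv.2 w H.w1 H.w2).1.trans H.exp_le_Rg)
          ((H.geo.bt ω' hω' hE' (gs v) hgv.1 hgv.2 w H.w1 H.w2).1.trans H.exp_le_Rg)
        have h5 : (dg X (z0 D J w i j r P ω (gs v) / Rg z C) : ℤ) =
            dg X (z0 D J w i j r P ω' (gs v) / Rg z C) := congrFun f1 v
        rw [h5, sub_self, zero_sub, abs_neg] at h4
        rw [abs_le] at h3 h4 ⊢
        constructor <;> linarith [h3.1, h3.2, h4.1, h4.2]
      have hsum : |∑ v, Mx (bb D i j r ω) (s ω) u v *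
          (2 ^ X / Rg z C * (ze D i j r P ω (gs v) - ze D i j r P ω' (gs v)))| ≤
          c * (exp (C * z) * 8) := by
        calc _ ≤ ∑ v : Fin c, exp (C * z) * 8 := (Finset.abs_sum_le_sum_abs _ _).trans
              (Finset.sum_le_sum fun v _ => by
                rw [abs_mul]
                exact mul_le_mul (hc.ent ω hE u v) (hv v) (abs_nonneg _) (Real.exp_pos _).le)
          _ = _ := by rw [Finset.sum_const, Finset.card_univ, Fintype.card_fin, nsmul_eq_mul]
      have e4 : (nuD z X C zd gs ω u : ℝ) - nuD z X C zd gs ω' u =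
          dv (nuD z X C zd gs ω) (nuD z X C zd gs ω') u := by
        unfold dv
        push_cast
        rfl
      rw [e4]
      have h6 : (13 + 8 * c : ℝ) * exp (C * z) ≤ exp ((13 + 8 * c + C) * z) :=
        mul_expz (by positivity) H.z1
      have h7 : exp ((13 + 8 * c + C) * z) ≤ exp ((13 + 8 * c + C + aW (K5 k0 k1)) * z) :=
        exp_mz' (by linarith) z
      unfold Ry at h2
      rw [abs_le] at h2 hsum ⊢
      constructor <;> nlinarith [h2.1, h2.2, hsum.1, hsum.2]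
    · intro ω _ u
      have c0 : (0 : ℝ) ≤ c := Nat.cast_nonneg c
      rw [hhg]
      exact H.rng (by linarith) (H.nF_bd ω u)
  have w3 := CH_subadd h0 (yF E (yD z X C zd ys)) (nF E (nuD z X C zd gs) hg) Z
  calc _ ≤ _ := w3
    _ ≤ _ := by
      rw [add_mul]
      exact add_le_add w1 w2

/-- The visible slow coordinates, given the data of the line. -/
theorem Hyp.e2_V : CH q (yF E (yD z X C zd ys))
      (fun ω => (vv D J w z i j r X C P ys gs ω, (cb D J w i j r ω,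
        (tv D J w z i j r X C S ys gs ω, E ω)))) ≤
    aE (k0 + k1) (7 + C + aW (K5 k0 k1)) * (z + X * Pb q (fun ω => ¬ E ω)) := by
  have hq := H.ok.isLaw
  have C0 : 0 ≤ C := by linarith [H.Cg]
  have w0 := aW_nonneg (K5 k0 k1)
  have e1 := H.e1
  have hRy := Ry_pos z C
  have hX : (0 : ℝ) < 2 ^ X := by positivity
  obtain ⟨Z, hZ⟩ : ∃ Z, Z = fun ω => (vv D J w z i j r X C P ys gs ω, (cb D J w i j r ω,
        (tv D J w z i j r X C S ys gs ω, E ω))) := ⟨_, rfl⟩
  rw [← hZ]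
  have := few_exp0 hq (yF E (yD z X C zd ys)) Z E (A := 7 + C + aW (K5 k0 k1)) (X := X)
      (by positivity) H.z1 ?_ ?_
  · rwa [Fintype.card_fin] at this
  · intro ω ω' hω hω' hE hE' e a
    rw [hZ] at e
    have g1 := (Prod.ext_iff.mp e).1
    have g2 := (Prod.ext_iff.mp e).2
    have g3 := (Prod.ext_iff.mp (Prod.ext_iff.mp g2).2).1
    have f2 : yv (k0 := k0) (k1 := k1) D J w z i j r X C P ys ω = yv D J w z i j r X C P ys ω' :=
      (Prod.ext_iff.mp (Prod.ext_iff.mp g1).2).1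
    have fm : mv (k0 := k0) (k1 := k1) D J w z i j r X C P ys ω = mv D J w z i j r X C P ys ω' :=
      (Prod.ext_iff.mp (Prod.ext_iff.mp (Prod.ext_iff.mp g1).2).2).1
    have f4 : bb D i j r ω = bb D i j r ω' := (Prod.ext_iff.mp (Prod.ext_iff.mp g2).1).1
    have f5 : D.T ω = D.T ω' := (Prod.ext_iff.mp (Prod.ext_iff.mp g3).2).1
    unfold yF
    rw [if_pos hE, if_pos hE']
    have h1 := H.y_ze hω hω' hE hE' f5 f2 fm
    have h2 := (hc.fw ω ω' hE hE' f4 f5 (10 * Ry z C / 2 ^ X) (by positivity) (fun a => by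
      rw [le_div_iff₀ hX, mul_comm]
      exact h1 a)).1 a
    have h3 := dgp_lipR (X := X) ((zd ω (ys a) + Ry z C) / (2 * Ry z C))
      ((zd ω' (ys a) + Ry z C) / (2 * Ry z C))
    rw [← sub_div, abs_div, abs_of_pos (by positivity : (0 : ℝ) < 2 * Ry z C),
      add_sub_add_right_eq_sub] at h3
    have h4 : (2 : ℝ) ^ X * (|zd ω (ys a) - zd ω' (ys a)| / (2 * Ry z C)) ≤
        2 ^ X * ((exp (C * z) * (10 * Ry z C / 2 ^ X + ((2 : ℝ) ^ X)⁻¹)) / (2 * Ry z C)) :=
      mul_le_mul_of_nonneg_left (div_le_div_of_nonneg_right h2 (by positivity)) hX.le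
    have h5 : (2 : ℝ) ^ X * ((exp (C * z) * (10 * Ry z C / 2 ^ X + ((2 : ℝ) ^ X)⁻¹)) /
        (2 * Ry z C)) = (10 * exp (C * z) + 1) / 2 := by
      unfold Ry
      field_simp
    rw [h5] at h4
    have h6 : (7 : ℝ) * exp (C * z) ≤ exp ((7 + C) * z) := mul_expz (by norm_num) H.z1
    have h7 : exp ((7 + C) * z) ≤ exp ((7 + C + aW (K5 k0 k1)) * z) := exp_mz' (by linarith) z
    unfold yD
    linarith
  · intro ω _ a
    exact H.rng (by linarith) (yF_bd k0 k1 ω a)

end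

/-- **The visible chart of the picture.** -/
theorem vch (n K K' c k0 k1 : ℕ) (C₁ C : ℝ) : ∃ A : ℝ, 1 ≤ A ∧
    ∀ (D : NDat2) (J a₀ w₀ z M w i j r r2 r' r'' y a X : ℕ) (lam gam : ℕ → ℝ) (κ : ℝ) (q : D.Ω → ℝ)
      (E : D.Ω → Prop) (P : D.Γ × D.Γ → ℕ → PN) (S : Slo D) (ys : Fin (k0 + k1) → ℕ)
      (gs : Fin c → ℕ),
      Hyp D n K K' J a₀ w₀ z M w i j r r2 r' r'' y a X lam gam κ C₁ C q E P S ys gs →
    ∀ {Sg : Type} (s : D.Ω → Sg) (zd : D.Ω → ℕ → ℝ)
      (Mx : D.Γ × D.Γ → Sg → Matrix (Fin c) (Fin c) ℝ),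
      Rcv D n z i j r C q E s zd → Cht D z i j r X C E P s zd ys gs Mx →
    ∀ (n₀ : Fin c) (B : ℕ) (δ0 ν c0 : ℝ),
      CH q (fun ω => (yD z X C zd ys ω, nuD z X C zd gs ω)) s ≤
        CH q (fun ω => (yD z X C zd ys ω, nuD z X C zd gs ω))
          (fun ω => (cb D J w i j r ω, s ω)) + δ0 →
      nfb q (nuD z X C zd gs) (fun ω => (yD z X C zd ys ω, s ω)) n₀ X B ≤ ν →
      ν + B * err A κ z X (Pb q (fun ω => ¬ E ω)) ≤ (1 - c0) * X * Real.log 2 →
      VCh ((qh (c := c) (k0 := k0) (k1 := k1) D J w z i j r X C P S ys gs q).flag E) X B n₀ c0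
        (err A κ z X (Pb q (fun ω => ¬ E ω)))
        (δ0 + err A κ z X (Pb q (fun ω => ¬ E ω))) (exp (A * z)) (fun ω => (E ω, s ω))
        (yF E (yD z X C zd ys)) (nF E (nuD z X C zd gs)
          (qh (c := c) (k0 := k0) (k1 := k1) D J w z i j r X C P S ys gs q).hgt) (MF i j r E s Mx) := by
  obtain ⟨A1, hA1⟩ : ∃ A : ℝ, A = aE (k0 + k1) (7 + |C| + aW (K5 k0 k1)) + aE c (13 + 8 * c + |C| + aW (K5 k0 k1)) :=
    ⟨_, rfl⟩
  obtain ⟨A2, hA2⟩ : ∃ A : ℝ, A = 1 + 2 * ((k0 + k1 + c : ℕ) * aW (K5 k0 k1)) := ⟨_, rfl⟩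
  obtain ⟨A3, hA3⟩ : ∃ A : ℝ, A = 26 + 30 * ((k0 : ℝ) + k1) + 13 * c + 3 * |C| + aW (K5 k0 k1) := ⟨_, rfl⟩
  have w0 := aW_nonneg (K5 k0 k1)
  have a1 : 0 ≤ A1 := by
    rw [hA1]
    exact add_nonneg (aE_nonneg _ (by positivity)) (aE_nonneg _ (by positivity))
  have a2 : 0 ≤ A2 := by
    rw [hA2]
    positivity
  have a3 : 26 ≤ A3 := by
    rw [hA3]
    have : (0 : ℝ) ≤ 30 * ((k0 : ℝ) + k1) + 13 * c + 3 * |C| + aW (K5 k0 k1) := by positivity
    linarith
  refine ⟨A1 + A2 + A3, by linarith, ?_⟩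
  intro D J a₀ w₀ z M w i j r r2 r' r'' y a X lam gam κ q E P S ys gs H Sg s zd Mx hD hc n₀ B δ0 ν c0
    hF0 hnf hν
  have C0 : 0 ≤ C := by linarith [H.Cg]
  rw [abs_of_nonneg C0] at hA1 hA3
  have hq := H.ok.isLaw
  have b0 := H.b0
  have κ0 := H.κ0
  have z1 : (1 : ℝ) ≤ z := by exact_mod_cast H.z1
  have x0 : (0 : ℝ) ≤ X := Nat.cast_nonneg X
  obtain ⟨b, hb⟩ : ∃ b, b = Pb q (fun ω => ¬ E ω) := ⟨_, rfl⟩
  rw [← hb] at b0 hν ⊢
  have xb : 0 ≤ (X : ℝ) * b := mul_nonneg x0 b0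
  have hρ : 0 ≤ (z : ℝ) + X * b := by linarith
  have herr : ∀ A' : ℝ, 0 ≤ A' → A' ≤ A1 + A2 + A3 → A' * (z + X * b) ≤
      err (A1 + A2 + A3) κ z X b := by
    intro A' h1 h2
    unfold err
    have h3 : 0 ≤ κ * z := mul_nonneg κ0 (by linarith)
    have h4 : (z : ℝ) + X * b ≤ (1 + κ) * z + X * b := by linarith
    calc A' * (z + X * b) ≤ (A1 + A2 + A3) * (z + X * b) := mul_le_mul_of_nonneg_right h2 hρ
      _ ≤ _ := mul_le_mul_of_nonneg_left h4 (by linarith)
  have hexp : ∀ t : ℝ, 0 ≤ t → t + 3 * C ≤ A1 + A2 + A3 →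
      t * exp ((3 * C) * z) ≤ exp ((A1 + A2 + A3) * z) := by
    intro t h1 h2
    exact (mul_expz h1 H.z1).trans (exp_mz' h2 z)
  have hone : (1 : ℝ) ≤ exp ((A1 + A2 + A3) * z) := Real.one_le_exp (by
    have : 0 ≤ A1 + A2 + A3 := by linarith
    positivity)
  have hC' : exp (C * z) ≤ exp ((A1 + A2 + A3) * z) := exp_mz' (by
    rw [hA3] at a3 ⊢
    have : (0 : ℝ) ≤ 26 + 30 * ((k0 : ℝ) + k1) + 13 * c + 2 * C + aW (K5 k0 k1) := by positivity
    linarith) z
  have kk0 : (0 : ℝ) ≤ (k0 : ℝ) + k1 := by positivity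
  have c0' : (0 : ℝ) ≤ c := Nat.cast_nonneg c
  refine
    { ds := ?_
      dM := ?_
      one := ?_
      low := ?_
      ent := ?_
      inv := ?_
      e1 := ?_
      e2 := ?_
      hF := ?_
      rel := ?_
      tr := ?_
      nf := ?_ }
  · intro ω ω' hω hω' e
    have f1 : cb D J w i j r ω = cb D J w i j r ω' := (Prod.ext_iff.mp e).1
    have f2 : (tv (c := c) (k0 := k0) (k1 := k1) D J w z i j r X C S ys gs ω, E ω) =
      (tv D J w z i j r X C S ys gs ω', E ω') := (Prod.ext_iff.mp e).2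
    have f3 : D.T ω = D.T ω' :=
      (Prod.ext_iff.mp (Prod.ext_iff.mp (Prod.ext_iff.mp f2).1).2).1
    exact Prod.ext (Prod.ext_iff.mp f2).2
      (hD.bs ω ω' hω hω' (Prod.ext_iff.mp f1).1 f3)
  · intro ω ω' hω hω' e
    have f1 : cb D J w i j r ω = cb D J w i j r ω' := (Prod.ext_iff.mp e).1
    have f2 : (E ω, s ω) = (E ω', s ω') := (Prod.ext_iff.mp e).2
    have f3 : E ω = E ω' := (Prod.ext_iff.mp f2).1
    have f4 : s ω = s ω' := (Prod.ext_iff.mp f2).2
    have f5 : bb D i j r ω = bb D i j r ω' := (Prod.ext_iff.mp f1).1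
    by_cases h : E ω
    · have h' : E ω' := f3 ▸ h
      unfold MF
      rw [if_pos h, if_pos h', f4, f5]
    · have h' : ¬ E ω' := fun h' => h (f3.symm ▸ h')
      unfold MF
      rw [if_neg h, if_neg h']
  · intro ω a
    unfold MF
    split_ifs with h
    · exact hc.one ω h a
    · exact Matrix.one_apply_eq a
  · intro ω a b' hab
    unfold MF
    split_ifs with h
    · exact hc.low ω h a b' hab
    · exact Matrix.one_apply_ne (ne_of_lt hab)
  · intro ω a b'
    unfold MF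
    split_ifs with h
    · exact (hc.ent ω h a b').trans hC'
    · rw [Matrix.one_apply]
      split_ifs
      · rw [abs_one]
        exact hone
      · rw [abs_zero]
        linarith
  · intro ω a b'
    unfold MF
    split_ifs with h
    · exact (hc.inv ω h a b').trans hC'
    · rw [inv_one, Matrix.one_apply]
      split_ifs
      · rw [abs_one]
        exact hone
      · rw [abs_zero]
        linarith
  · have h1 := H.e1_V hD hc
    rw [← hb, ← hA1] at h1
    exact h1.trans (herr A1 a1 (by linarith))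
  · have h1 := H.e2_V hD hc
    rw [← hb] at h1
    refine h1.trans (herr _ (aE_nonneg _ (by positivity)) ?_)
    have h2 : aE (k0 + k1) (7 + C + aW (K5 k0 k1)) ≤ A1 := by
      rw [hA1]
      have := aE_nonneg c (show 0 ≤ 13 + 8 * (c : ℝ) + C + aW (K5 k0 k1) by positivity)
      linarith
    linarith
  · have h1 := H.hF_flag (zd := zd) (s := s) (cb D J w i j r) hF0
    rw [← hb, ← hA2] at h1
    have h2 := herr A2 a2 (by linarith)
    change CH q _ _ ≤ CH q _ _ + _
    refine h1.trans ?_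
    have h3 : δ0 + A2 * (z + X * b) ≤ δ0 + err (A1 + A2 + A3) κ z X b := by linarith
    exact add_le_add le_rfl h3
  · intro ω ω' hω hω' ey eb et u
    have f1 : cb D J w i j r ω = cb D J w i j r ω' := eb
    have f2 : (tv (c := c) (k0 := k0) (k1 := k1) D J w z i j r X C S ys gs ω, E ω) =
      (tv D J w z i j r X C S ys gs ω', E ω') := et
    have f3 : E ω = E ω' := (Prod.ext_iff.mp f2).2
    have f4 := (Prod.ext_iff.mp (Prod.ext_iff.mp f2).1).2
    have f5 : D.T ω = D.T ω' := (Prod.ext_iff.mp f4).1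
    have f6 : Sv (c := c) (k0 := k0) (k1 := k1) D z X C S ys gs ω = Sv D z X C S ys gs ω' :=
      (Prod.ext_iff.mp (Prod.ext_iff.mp f4).2).1
    by_cases h : E ω
    · have h' : E ω' := f3 ▸ h
      have ey' : yD z X C zd ys ω = yD z X C zd ys ω' := by
        unfold yF at ey
        rw [if_pos h, if_pos h'] at ey
        exact ey
      have key := H.rel_E hD hc h h' ey' (Prod.ext_iff.mp f1).1 f5 f6 u
      have e2 : nF E (nuD z X C zd gs) (qh (c := c) (k0 := k0) (k1 := k1) D J w z i j r X C P S ys gs q).hgt ω =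
          nuD z X C zd gs ω := if_pos h
      have e3 : nF E (nuD z X C zd gs) (qh (c := c) (k0 := k0) (k1 := k1) D J w z i j r X C P S ys gs q).hgt ω' =
          nuD z X C zd gs ω' := if_pos h'
      have e4 : MF i j r E s Mx ω = Mx (bb D i j r ω) (s ω) := if_pos h
      rw [e2, e3, e4]
      refine key.trans (hexp _ (by positivity) ?_)
      rw [hA3]
      linarith
    · have h' : ¬ E ω' := fun h' => h (f3.symm ▸ h')
      have e2 : nF E (nuD z X C zd gs) (qh (c := c) (k0 := k0) (k1 := k1) D J w z i j r X C P S ys gs q).hgt ω =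
          (qh (c := c) (k0 := k0) (k1 := k1) D J w z i j r X C P S ys gs q).hgt ω := if_neg h
      have e3 : nF E (nuD z X C zd gs) (qh (c := c) (k0 := k0) (k1 := k1) D J w z i j r X C P S ys gs q).hgt ω' =
          (qh (c := c) (k0 := k0) (k1 := k1) D J w z i j r X C P S ys gs q).hgt ω' := if_neg h'
      have e4 : MF i j r E s Mx ω = (1 : Matrix (Fin c) (Fin c) ℝ) := if_neg h
      rw [e2, e3, e4, inv_one, Matrix.one_mulVec]
      have e5 : ((qh (c := c) (k0 := k0) (k1 := k1) D J w z i j r X C P S ys gs q).flag E).hgt =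
        (qh (c := c) (k0 := k0) (k1 := k1) D J w z i j r X C P S ys gs q).hgt := rfl
      rw [e5, sub_self, abs_zero]
      linarith
  · intro ω ω' hω hω' ev eb et u
    have f1 : cb D J w i j r ω = cb D J w i j r ω' := eb
    have f2 : (tv (c := c) (k0 := k0) (k1 := k1) D J w z i j r X C S ys gs ω, E ω) =
      (tv D J w z i j r X C S ys gs ω', E ω') := et
    have f3 : E ω = E ω' := (Prod.ext_iff.mp f2).2
    have f4 := (Prod.ext_iff.mp (Prod.ext_iff.mp f2).1).2
    have f5 : D.T ω = D.T ω' := (Prod.ext_iff.mp f4).1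
    have f7 : vv (c := c) (k0 := k0) (k1 := k1) D J w z i j r X C P ys gs ω =
      vv D J w z i j r X C P ys gs ω' := ev
    have f8 : yv (k0 := k0) (k1 := k1) D J w z i j r X C P ys ω = yv D J w z i j r X C P ys ω' :=
      (Prod.ext_iff.mp (Prod.ext_iff.mp f7).2).1
    have g9 := (Prod.ext_iff.mp (Prod.ext_iff.mp f7).2).2
    have fm : mv (k0 := k0) (k1 := k1) D J w z i j r X C P ys ω = mv D J w z i j r X C P ys ω' :=
      (Prod.ext_iff.mp g9).1
    have f9 : bev (c := c) D J w z i j r X C P gs ω = bev D J w z i j r X C P gs ω' :=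
      (Prod.ext_iff.mp (Prod.ext_iff.mp g9).2).1
    have f10 : be2v (c := c) D J w z i j r X C P gs ω = be2v D J w z i j r X C P gs ω' :=
      (Prod.ext_iff.mp (Prod.ext_iff.mp g9).2).2
    by_cases h : E ω
    · have h' : E ω' := f3 ▸ h
      have key := H.tr_E hD hc h h' f8 fm f9 f10 (Prod.ext_iff.mp f1).1 f5 u
      have e2 : nF E (nuD z X C zd gs) (qh (c := c) (k0 := k0) (k1 := k1) D J w z i j r X C P S ys gs q).hgt ω =
          nuD z X C zd gs ω := if_pos h
      have e3 : nF E (nuD z X C zd gs) (qh (c := c) (k0 := k0) (k1 := k1) D J w z i j r X C P S ys gs q).hgt ω' =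
          nuD z X C zd gs ω' := if_pos h'
      have e4 : MF i j r E s Mx ω = Mx (bb D i j r ω) (s ω) := if_pos h
      rw [e2, e3, e4]
      refine key.trans (hexp _ (by positivity) ?_)
      rw [hA3]
      linarith
    · have h' : ¬ E ω' := fun h' => h (f3.symm ▸ h')
      have e2 : nF E (nuD z X C zd gs) (qh (c := c) (k0 := k0) (k1 := k1) D J w z i j r X C P S ys gs q).hgt ω =
          (qh (c := c) (k0 := k0) (k1 := k1) D J w z i j r X C P S ys gs q).hgt ω := if_neg h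
      have e3 : nF E (nuD z X C zd gs) (qh (c := c) (k0 := k0) (k1 := k1) D J w z i j r X C P S ys gs q).hgt ω' =
          (qh (c := c) (k0 := k0) (k1 := k1) D J w z i j r X C P S ys gs q).hgt ω' := if_neg h'
      have e4 : MF i j r E s Mx ω = (1 : Matrix (Fin c) (Fin c) ℝ) := if_neg h
      rw [e2, e3, e4, inv_one, Matrix.one_mulVec]
      have e6 : dv ((qh (c := c) (k0 := k0) (k1 := k1) D J w z i j r X C P S ys gs q).hgt ω)
          ((qh (c := c) (k0 := k0) (k1 := k1) D J w z i j r X C P S ys gs q).hgt ω') u =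
          dv (nuv D J w z i j r X C P gs ω) (nuv D J w z i j r X C P gs ω') u :=
        hgt_nuv (Prod.ext_iff.mp f2).1 f7 u
      have e7 : dv (((qh (c := c) (k0 := k0) (k1 := k1) D J w z i j r X C P S ys gs q).flag E).nu ω)
          (((qh (c := c) (k0 := k0) (k1 := k1) D J w z i j r X C P S ys gs q).flag E).nu ω') u =
          dv (nuv D J w z i j r X C P gs ω) (nuv D J w z i j r X C P gs ω') u := rfl
      rw [e6, e7, sub_self, abs_zero]
      linarith
  · have h1 := H.nf_flag (zd := zd) (s := s) n₀ (B := B) hnf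
    rw [← hb] at h1
    refine h1.trans (le_trans ?_ hν)
    have h2 := herr (aW (K5 k0 k1)) w0 (by
      rw [hA3] at a3 ⊢
      have : (0 : ℝ) ≤ 26 + 30 * ((k0 : ℝ) + k1) + 13 * c + 3 * C := by positivity
      linarith)
    have := mul_le_mul_of_nonneg_left h2 (Nat.cast_nonneg (α := ℝ) B)
    linarith

end Pool.P5
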