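import Pool.Agent.H12.P5.Stm
import Pool.Agent.H89.P4.H2f
import Pool.Agent.H89.P4.Hs1

/-!
# P5: units, digits, the height of the picture

`Bas`: the lemmas on the letters which every piece uses.
-/

set_option autoImplicit false

namespace Pool.P5

open Finset Real MvPolynomial
open Pool.Agent.H49.Ent Pool.Agent.H32.Dense Pool.STK Pool.STAT Pool.MIC.Frm Pool.MIC7 Pool.FRM
open Pool.GSD Pool.POT
open Pool.BFL (Pb)
open Pool.P4 (t0 rt pp PthC FraC bb ze zt z0 be cl1 dg dgp Ry cb LLC tq GoodS FrP err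
  dg_near dg_abs dgp_near dgp_abs c_up Ry_pos rt_near)

theorem Rg_pos (z : ℕ) (C : ℝ) : 0 < Rg z C := by
  unfold Rg
  positivity

theorem Rg_eq (z : ℕ) (C : ℝ) :
    Rg z C = 2 * (exp (C * z) * exp (C * z) * exp (C * z)) := by
  unfold Rg
  rw [← Real.exp_add, ← Real.exp_add]
  congr 2
  ring

/-- A coordinate is slow or in the group. -/
theorem sl_or_gr {n : ℕ} {gam : ℕ → ℝ} {l : ℕ} (h1 : 1 ≤ l) (h2 : l ≤ n) :
    sl gam n l ∨ gr gam n l := by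
  rcases le_or_gt (gam n) (gam l) with h | h
  · exact Or.inr ⟨h1, h2, h⟩
  · refine Or.inl ⟨h1, ?_, h⟩
    rcases h2.eq_or_lt with e | e
    · rw [e] at h
      exact absurd h (lt_irrefl _)
    · exact e

/-- Sums over a set of coordinates. -/
theorem sum_pred {k n : ℕ} {p : ℕ → Prop} [DecidablePred p] {ys : Fin k → ℕ}
    (h0 : ∀ a, ys a < n) (h1 : ∀ a, p (ys a)) (h2 : Function.Injective ys)
    (h3 : ∀ l, p l → ∃ a, ys a = l) (f : ℕ → ℝ) :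
    ∑ l ∈ (range n).filter p, f l = ∑ a, f (ys a) := by
  symm
  refine Finset.sum_bij (fun a _ => ys a) ?_ ?_ ?_ ?_
  · intro a _
    rw [Finset.mem_filter, Finset.mem_range]
    exact ⟨h0 a, h1 a⟩
  · intro a _ b _ h
    exact h2 h
  · intro l hl
    obtain ⟨a, ha⟩ := h3 l (Finset.mem_filter.1 hl).2
    exact ⟨a, Finset.mem_univ _, ha⟩
  · intro a _
    rfl

/-- A product of rounded numbers. -/
theorem mul_nearR {A s σ e t τ f a b : ℝ} (hA : 1 ≤ A) (hs : s = A * σ + e)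
    (ht : t = A * τ + f) (he : |e| ≤ a) (hf : |f| ≤ b) (hσ : |σ| ≤ 1) (hτ : |τ| ≤ 1) :
    |s / A * t - A * (σ * τ)| ≤ a + b + a * b := by
  have hA0 : 0 < A := by linarith
  have a0 : 0 ≤ a := (abs_nonneg _).trans he
  have b0 : 0 ≤ b := (abs_nonneg _).trans hf
  have e1 : s / A * t - A * (σ * τ) = σ * f + e * τ + e * f / A := by
    rw [hs, ht]
    field_simp
    ring
  rw [e1]
  have h1 : |σ * f| ≤ b := by
    rw [abs_mul]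
    calc _ ≤ 1 * b := mul_le_mul hσ hf (abs_nonneg _) (by norm_num)
      _ = b := one_mul b
  have h2 : |e * τ| ≤ a := by
    rw [abs_mul]
    calc _ ≤ a * 1 := mul_le_mul he hτ (abs_nonneg _) a0
      _ = a := mul_one a
  have h3 : |e * f / A| ≤ a * b := by
    rw [abs_div, abs_mul, abs_of_pos hA0, div_le_iff₀ hA0]
    calc |e| * |f| ≤ a * b := mul_le_mul he hf (abs_nonneg _) a0
      _ ≤ a * b * A := le_mul_of_one_le_right (mul_nonneg a0 b0) hA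
  calc _ ≤ |σ * f| + |e * τ| + |e * f / A| := abs_add_three _ _ _
    _ ≤ _ := by linarith

theorem sum_near {k : ℕ} {f g : Fin k → ℝ} {e : ℝ} (h : ∀ a, |f a - g a| ≤ e) :
    |∑ a, f a - ∑ a, g a| ≤ e * k := by
  rw [← Finset.sum_sub_distrib]
  calc _ ≤ ∑ a : Fin k, e := (Finset.abs_sum_le_sum_abs _ _).trans
        (Finset.sum_le_sum fun a _ => h a)
    _ = e * k := by
      rw [Finset.sum_const, Finset.card_univ, Fintype.card_fin, nsmul_eq_mul]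
      ring

theorem sum_bd {k : ℕ} {f : Fin k → ℝ} {e : ℝ} (h : ∀ a, |f a| ≤ e) :
    |∑ a, f a| ≤ e * k := by
  have := sum_near (f := f) (g := fun _ => 0) (e := e) (fun a => by
    rw [sub_zero]
    exact h a)
  rwa [Finset.sum_const_zero, sub_zero] at this

/-- The time and its square, rounded. -/
theorem sq_near_b {A t ρ : ℝ} (hA : 1 ≤ A) (hρ : |ρ| ≤ 1) (h : |t - A * ρ| ≤ 1) :
    |t ^ 2 / A - A * ρ ^ 2| ≤ 3 := by
  have := mul_nearR (s := t) (t := t) (σ := ρ) (τ := ρ) (e := t - A * ρ) (f := t - A * ρ) hA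
    (by ring) (by ring) h h hρ hρ
  have e1 : t ^ 2 / A - A * ρ ^ 2 = t / A * t - A * (ρ * ρ) := by ring
  rw [e1]
  linarith

/-- **The height of the picture.** -/
theorem hgt_arith {k0 k1 X : ℕ} {Rg Ry zu bu cu ρ t : ℝ} {S y : Fin (k0 + k1) → ℝ}
    {m : Fin k1 → ℝ} (hRg : 0 < Rg) (hRy : 0 < Ry) (h1 : |zu| ≤ Rg) (h2 : |bu| ≤ Rg)
    (h2' : |cu| ≤ Rg) (h3 : ∀ a, |S a * (2 * Ry)| ≤ Rg) (h4 : ∀ a, |y a| ≤ Ry)
    (h4' : ∀ l, |m l| ≤ Ry) (h5 : |ρ| ≤ 1) (h6 : |t - 2 ^ X * ρ| ≤ 1) :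
    |((dg X (zu / Rg) + ⌊t * ((dg X (bu / Rg) : ℝ) / 2 ^ X) +
        t ^ 2 / 2 ^ X * ((dg X (cu / Rg) : ℝ) / 2 ^ X) -
      ∑ a, (dg X (S a * (2 * Ry) / Rg) : ℝ) / 2 ^ X * dgp X ((y a + Ry) / (2 * Ry)) -
      ∑ l, (dg X (S (Fin.natAdd k0 l) * (2 * Ry) / Rg) : ℝ) / 2 ^ X *
        (t * ((dg X (m l / (2 * Ry)) : ℝ) / 2 ^ X)) +
      ∑ a, (dg X (S a * (2 * Ry) / Rg) : ℝ) / 2⌋ : ℤ) : ℝ) -
      2 ^ X / Rg * (zu + ρ * bu + ρ ^ 2 * cu - ∑ a, S a * y a -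
        ∑ l, S (Fin.natAdd k0 l) * (ρ * m l))| ≤ 12 + 11 * ((k0 : ℝ) + k1) := by
  have hA : (1 : ℝ) ≤ 2 ^ X := one_le_pow₀ (by norm_num)
  have a1 : |(dg X (zu / Rg) : ℝ) - 2 ^ X * (zu / Rg)| ≤ 1 := dg_near (by
    rw [abs_div, abs_of_pos hRg, div_le_one hRg]
    exact h1)
  have b0 : |bu / Rg| ≤ 1 := by
    rw [abs_div, abs_of_pos hRg, div_le_one hRg]
    exact h2
  have c0 : |cu / Rg| ≤ 1 := by
    rw [abs_div, abs_of_pos hRg, div_le_one hRg]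
    exact h2'
  have r2 : |ρ ^ 2| ≤ 1 := by
    rw [abs_pow]
    exact pow_le_one₀ (abs_nonneg _) h5
  have a2 : |(dg X (bu / Rg) : ℝ) / 2 ^ X * t - 2 ^ X * (bu / Rg * ρ)| ≤ 3 := by
    have := mul_nearR hA (s := dg X (bu / Rg)) (t := t) (σ := bu / Rg) (τ := ρ)
      (e := dg X (bu / Rg) - 2 ^ X * (bu / Rg)) (f := t - 2 ^ X * ρ) (by ring)
      (by ring) (dg_near b0) h6 b0 h5
    linarith
  have a2' : |(dg X (cu / Rg) : ℝ) / 2 ^ X * (t ^ 2 / 2 ^ X) - 2 ^ X * (cu / Rg * ρ ^ 2)| ≤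
      7 := by
    have := mul_nearR hA (s := dg X (cu / Rg)) (t := t ^ 2 / 2 ^ X) (σ := cu / Rg) (τ := ρ ^ 2)
      (e := dg X (cu / Rg) - 2 ^ X * (cu / Rg)) (f := t ^ 2 / 2 ^ X - 2 ^ X * ρ ^ 2) (by ring)
      (by ring) (dg_near c0) (sq_near_b hA h5 h6) c0 r2
    linarith
  have s0 : ∀ a, |S a * (2 * Ry) / Rg| ≤ 1 := by
    intro a
    rw [abs_div, abs_of_pos hRg, div_le_one hRg]
    exact h3 a
  have x0 : ∀ a, 0 ≤ (y a + Ry) / (2 * Ry) ∧ (y a + Ry) / (2 * Ry) ≤ 1 := by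
    intro a
    have := abs_le.1 (h4 a)
    constructor
    · exact div_nonneg (by linarith) (by linarith)
    · rw [div_le_one (by linarith)]
      linarith
  have m0 : ∀ l, |m l / (2 * Ry)| ≤ 1 := by
    intro l
    have := h4' l
    rw [abs_div, abs_of_pos (by positivity : (0 : ℝ) < 2 * Ry), div_le_one (by positivity)]
    linarith
  have a3 : ∀ a, |(dg X (S a * (2 * Ry) / Rg) : ℝ) / 2 ^ X * dgp X ((y a + Ry) / (2 * Ry)) -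
      2 ^ X * (S a * (2 * Ry) / Rg * ((y a + Ry) / (2 * Ry)))| ≤ 3 := by
    intro a
    have := mul_nearR hA (s := dg X (S a * (2 * Ry) / Rg)) (t := dgp X ((y a + Ry) / (2 * Ry)))
      (σ := S a * (2 * Ry) / Rg) (τ := (y a + Ry) / (2 * Ry))
      (e := dg X (S a * (2 * Ry) / Rg) - 2 ^ X * (S a * (2 * Ry) / Rg))
      (f := dgp X ((y a + Ry) / (2 * Ry)) - 2 ^ X * ((y a + Ry) / (2 * Ry))) (by ring)
      (by ring) (dg_near (s0 a)) (dgp_near (x0 a).1 (x0 a).2) (s0 a) (by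
        rw [abs_le]
        constructor <;> linarith [(x0 a).1, (x0 a).2])
    linarith
  have a4 : ∀ a, |(dg X (S a * (2 * Ry) / Rg) : ℝ) / 2 - 2 ^ X * (S a * (2 * Ry) / Rg) / 2| ≤
      1 / 2 := by
    intro a
    have := dg_near (X := X) (s0 a)
    rw [← sub_div, abs_div, abs_of_pos (by norm_num : (0 : ℝ) < 2)]
    linarith
  have a5 : ∀ l, |(dg X (S (Fin.natAdd k0 l) * (2 * Ry) / Rg) : ℝ) / 2 ^ X *
      (t * ((dg X (m l / (2 * Ry)) : ℝ) / 2 ^ X)) -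
      2 ^ X * (S (Fin.natAdd k0 l) * (2 * Ry) / Rg * (m l / (2 * Ry) * ρ))| ≤ 7 := by
    intro l
    have g1 := mul_nearR hA (s := dg X (m l / (2 * Ry))) (t := t) (σ := m l / (2 * Ry)) (τ := ρ)
      (e := dg X (m l / (2 * Ry)) - 2 ^ X * (m l / (2 * Ry))) (f := t - 2 ^ X * ρ) (by ring)
      (by ring) (dg_near (m0 l)) h6 (m0 l) h5
    have g2 : |t * ((dg X (m l / (2 * Ry)) : ℝ) / 2 ^ X) - 2 ^ X * (m l / (2 * Ry) * ρ)| ≤ 3 := by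
      rw [mul_comm t]
      linarith
    have g3 : |m l / (2 * Ry) * ρ| ≤ 1 := by
      rw [abs_mul]
      exact mul_le_one₀ (m0 l) (abs_nonneg _) h5
    have := mul_nearR hA (s := dg X (S (Fin.natAdd k0 l) * (2 * Ry) / Rg))
      (t := t * ((dg X (m l / (2 * Ry)) : ℝ) / 2 ^ X))
      (σ := S (Fin.natAdd k0 l) * (2 * Ry) / Rg) (τ := m l / (2 * Ry) * ρ)
      (e := dg X (S (Fin.natAdd k0 l) * (2 * Ry) / Rg) -
        2 ^ X * (S (Fin.natAdd k0 l) * (2 * Ry) / Rg))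
      (f := t * ((dg X (m l / (2 * Ry)) : ℝ) / 2 ^ X) - 2 ^ X * (m l / (2 * Ry) * ρ)) (by ring)
      (by ring) (dg_near (s0 _)) g2 (s0 _) g3
    linarith
  have c3 := sum_near a3
  have c4 := sum_near a4
  have c5 := sum_near a5
  obtain ⟨P, hP⟩ : ∃ P : ℝ, P = ∑ a, (dg X (S a * (2 * Ry) / Rg) : ℝ) / 2 ^ X *
    dgp X ((y a + Ry) / (2 * Ry)) := ⟨_, rfl⟩
  obtain ⟨Q, hQ⟩ : ∃ Q : ℝ, Q = ∑ a, (dg X (S a * (2 * Ry) / Rg) : ℝ) / 2 := ⟨_, rfl⟩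
  obtain ⟨W, hW⟩ : ∃ W : ℝ, W = ∑ l, (dg X (S (Fin.natAdd k0 l) * (2 * Ry) / Rg) : ℝ) / 2 ^ X *
        (t * ((dg X (m l / (2 * Ry)) : ℝ) / 2 ^ X)) := ⟨_, rfl⟩
  rw [← hP] at c3
  rw [← hQ] at c4
  rw [← hW] at c5
  have d1 : ∑ a, 2 ^ X * (S a * (2 * Ry) / Rg * ((y a + Ry) / (2 * Ry))) -
      ∑ a, 2 ^ X * (S a * (2 * Ry) / Rg) / 2 = 2 ^ X / Rg * ∑ a, S a * y a := by
    rw [← Finset.sum_sub_distrib, Finset.mul_sum]
    refine Finset.sum_congr rfl fun a _ => ?_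
    have : (2 * Ry) ≠ 0 := by positivity
    field_simp
    ring
  have d2 : ∑ l, 2 ^ X * (S (Fin.natAdd k0 l) * (2 * Ry) / Rg * (m l / (2 * Ry) * ρ)) =
      2 ^ X / Rg * ∑ l, S (Fin.natAdd k0 l) * (ρ * m l) := by
    rw [Finset.mul_sum]
    refine Finset.sum_congr rfl fun l _ => ?_
    have : (2 * Ry) ≠ 0 := by positivity
    field_simp
  rw [← hP, ← hQ, ← hW]
  obtain ⟨F, hF⟩ : ∃ F : ℝ, F = t * ((dg X (bu / Rg) : ℝ) / 2 ^ X) +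
        t ^ 2 / 2 ^ X * ((dg X (cu / Rg) : ℝ) / 2 ^ X) - P - W + Q := ⟨_, rfl⟩
  rw [← hF]
  have f1 := Int.floor_le F
  have f2 := Int.lt_floor_add_one F
  have g0 : 2 ^ X / Rg * (zu + ρ * bu + ρ ^ 2 * cu - ∑ a, S a * y a -
        ∑ l, S (Fin.natAdd k0 l) * (ρ * m l)) =
      2 ^ X * (zu / Rg) + 2 ^ X * (bu / Rg * ρ) + 2 ^ X * (cu / Rg * ρ ^ 2) -
        2 ^ X / Rg * ∑ a, S a * y a - 2 ^ X / Rg * ∑ l, S (Fin.natAdd k0 l) * (ρ * m l) := by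
    field_simp
  have g1 : t * ((dg X (bu / Rg) : ℝ) / 2 ^ X) = (dg X (bu / Rg) : ℝ) / 2 ^ X * t := by
    ring
  have g2 : t ^ 2 / 2 ^ X * ((dg X (cu / Rg) : ℝ) / 2 ^ X) =
      (dg X (cu / Rg) : ℝ) / 2 ^ X * (t ^ 2 / 2 ^ X) := by
    ring
  rw [g1, g2] at hF
  rw [g0]
  push_cast at c3 c4 ⊢
  have k00 : (0 : ℝ) ≤ k0 := Nat.cast_nonneg k0
  have k10 : (0 : ℝ) ≤ k1 := Nat.cast_nonneg k1
  rw [abs_le] at a1 a2 a2' c3 c4 c5 ⊢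
  constructor <;> linarith [a1.1, a1.2, a2.1, a2.2, a2'.1, a2'.2, c3.1, c3.2, c4.1, c4.2,
    c5.1, c5.2]

/-- The range of the height. -/
theorem hgt_range {k0 k1 X : ℕ} {a b b' : ℤ} {s y : Fin (k0 + k1) → ℤ} {m : Fin k1 → ℤ} {t : ℝ}
    (ha : |a| ≤ 2 ^ X) (hb : |b| ≤ 2 ^ X) (hb' : |b'| ≤ 2 ^ X) (hs : ∀ i, |s i| ≤ 2 ^ X)
    (hy : ∀ i, |y i| ≤ 2 ^ X) (hm : ∀ i, |m i| ≤ 2 ^ X) (ht : |t| ≤ 2 ^ X) :
    |a + ⌊t * ((b : ℝ) / 2 ^ X) + t ^ 2 / 2 ^ X * ((b' : ℝ) / 2 ^ X) -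
      ∑ i, (s i : ℝ) / 2 ^ X * y i - ∑ l, (s (Fin.natAdd k0 l) : ℝ) / 2 ^ X *
        (t * ((m l : ℝ) / 2 ^ X)) + ∑ i, (s i : ℝ) / 2⌋| ≤ (4 + 3 * ((k0 : ℤ) + k1)) * 2 ^ X := by
  have hA : (1 : ℝ) ≤ 2 ^ X := one_le_pow₀ (by norm_num)
  have hA0 : (0 : ℝ) < 2 ^ X := by positivity
  have rl : ∀ {x : ℤ}, |x| ≤ 2 ^ X → |(x : ℝ)| ≤ 2 ^ X := fun {x} h => by exact_mod_cast h
  have r1 : ∀ {x : ℤ}, |x| ≤ 2 ^ X → |(x : ℝ) / 2 ^ X| ≤ 1 := fun {x} h => by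
    rw [abs_div, abs_of_pos hA0, div_le_one hA0]
    exact rl h
  have ha' := rl ha
  have c1 : |t * ((b : ℝ) / 2 ^ X)| ≤ 2 ^ X := by
    rw [abs_mul]
    calc |t| * |(b : ℝ) / 2 ^ X| ≤ 2 ^ X * 1 := mul_le_mul ht (r1 hb) (abs_nonneg _) hA0.le
      _ = _ := mul_one _
  have t2 : |t ^ 2 / 2 ^ X| ≤ 2 ^ X := by
    rw [abs_div, abs_of_pos hA0, div_le_iff₀ hA0, abs_pow, sq]
    exact mul_le_mul ht ht (abs_nonneg _) hA0.le
  have c1' : |t ^ 2 / 2 ^ X * ((b' : ℝ) / 2 ^ X)| ≤ 2 ^ X := by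
    rw [abs_mul]
    calc _ ≤ (2 : ℝ) ^ X * 1 := mul_le_mul t2 (r1 hb') (abs_nonneg _) hA0.le
      _ = _ := mul_one _
  have c2 : |∑ i, (s i : ℝ) / 2 ^ X * y i| ≤ 2 ^ X * ((k0 + k1 : ℕ) : ℝ) := by
    refine sum_bd fun i => ?_
    rw [abs_mul]
    calc _ ≤ 1 * (2 : ℝ) ^ X := mul_le_mul (r1 (hs i)) (rl (hy i)) (abs_nonneg _) (by norm_num)
      _ = _ := one_mul _
  have c2' : |∑ l, (s (Fin.natAdd k0 l) : ℝ) / 2 ^ X * (t * ((m l : ℝ) / 2 ^ X))| ≤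
      2 ^ X * (k1 : ℝ) := by
    refine sum_bd fun l => ?_
    have h1 : |t * ((m l : ℝ) / 2 ^ X)| ≤ 2 ^ X := by
      rw [abs_mul]
      calc |t| * |(m l : ℝ) / 2 ^ X| ≤ 2 ^ X * 1 :=
            mul_le_mul ht (r1 (hm l)) (abs_nonneg _) hA0.le
        _ = _ := mul_one _
    rw [abs_mul]
    calc _ ≤ 1 * (2 : ℝ) ^ X := mul_le_mul (r1 (hs _)) h1 (abs_nonneg _) (by norm_num)
      _ = _ := one_mul _
  have c3 : |∑ i, (s i : ℝ) / 2| ≤ 2 ^ X / 2 * ((k0 + k1 : ℕ) : ℝ) := by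
    refine sum_bd fun i => ?_
    rw [abs_div, abs_of_pos (by norm_num : (0 : ℝ) < 2)]
    have := rl (hs i)
    linarith
  obtain ⟨F, hF⟩ : ∃ F : ℝ, F = t * ((b : ℝ) / 2 ^ X) + t ^ 2 / 2 ^ X * ((b' : ℝ) / 2 ^ X) -
      ∑ i, (s i : ℝ) / 2 ^ X * y i - ∑ l, (s (Fin.natAdd k0 l) : ℝ) / 2 ^ X *
        (t * ((m l : ℝ) / 2 ^ X)) + ∑ i, (s i : ℝ) / 2 := ⟨_, rfl⟩
  rw [← hF]
  have f1 := Int.floor_le F
  have f2 := Int.lt_floor_add_one F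
  have k00 : (0 : ℝ) ≤ (k0 : ℝ) * 2 ^ X := by positivity
  have k10 : (0 : ℝ) ≤ (k1 : ℝ) * 2 ^ X := by positivity
  have key : ((|a + ⌊F⌋| : ℤ) : ℝ) ≤ (((4 + 3 * ((k0 : ℤ) + k1)) * 2 ^ X : ℤ) : ℝ) := by
    push_cast at c2 c3 ⊢
    rw [abs_le] at ha' c1 c1' c2 c2' c3 ⊢
    constructor <;> linarith [ha'.1, ha'.2, c1.1, c1.2, c1'.1, c1'.2, c2.1, c2.2, c2'.1, c2'.2,
      c3.1, c3.2]
  exact_mod_cast key

section

variable {D : NDat2} {n K K' J a₀ w₀ z M w i j r r2 r' r'' y a X : ℕ} {lam gam : ℕ → ℝ}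
  {κ C₁ C : ℝ} {q : D.Ω → ℝ} {E : D.Ω → Prop} {P : D.Γ × D.Γ → ℕ → PN} {S : Slo D}
  {c k0 k1 : ℕ} {ys : Fin (k0 + k1) → ℕ} {gs : Fin c → ℕ}
  (H : Hyp D n K K' J a₀ w₀ z M w i j r r2 r' r'' y a X lam gam κ C₁ C q E P S ys gs)

include H

theorem Hyp.e1 : 1 ≤ exp (C * z) := by
  have h1 : (1 : ℝ) ≤ z := by exact_mod_cast H.z1
  have h2 := H.Cg
  exact Real.one_le_exp (by nlinarith)

theorem Hyp.tau : 2 ^ X * (exp (C * z) / 2 ^ (y * z)) ≤ 1 := by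
  have h0 : (0 : ℝ) < 2 ^ (y * z) := by positivity
  rw [← mul_div_assoc, div_le_one h0, mul_comm]
  exact H.yX

theorem Hyp.wX : w + X ≤ J := by
  obtain ⟨x, hx, hx'⟩ := H.Xz
  have h1 := H.ok.thin
  have h2 := H.ok.top
  have h3 := H.w2
  have h4 := H.j2
  have h5 : (j + 1) * z ≤ (M + 1) * z := Nat.mul_le_mul_right _ (by omega)
  have h6 : x * z ≤ (M + 1) * z := Nat.mul_le_mul_right _ (by omega)
  rw [hx]
  omega

theorem Hyp.exp_le_Rg : exp (C * z) ≤ Rg z C := by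
  have h1 := H.e1
  rw [Rg_eq]
  have h2 : 1 ≤ exp (C * z) * exp (C * z) := one_le_mul_of_one_le_of_one_le h1 h1
  nlinarith [Real.exp_pos (C * z)]

theorem Hyp.one_Rg : 1 ≤ Rg z C := H.e1.trans H.exp_le_Rg

theorem Hyp.one_Ry : 1 ≤ Ry z C := H.e1

theorem Hyp.ys_n (b : Fin (k0 + k1)) : 1 ≤ ys b ∧ ys b ≤ n :=
  ⟨(H.ys_sl b).1, (H.ys_sl b).2.1.le⟩

theorem Hyp.gs_n (u : Fin c) : 1 ≤ gs u ∧ gs u ≤ n :=
  ⟨(H.gs_gr u).1, (H.gs_gr u).2.1⟩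

theorem Hyp.b0 : 0 ≤ Pb q (fun ω => ¬ E ω) := Pool.MIC.Pb_nonneg H.ok.isLaw.nonneg _

theorem Hyp.xb : 0 ≤ (z : ℝ) + X * Pb q (fun ω => ¬ E ω) := by
  have := H.b0
  positivity

/-- A slope in the units of the digits. -/
theorem Hyp.S_le {s : ℝ} (hs : |s| ≤ exp (C * z)) : |s * (2 * Ry z C)| ≤ Rg z C := by
  have e1 := H.e1
  have hRy := Ry_pos z C
  rw [Rg_eq, abs_mul, abs_of_pos (by positivity : (0 : ℝ) < 2 * Ry z C)]
  unfold Ry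
  have := Real.exp_pos (C * z)
  have h2 : 0 ≤ exp (C * z) * exp (C * z) := by positivity
  nlinarith [mul_le_mul_of_nonneg_right hs this.le, mul_le_mul_of_nonneg_left e1 h2]

theorem Hyp.S_le1 {s : ℝ} (hs : |s| ≤ exp (C * z)) : |s * (2 * Ry z C) / Rg z C| ≤ 1 := by
  have hR := Rg_pos z C
  rw [abs_div, abs_of_pos hR, div_le_one hR]
  exact H.S_le hs

theorem Hyp.Ry_Rg : 2 * Ry z C / Rg z C ≤ 1 := by
  have := H.S_le1 (s := 1) (by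
    rw [abs_one]
    exact H.e1)
  rw [one_mul] at this
  exact (le_abs_self _).trans this

/-- The closed contexts of a deeper radius. -/
theorem Hyp.up {i' : ℕ} (hi : i ≤ i') (hM : i' + r'' < M) {ω ω' : D.Ω} (hω : 0 < q ω)
    (hω' : 0 < q ω') (e : (D.c (i - 1) (j - r) ω, (D.c i' j ω, D.T ω)) =
      (D.c (i - 1) (j - r) ω', (D.c i' j ω', D.T ω'))) :
    bb D i j r ω = bb D i j r ω' ∧ D.c i' j ω = D.c i' j ω' ∧ D.T ω = D.T ω' := by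
  have h1 := (Prod.ext_iff.mp e).1
  have h2 := (Prod.ext_iff.mp e).2
  have h3 := (Prod.ext_iff.mp h2).1
  have h4 := (Prod.ext_iff.mp h2).2
  have j2 := H.j2
  have h5 : D.c i j ω = D.c i j ω' := by
    have := c_up H.ok (j := j) (by omega) i (i' - i) (by omega)
    rw [show i + (i' - i) = i' by omega] at this
    exact this ω ω' hω hω' h3
  exact ⟨Prod.ext h5 h1, h3, h4⟩

open Classical in
/-- Sums over the slow coordinates. -/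
theorem Hyp.sum_sl (f : ℕ → ℝ) : ∑ l ∈ (range n).filter (sl gam n), f l = ∑ b, f (ys b) :=
  sum_pred (fun b => (H.ys_sl b).2.1) H.ys_sl H.ys_in (fun _ hl => H.ys_on hl) f

open Classical in
/-- Sums over the constant slow coordinates. -/
theorem Hyp.sum_sl0 (f : ℕ → ℝ) :
    ∑ l ∈ (range n).filter (sl0 gam n), f l = ∑ b : Fin k0, f (ys (Fin.castAdd k1 b)) :=
  sum_pred (ys := fun b : Fin k0 => ys (Fin.castAdd k1 b)) (fun b => (H.ys0 b).2.1) H.ys0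
    (fun _ _ h => Fin.castAdd_injective _ _ (H.ys_in h)) H.ys_on0 f

open Classical in
/-- Sums over the affine slow coordinates. -/
theorem Hyp.sum_sl1 (f : ℕ → ℝ) :
    ∑ l ∈ (range n).filter (sl1 gam n), f l = ∑ b : Fin k1, f (ys (Fin.natAdd k0 b)) :=
  sum_pred (ys := fun b : Fin k1 => ys (Fin.natAdd k0 b)) (fun b => (H.ys1 b).2.1) H.ys1
    (fun _ _ h => Fin.natAdd_injective _ _ (H.ys_in h)) H.ys_on1 f

end

end Pool.P5
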