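import Pool.Agent.H25.P5.Bas

/-!
# P5: the height over the own sheet, the slopes, the data of the line: two samples
-/

set_option autoImplicit false

namespace Pool.P5

open Finset Real MvPolynomial
open Pool.Agent.H49.Ent Pool.Agent.H32.Dense Pool.STK Pool.STAT Pool.MIC.Frm Pool.MIC7 Pool.FRM
open Pool.GSD Pool.POT
open Pool.BFL (Pb)
open Pool.P4 (t0 rt pp PthC FraC bb ze zt z0 be cl1 dg dgp Ry cb LLC tq GoodS FrP err
  dg_near dg_abs dg_lip dgp_lip dgp_near dgp_abs c_up c_up1 Ry_pos rt_near floor_near aC aC_nonneg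
  aE aE_nonneg few_z few_exp0 sides MI_inner le_expz)

/-! ### The bundles -/

section

variable {c k0 k1 : ℕ} (D : NDat2) (J w z i j r X : ℕ) (C : ℝ) (P : D.Γ × D.Γ → ℕ → PN)
  (S : Slo D) (ys : Fin (k0 + k1) → ℕ) (gs : Fin c → ℕ)

/-- The digits of the slopes. -/
noncomputable def s3 (ω : D.Ω) : (Fin c → Fin (k0 + k1) → ℤ) ×
    ((Fin k1 → Fin k0 → ℤ) × (Fin c → Fin k0 → ℤ)) :=
  (Sv D z X C S ys gs ω, (Elv D X S ys ω, Evv D w z X C S ys gs ω))

/-- The digits of the line, without the heights. -/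
noncomputable def v4 (ω : D.Ω) : (Fin (k0 + k1) → ℤ) × ((Fin k1 → ℤ) ×
    ((Fin c → ℤ) × (Fin c → ℤ))) :=
  (yv D J w z i j r X C P ys ω, (mv D J w z i j r X C P ys ω,
    (bev D J w z i j r X C P gs ω, be2v D J w z i j r X C P gs ω)))

theorem tv_eq (ω : D.Ω) : tv D J w z i j r X C S ys gs ω =
    (cb D J w i j r ω, (D.T ω, s3 D w z X C S ys gs ω)) := rfl

theorem vv_eq (ω : D.Ω) : vv D J w z i j r X C P ys gs ω =
    (cb D J w i j r ω, v4 D J w z i j r X C P ys gs ω) := rfl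

end

/-- The constants. -/
noncomputable def aS (c k0 k1 : ℕ) (C : ℝ) : ℝ :=
  c * aC (k0 + k1) 2 1 + (k1 * aE k0 (C + 3) + c * aC k0 2 1)

noncomputable def aV (c k0 k1 : ℕ) : ℝ :=
  aC (k0 + k1) 2 1 + (aC k1 2 1 + (aC c 2 1 + aC c 2 1))

noncomputable def aH (c k0 k1 : ℕ) : ℝ :=
  aC c (27 + 24 * (k0 + k1)) (4 + 3 * (k0 + k1))

theorem aS_nonneg (c k0 k1 : ℕ) {C : ℝ} (hC : 0 ≤ C) : 0 ≤ aS c k0 k1 C := by
  unfold aS
  have := aC_nonneg (k0 + k1) 2 1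
  have := aC_nonneg k0 2 1
  have := aE_nonneg k0 (show 0 ≤ C + 3 by linarith)
  positivity

theorem aV_nonneg (c k0 k1 : ℕ) : 0 ≤ aV c k0 k1 := by
  unfold aV
  have := aC_nonneg (k0 + k1) 2 1
  have := aC_nonneg k1 2 1
  have := aC_nonneg c 2 1
  positivity

theorem aH_nonneg (c k0 k1 : ℕ) : 0 ≤ aH c k0 k1 := aC_nonneg _ _ _

theorem scale_abs {f x y e e' : ℝ} (hf : 0 < f) (h : |x - y| ≤ e) (h' : f * e ≤ e') :
    |f * x - f * y| ≤ e' := by
  rw [← mul_sub, abs_mul, abs_of_pos hf]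
  exact (mul_le_mul_of_nonneg_left h hf.le).trans h'

/-- The relative time has `X` digits. -/
theorem tq_lt {J w X T : ℕ} (h : w + X ≤ J) : tq J w X T < 2 ^ X := by
  unfold tq
  rw [Nat.div_lt_iff_lt_mul (by positivity), ← pow_add, show X + (J - w - X) = J - w by omega]
  exact Nat.mod_lt _ (by positivity)

section

variable {D : NDat2} {n K K' J a₀ w₀ z M w i j r r2 r' r'' y a X : ℕ} {lam gam : ℕ → ℝ}
  {κ C₁ C : ℝ} {q : D.Ω → ℝ} {E : D.Ω → Prop} {P : D.Γ × D.Γ → ℕ → PN} {S : Slo D}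
  {c k0 k1 : ℕ} {ys : Fin (k0 + k1) → ℕ} {gs : Fin c → ℕ}
  (H : Hyp D n K K' J a₀ w₀ z M w i j r r2 r' r'' y a X lam gam κ C₁ C q E P S ys gs)

include H

theorem Hyp.C0 : 0 ≤ C := by linarith [H.Cg]

theorem Hyp.bS {ω : D.Ω} (hω : 0 < q ω) (hE : E ω) (u k : ℕ) : |S.S ω u k| ≤ exp (C * z) := by
  exact H.geo.bS ω u k

theorem Hyp.bEl (ω : D.Ω) (u k : ℕ) : |S.El ω u k| ≤ exp (C * z) := H.geo.bEl ω u k

theorem Hyp.nn_eq (ω : D.Ω) (u : Fin c) : nn D n i j r gam P S.S ω (gs u) =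
    ze D i j r P ω (gs u) - ∑ b, S.S ω (gs u) (ys b) * ze D i j r P ω (ys b) := by
  unfold nn
  rw [H.sum_sl (fun l => S.S ω (gs u) l * ze D i j r P ω l)]

/-- **The height of the picture is the height over the own sheet.** -/
theorem Hyp.hgt_nn {ω : D.Ω} (hω : 0 < q ω) (hE : E ω) (u : Fin c) :
    |((qh (c := c) (k0 := k0) (k1 := k1) D J w z i j r X C P S ys gs q).hgt ω u : ℝ) -
      2 ^ X / Rg z C * nn D n i j r gam P S.S ω (gs u)| ≤ 13 + 12 * ((k0 : ℝ) + k1) := by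
  obtain ⟨τ, hτ⟩ : ∃ τ, τ = exp (C * z) / 2 ^ (y * z) := ⟨_, rfl⟩
  have hg := H.geo
  have e1 := H.e1
  have hR := Rg_pos z C
  have hRy := Ry_pos z C
  have hRe := H.exp_le_Rg
  have k00 : (0 : ℝ) ≤ k0 := Nat.cast_nonneg k0
  have k10 : (0 : ℝ) ≤ k1 := Nat.cast_nonneg k1
  have hτ0 : 0 ≤ τ := by
    rw [hτ]
    positivity
  obtain ⟨hr1, hr2⟩ := rt_near (D := D) (J := J) (w := w) (X := X) (ω := ω) (H.ok.X_zero ω) H.wX
  have bt := fun l h1 h2 => hg.bt ω hω hE l h1 h2 w H.w1 H.w2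
  have hgn := H.gs_n u
  have main := hgt_arith (k0 := k0) (k1 := k1) (X := X) (Rg := Rg z C) (Ry := Ry z C)
    (zu := z0 D J w i j r P ω (gs u)) (bu := b1 D J w i j r P ω (gs u))
    (cu := b2 D J w i j r P ω (gs u)) (ρ := rt D J w ω) (t := (tq J w X (D.T ω) : ℝ))
    (S := fun b => S.S ω (gs u) (ys b)) (y := fun b => z0 D J w i j r P ω (ys b))
    (m := fun l => b1 D J w i j r P ω (ys (Fin.natAdd k0 l))) hR hRy
    ((bt _ hgn.1 hgn.2).1.trans hRe) ((bt _ hgn.1 hgn.2).2.1.trans hRe)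
    ((bt _ hgn.1 hgn.2).2.2.trans hRe) (fun b => H.S_le (H.bS hω hE (gs u) (ys b)))
    (fun b => (bt _ (H.ys_n b).1 (H.ys_n b).2).1)
    (fun l => (bt _ (H.ys_n _).1 (H.ys_n _).2).2.1) hr1 hr2
  have eh : ((qh (c := c) (k0 := k0) (k1 := k1) D J w z i j r X C P S ys gs q).hgt ω u : ℤ) =
      dg X (z0 D J w i j r P ω (gs u) / Rg z C) +
      ⌊(tq J w X (D.T ω) : ℝ) * ((dg X (b1 D J w i j r P ω (gs u) / Rg z C) : ℝ) / 2 ^ X) +
        (tq J w X (D.T ω) : ℝ) ^ 2 / 2 ^ X *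
          ((dg X (b2 D J w i j r P ω (gs u) / Rg z C) : ℝ) / 2 ^ X) -
        ∑ b, (dg X (S.S ω (gs u) (ys b) * (2 * Ry z C) / Rg z C) : ℝ) / 2 ^ X *
          dgp X ((z0 D J w i j r P ω (ys b) + Ry z C) / (2 * Ry z C)) -
        ∑ l, (dg X (S.S ω (gs u) (ys (Fin.natAdd k0 l)) * (2 * Ry z C) / Rg z C) : ℝ) / 2 ^ X *
          ((tq J w X (D.T ω) : ℝ) *
            ((dg X (b1 D J w i j r P ω (ys (Fin.natAdd k0 l)) / (2 * Ry z C)) : ℝ) / 2 ^ X)) +
        ∑ b, (dg X (S.S ω (gs u) (ys b) * (2 * Ry z C) / Rg z C) : ℝ) / 2⌋ := rfl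
  rw [eh]
  have hgr := hg.grp ω hω hE (gs u) (H.gs_gr u) w H.w1 H.w2
  rw [← hτ] at hgr
  have hs0 : ∀ b : Fin k0, |S.S ω (gs u) (ys (Fin.castAdd k1 b)) *
      ze D i j r P ω (ys (Fin.castAdd k1 b)) - S.S ω (gs u) (ys (Fin.castAdd k1 b)) *
      z0 D J w i j r P ω (ys (Fin.castAdd k1 b))| ≤ exp (C * z) * τ := by
    intro b
    rw [← mul_sub, abs_mul]
    refine mul_le_mul (H.bS hω hE _ _) ?_ (abs_nonneg _) (Real.exp_pos _).le
    rw [hτ]
    exact (hg.slow0 ω hω hE _ (H.ys0 b) w H.w1 H.w2).1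
  have hs1 : ∀ l : Fin k1, |S.S ω (gs u) (ys (Fin.natAdd k0 l)) *
      ze D i j r P ω (ys (Fin.natAdd k0 l)) - (S.S ω (gs u) (ys (Fin.natAdd k0 l)) *
      z0 D J w i j r P ω (ys (Fin.natAdd k0 l)) + S.S ω (gs u) (ys (Fin.natAdd k0 l)) *
      (rt D J w ω * b1 D J w i j r P ω (ys (Fin.natAdd k0 l))))| ≤ exp (C * z) * τ := by
    intro l
    rw [← mul_add, ← mul_sub, abs_mul]
    refine mul_le_mul (H.bS hω hE _ _) ?_ (abs_nonneg _) (Real.exp_pos _).le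
    rw [hτ]
    exact (hg.slow1 ω hω hE _ (H.ys1 l) w H.w1 H.w2).1
  have hsum0 := sum_near hs0
  have hsum1 := sum_near hs1
  rw [Finset.sum_add_distrib] at hsum1
  have enn := H.nn_eq ω u
  rw [Fin.sum_univ_add] at enn
  have hd : |nn D n i j r gam P S.S ω (gs u) - (z0 D J w i j r P ω (gs u) +
      rt D J w ω * b1 D J w i j r P ω (gs u) + rt D J w ω ^ 2 * b2 D J w i j r P ω (gs u) -
      ∑ b, S.S ω (gs u) (ys b) * z0 D J w i j r P ω (ys b) -
      ∑ l, S.S ω (gs u) (ys (Fin.natAdd k0 l)) *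
        (rt D J w ω * b1 D J w i j r P ω (ys (Fin.natAdd k0 l))))| ≤
      (1 + ((k0 : ℝ) + k1)) * (exp (C * z) * τ) := by
    rw [enn, Fin.sum_univ_add (fun b => S.S ω (gs u) (ys b) * z0 D J w i j r P ω (ys b))]
    have h1 : τ ≤ exp (C * z) * τ := by nlinarith
    rw [abs_le] at hgr hsum0 hsum1 ⊢
    constructor <;> nlinarith [hgr.1, hgr.2, hsum0.1, hsum0.2, hsum1.1, hsum1.2]
  have hs : 2 ^ X / Rg z C * ((1 + ((k0 : ℝ) + k1)) * (exp (C * z) * τ)) ≤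
      1 + ((k0 : ℝ) + k1) := by
    have h1 := H.tau
    rw [← hτ] at h1
    have h2 : exp (C * z) / Rg z C ≤ 1 := by
      rw [div_le_one hR]
      exact hRe
    have h3 : 2 ^ X / Rg z C * ((1 + ((k0 : ℝ) + k1)) * (exp (C * z) * τ)) =
        (1 + ((k0 : ℝ) + k1)) * ((2 ^ X * τ) * (exp (C * z) / Rg z C)) := by
      field_simp
    rw [h3]
    have h4 : (2 ^ X * τ) * (exp (C * z) / Rg z C) ≤ 1 :=
      mul_le_one₀ h1 (by positivity) h2
    nlinarith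
  have hp : 0 < 2 ^ X / Rg z C := by positivity
  have hd' := scale_abs hp hd hs
  rw [abs_le] at main hd' ⊢
  constructor <;> linarith [main.1, main.2, hd'.1, hd'.2]

/-- The height, two samples with the same visible label at `R`. -/
theorem Hyp.hgt_two {ω ω' : D.Ω} (hω : 0 < q ω) (hω' : 0 < q ω') (hE : E ω) (hE' : E ω')
    (hb : bb D i j r ω = bb D i j r ω') (hT : D.T ω = D.T ω')
    (hs : D.s (i - r') (j + r) ω = D.s (i - r') (j + r) ω') (u : Fin c) :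
    |(qh (c := c) (k0 := k0) (k1 := k1) D J w z i j r X C P S ys gs q).hgt ω u -
      (qh (c := c) (k0 := k0) (k1 := k1) D J w z i j r X C P S ys gs q).hgt ω' u| ≤
        ((27 + 24 * (k0 + k1) : ℕ) : ℤ) := by
  have h1 := H.hgt_nn hω hE u
  have h2 := H.hgt_nn hω' hE' u
  have h3 := (H.geo.right ω ω' hω hω' hE hE' hb hT hs (gs u) (H.gs_gr u)).1
  have h4 := H.tau
  have hR := Rg_pos z C
  have hR1 : 1 ≤ Rg z C := H.e1.trans H.exp_le_Rg
  have h5 : |2 ^ X / Rg z C * nn D n i j r gam P S.S ω (gs u) -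
      2 ^ X / Rg z C * nn D n i j r gam P S.S ω' (gs u)| ≤ 1 := by
    rw [← mul_sub, abs_mul, abs_of_pos (by positivity)]
    calc 2 ^ X / Rg z C * |nn D n i j r gam P S.S ω (gs u) - nn D n i j r gam P S.S ω' (gs u)| ≤
          2 ^ X / Rg z C * (exp (C * z) / 2 ^ (y * z)) :=
          mul_le_mul_of_nonneg_left h3 (by positivity)
      _ = (2 ^ X * (exp (C * z) / 2 ^ (y * z))) / Rg z C := by ring
      _ ≤ 1 / 1 := div_le_div₀ (by norm_num) h4 (by norm_num) hR1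
      _ = 1 := by norm_num
  have key : ((|(qh (c := c) (k0 := k0) (k1 := k1) D J w z i j r X C P S ys gs q).hgt ω u -
      (qh (c := c) (k0 := k0) (k1 := k1) D J w z i j r X C P S ys gs q).hgt ω' u| : ℤ) : ℝ) ≤
      (((27 + 24 * (k0 + k1) : ℕ) : ℤ) : ℝ) := by
    push_cast
    rw [abs_le] at h1 h2 h5 ⊢
    constructor <;> linarith [h1.1, h1.2, h2.1, h2.2, h5.1, h5.2]
  exact_mod_cast key

/-- The range of the height. -/
theorem Hyp.hgt_rng (ω : D.Ω) (u : Fin c) :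
    |(qh (c := c) (k0 := k0) (k1 := k1) D J w z i j r X C P S ys gs q).hgt ω u| ≤
      ((4 + 3 * (k0 + k1) : ℕ) : ℤ) * 2 ^ X := by
  have ht : |((tq J w X (D.T ω) : ℕ) : ℝ)| ≤ 2 ^ X := by
    rw [abs_of_nonneg (by positivity)]
    exact_mod_cast (tq_lt (T := D.T ω) H.wX).le
  have := hgt_range (k0 := k0) (k1 := k1) (X := X)
    (a := dg X (z0 D J w i j r P ω (gs u) / Rg z C))
    (b := dg X (b1 D J w i j r P ω (gs u) / Rg z C))
    (b' := dg X (b2 D J w i j r P ω (gs u) / Rg z C))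
    (s := fun b => dg X (S.S ω (gs u) (ys b) * (2 * Ry z C) / Rg z C))
    (y := fun b => dgp X ((z0 D J w i j r P ω (ys b) + Ry z C) / (2 * Ry z C)))
    (m := fun l => dg X (b1 D J w i j r P ω (ys (Fin.natAdd k0 l)) / (2 * Ry z C)))
    (dg_abs _) (dg_abs _) (dg_abs _) (fun _ => dg_abs _) (fun _ => dgp_abs _)
    (fun _ => dg_abs _) ht
  push_cast
  exact this

/-- A number in the units of the digits, two samples. -/
theorem Hyp.dg_two {x y' : ℝ} (h : |x - y'| ≤ exp (C * z) / 2 ^ (y * z)) {R : ℝ} (hR : 1 ≤ R) :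
    |dg X (x / R) - dg X (y' / R)| ≤ ((2 : ℕ) : ℤ) := by
  have h4 := H.tau
  refine dg_lip ?_
  rw [← sub_div, abs_div, abs_of_pos (by linarith : 0 < R)]
  calc 2 ^ X * (|x - y'| / R) ≤ 2 ^ X * ((exp (C * z) / 2 ^ (y * z)) / 1) := by
        refine mul_le_mul_of_nonneg_left ?_ (by positivity)
        exact div_le_div₀ (by positivity) h (by norm_num) hR
    _ ≤ 1 := by rwa [div_one]

/-- A slope in the units of the digits, two samples. -/
theorem Hyp.dgS_two {x y' : ℝ} (h : |x - y'| ≤ exp (C * z) / 2 ^ (y * z)) :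
    |dg X (x * (2 * Ry z C) / Rg z C) - dg X (y' * (2 * Ry z C) / Rg z C)| ≤ ((2 : ℕ) : ℤ) := by
  have h4 := H.tau
  have hR := Rg_pos z C
  have hRy := Ry_pos z C
  refine dg_lip ?_
  have e1 : x * (2 * Ry z C) / Rg z C - y' * (2 * Ry z C) / Rg z C =
      (x - y') * (2 * Ry z C / Rg z C) := by ring
  rw [e1, abs_mul, abs_of_pos (by positivity : 0 < 2 * Ry z C / Rg z C)]
  calc 2 ^ X * (|x - y'| * (2 * Ry z C / Rg z C)) ≤
        2 ^ X * ((exp (C * z) / 2 ^ (y * z)) * 1) := by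
        refine mul_le_mul_of_nonneg_left ?_ (by positivity)
        exact mul_le_mul h H.Ry_Rg (by positivity) (by positivity)
    _ ≤ 1 := by rwa [mul_one]

/-- The slopes, two samples with the same contexts at `R''`. -/
theorem Hyp.S_two {ω ω' : D.Ω} (hω : 0 < q ω) (hω' : 0 < q ω') (hE : E ω) (hE' : E ω')
    (hb : bb D i j r ω = bb D i j r ω') (hT : D.T ω = D.T ω')
    (hc : D.c (i - r'') (j + r) ω = D.c (i - r'') (j + r) ω') :
    (∀ u b, |Sv (c := c) (k0 := k0) (k1 := k1) D z X C S ys gs ω u b -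
      Sv D z X C S ys gs ω' u b| ≤ ((2 : ℕ) : ℤ)) ∧
    (∀ l b, |Elv (k0 := k0) (k1 := k1) D X S ys ω l b - Elv D X S ys ω' l b| ≤
      ((2 : ℕ) : ℤ)) ∧
    ∀ u b, |Evv (c := c) (k0 := k0) (k1 := k1) D w z X C S ys gs ω u b -
      Evv D w z X C S ys gs ω' u b| ≤ ((2 : ℕ) : ℤ) := by
  have i2 := H.i2
  have j2 := H.j2
  have hs : D.s (i - r'') (j + r) ω = D.s (i - r'') (j + r) ω' :=
    H.ok.s_c (i - r'') (by omega) (j + r) (by omega) ω ω' hω hω' (Prod.ext hc hT)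
  obtain ⟨g1, g2⟩ := H.geo.right2 ω ω' hω hω' hE hE' hb hT hs
  have g3 := H.geo.right3 ω ω' hω hω' hE hE' hb hT hc
  have h4 := H.tau
  refine ⟨fun u b => H.dgS_two (g1 _ (H.gs_gr u) _ (H.ys_sl b)), fun l b => ?_, fun u b =>
    H.dgS_two (g3 _ (H.gs_gr u) _ (H.ys0 b) w H.w1 H.w2)⟩
  have h5 := g2 _ (H.ys1 l) _ (H.ys0 b)
  have h6 : |2 ^ X * S.El ω (ys (Fin.natAdd k0 l)) (ys (Fin.castAdd k1 b)) -
      2 ^ X * S.El ω' (ys (Fin.natAdd k0 l)) (ys (Fin.castAdd k1 b))| ≤ 1 := by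
    rw [← mul_sub, abs_mul, abs_of_pos (by positivity : (0 : ℝ) < 2 ^ X)]
    exact (mul_le_mul_of_nonneg_left h5 (by positivity)).trans h4
  have h7 := floor_near h6
  have h8 : ((|Elv (k0 := k0) (k1 := k1) D X S ys ω l b - Elv D X S ys ω' l b| : ℤ) : ℝ) ≤
      (((2 : ℕ) : ℤ) : ℝ) := by
    rw [Int.cast_abs]
    refine h7.trans ?_
    norm_num
  exact_mod_cast h8

/-- The data of the line, two samples with the same closed context at `L`. -/
theorem Hyp.v_two {ω ω' : D.Ω} (hω : 0 < q ω) (hω' : 0 < q ω') (hE : E ω) (hE' : E ω')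
    (hb : bb D i j r ω = bb D i j r ω') (hc : D.c (i + r') (j - r) ω = D.c (i + r') (j - r) ω')
    (hT : D.T ω / 2 ^ (J - w) = D.T ω' / 2 ^ (J - w)) :
    (∀ b, |yv (k0 := k0) (k1 := k1) D J w z i j r X C P ys ω b -
      yv D J w z i j r X C P ys ω' b| ≤ ((2 : ℕ) : ℤ)) ∧
    (∀ l, |mv (k0 := k0) (k1 := k1) D J w z i j r X C P ys ω l -
      mv D J w z i j r X C P ys ω' l| ≤ ((2 : ℕ) : ℤ)) ∧
    (∀ u, |bev (c := c) D J w z i j r X C P gs ω u - bev D J w z i j r X C P gs ω' u| ≤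
      ((2 : ℕ) : ℤ)) ∧
    ∀ u, |be2v (c := c) D J w z i j r X C P gs ω u - be2v D J w z i j r X C P gs ω' u| ≤
      ((2 : ℕ) : ℤ) := by
  obtain ⟨g1, g2⟩ := H.geo.left ω ω' hω hω' hE hE' hb hc w H.w1 H.w2 hT
  have hR1 := H.one_Rg
  have hRy1 : 1 ≤ 2 * Ry z C := by linarith [H.one_Ry]
  have h4 := H.tau
  refine ⟨fun b => ?_, fun l => H.dg_two (g1 _ (H.ys_sl _)).2 hRy1,
    fun u => H.dg_two (g2 _ (H.gs_gr u)).1 hR1, fun u => H.dg_two (g2 _ (H.gs_gr u)).2 hR1⟩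
  refine dgp_lip ?_
  rw [← sub_div, abs_div, abs_of_pos (by linarith : (0 : ℝ) < 2 * Ry z C),
    add_sub_add_right_eq_sub]
  calc 2 ^ X * (|z0 D J w i j r P ω (ys b) - z0 D J w i j r P ω' (ys b)| / (2 * Ry z C)) ≤
        2 ^ X * ((exp (C * z) / 2 ^ (y * z)) / 1) := by
        refine mul_le_mul_of_nonneg_left ?_ (by positivity)
        exact div_le_div₀ (by positivity) (g1 _ (H.ys_sl b)).1 (by norm_num) hRy1
    _ ≤ 1 := by rwa [div_one]

/-- The range of the slopes of the leaf. -/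
theorem Hyp.El_rng (ω : D.Ω) (l : Fin k1) (b : Fin k0) :
    |(Elv (k0 := k0) (k1 := k1) D X S ys ω l b : ℝ)| ≤ exp ((C + 3) * (z + X)) := by
  have z1 : (1 : ℝ) ≤ z := by exact_mod_cast H.z1
  have x0 : (0 : ℝ) ≤ X := Nat.cast_nonneg X
  have C0 := H.C0
  have h1 := H.bEl ω (ys (Fin.natAdd k0 l)) (ys (Fin.castAdd k1 b))
  have hX : (1 : ℝ) ≤ 2 ^ X := one_le_pow₀ (by norm_num)
  have h2 : |2 ^ X * S.El ω (ys (Fin.natAdd k0 l)) (ys (Fin.castAdd k1 b)) - 0| ≤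
      2 ^ X * exp (C * z) := by
    rw [sub_zero, abs_mul, abs_of_pos (by positivity : (0 : ℝ) < 2 ^ X)]
    exact mul_le_mul_of_nonneg_left h1 (by positivity)
  have h3 := floor_near h2
  rw [Int.floor_zero, sub_zero] at h3
  unfold Elv
  refine h3.trans ?_
  have h4 := Pool.P4.two_pow_exp X
  have h5 := H.e1
  have h6 : (2 : ℝ) ≤ exp 1 := by
    have := Real.add_one_le_exp (1 : ℝ)
    linarith
  calc 2 ^ X * exp (C * z) + 1 ≤ 2 * (2 ^ X * exp (C * z)) := by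
        have := one_le_mul_of_one_le_of_one_le hX h5
        linarith
    _ ≤ exp 1 * (exp X * exp (C * z)) := by
        refine mul_le_mul h6 ?_ (by positivity) (Real.exp_pos _).le
        exact mul_le_mul_of_nonneg_right h4 (Real.exp_pos _).le
    _ = exp (1 + (X + C * z)) := by rw [Real.exp_add, Real.exp_add]
    _ ≤ _ := by
        refine Real.exp_le_exp.mpr ?_
        nlinarith [mul_nonneg C0 x0]

/-- **Few slopes**, given the context at `R''`. -/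
theorem Hyp.few_s3 {T' : Type} (Z : D.Ω → T') (hZ : ∀ ω ω', 0 < q ω → 0 < q ω' → Z ω = Z ω' →
    bb D i j r ω = bb D i j r ω' ∧ D.T ω = D.T ω' ∧
      D.c (i - r'') (j + r) ω = D.c (i - r'') (j + r) ω') :
    CH q (s3 (c := c) (k0 := k0) (k1 := k1) D w z X C S ys gs) Z ≤
      aS c k0 k1 C * (z + X * Pb q (fun ω => ¬ E ω)) := by
  have hq := H.ok.isLaw
  have h0 := hq.nonneg
  obtain ⟨b, hb⟩ : ∃ b, b = Pb q (fun ω => ¬ E ω) := ⟨_, rfl⟩
  have two := fun {ω ω' : D.Ω} (hω : 0 < q ω) (hω' : 0 < q ω') (hE : E ω) (hE' : E ω')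
    (e : Z ω = Z ω') => H.S_two hω hω' hE hE' (hZ ω ω' hω hω' e).1 (hZ ω ω' hω hω' e).2.1
      (hZ ω ω' hω hω' e).2.2
  have k1' : CH q (Sv (c := c) (k0 := k0) (k1 := k1) D z X C S ys gs) Z ≤
      c * (aC (k0 + k1) 2 1 * (z + X * b)) := by
    refine Pool.RC21.CH_fin_le h0 Z c
      (fun u ω => Sv (c := c) (k0 := k0) (k1 := k1) D z X C S ys gs ω u) fun u => ?_
    rw [hb]
    refine few_z hq (fun ω => Sv D z X C S ys gs ω u) _ E 2 1 H.z1
      (fun ω ω' hω hω' hE hE' e => (two hω hω' hE hE' e).1 u) ?_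
    intro ω hω b
    rw [Nat.cast_one, one_mul]
    exact dg_abs _
  have k2' : CH q (Elv (k0 := k0) (k1 := k1) D X S ys) Z ≤
      k1 * (aE k0 (C + 3) * (z + X * b)) := by
    refine Pool.RC21.CH_fin_le h0 Z k1
      (fun l ω => Elv (k0 := k0) (k1 := k1) D X S ys ω l) fun l => ?_
    rw [hb]
    have := few_exp0 hq (fun ω => Elv (k0 := k0) (k1 := k1) D X S ys ω l) Z E (A := C + 3)
      (X := X) (by linarith [H.C0]) H.z1 ?_ (fun ω _ b => H.El_rng ω l b)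
    · rwa [Fintype.card_fin] at this
    · intro ω ω' hω hω' hE hE' e b
      have h1 := (two hω hω' hE hE' e).2.1 l b
      have h2 : ((|Elv (k0 := k0) (k1 := k1) D X S ys ω l b - Elv D X S ys ω' l b| : ℤ) : ℝ) ≤
          (((2 : ℕ) : ℤ) : ℝ) := by exact_mod_cast h1
      push_cast at h2
      refine h2.trans ?_
      have h3 : (2 : ℝ) ≤ exp (2 * z) := le_expz (by norm_num) H.z1
      refine h3.trans (Real.exp_le_exp.mpr ?_)
      have := H.C0
      have z0 : (0 : ℝ) ≤ z := Nat.cast_nonneg z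
      nlinarith
  have k3' : CH q (Evv (c := c) (k0 := k0) (k1 := k1) D w z X C S ys gs) Z ≤
      c * (aC k0 2 1 * (z + X * b)) := by
    refine Pool.RC21.CH_fin_le h0 Z c
      (fun u ω => Evv (c := c) (k0 := k0) (k1 := k1) D w z X C S ys gs ω u) fun u => ?_
    rw [hb]
    refine few_z hq (fun ω => Evv D w z X C S ys gs ω u) _ E 2 1 H.z1
      (fun ω ω' hω hω' hE hE' e => (two hω hω' hE hE' e).2.2 u) ?_
    intro ω hω b
    rw [Nat.cast_one, one_mul]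
    exact dg_abs _
  have k4' := CH_subadd h0 (Elv (k0 := k0) (k1 := k1) D X S ys)
    (Evv (c := c) (k0 := k0) (k1 := k1) D w z X C S ys gs) Z
  have k5' := CH_subadd h0 (Sv (c := c) (k0 := k0) (k1 := k1) D z X C S ys gs)
    (fun ω => (Elv (k0 := k0) (k1 := k1) D X S ys ω,
      Evv (c := c) (k0 := k0) (k1 := k1) D w z X C S ys gs ω)) Z
  rw [← hb]
  unfold aS
  refine k5'.trans ?_
  linarith

/-- **Few data of the line**, given the context at `L`. -/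
theorem Hyp.few_v4 {T' : Type} (Z : D.Ω → T') (hZ : ∀ ω ω', 0 < q ω → 0 < q ω' → Z ω = Z ω' →
    bb D i j r ω = bb D i j r ω' ∧ D.T ω / 2 ^ (J - w) = D.T ω' / 2 ^ (J - w) ∧
      D.c (i + r') (j - r) ω = D.c (i + r') (j - r) ω') :
    CH q (v4 (c := c) (k0 := k0) (k1 := k1) D J w z i j r X C P ys gs) Z ≤
      aV c k0 k1 * (z + X * Pb q (fun ω => ¬ E ω)) := by
  have hq := H.ok.isLaw
  have h0 := hq.nonneg
  obtain ⟨b, hb⟩ : ∃ b, b = Pb q (fun ω => ¬ E ω) := ⟨_, rfl⟩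
  have two := fun {ω ω' : D.Ω} (hω : 0 < q ω) (hω' : 0 < q ω') (hE : E ω) (hE' : E ω')
    (e : Z ω = Z ω') => H.v_two hω hω' hE hE' (hZ ω ω' hω hω' e).1 (hZ ω ω' hω hω' e).2.2
      (hZ ω ω' hω hω' e).2.1
  have l1 : CH q (yv (k0 := k0) (k1 := k1) D J w z i j r X C P ys) Z ≤
      aC (k0 + k1) 2 1 * (z + X * b) := by
    rw [hb]
    refine few_z hq _ _ E 2 1 H.z1
      (fun ω ω' hω hω' hE hE' e => (two hω hω' hE hE' e).1) ?_
    intro ω hω b
    rw [Nat.cast_one, one_mul]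
    exact dgp_abs _
  have l2 : CH q (mv (k0 := k0) (k1 := k1) D J w z i j r X C P ys) Z ≤
      aC k1 2 1 * (z + X * b) := by
    rw [hb]
    refine few_z hq _ _ E 2 1 H.z1
      (fun ω ω' hω hω' hE hE' e => (two hω hω' hE hE' e).2.1) ?_
    intro ω hω b
    rw [Nat.cast_one, one_mul]
    exact dg_abs _
  have l3 : CH q (bev (c := c) D J w z i j r X C P gs) Z ≤ aC c 2 1 * (z + X * b) := by
    rw [hb]
    refine few_z hq _ _ E 2 1 H.z1
      (fun ω ω' hω hω' hE hE' e => (two hω hω' hE hE' e).2.2.1) ?_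
    intro ω hω b
    rw [Nat.cast_one, one_mul]
    exact dg_abs _
  have l4 : CH q (be2v (c := c) D J w z i j r X C P gs) Z ≤ aC c 2 1 * (z + X * b) := by
    rw [hb]
    refine few_z hq _ _ E 2 1 H.z1
      (fun ω ω' hω hω' hE hE' e => (two hω hω' hE hE' e).2.2.2) ?_
    intro ω hω b
    rw [Nat.cast_one, one_mul]
    exact dg_abs _
  have l5 := CH_subadd h0 (bev (c := c) D J w z i j r X C P gs)
    (be2v (c := c) D J w z i j r X C P gs) Z
  have l6 := CH_subadd h0 (mv (k0 := k0) (k1 := k1) D J w z i j r X C P ys)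
    (fun ω => (bev (c := c) D J w z i j r X C P gs ω, be2v (c := c) D J w z i j r X C P gs ω)) Z
  have l7 := CH_subadd h0 (yv (k0 := k0) (k1 := k1) D J w z i j r X C P ys)
    (fun ω => (mv (k0 := k0) (k1 := k1) D J w z i j r X C P ys ω,
      (bev (c := c) D J w z i j r X C P gs ω, be2v (c := c) D J w z i j r X C P gs ω))) Z
  rw [← hb]
  unfold aV
  refine l7.trans ?_
  linarith

/-- **Few heights**, given the visible label at `R`. -/
theorem Hyp.few_hgt {T' : Type} (Z : D.Ω → T') (hZ : ∀ ω ω', 0 < q ω → 0 < q ω' → Z ω = Z ω' →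
    bb D i j r ω = bb D i j r ω' ∧ D.T ω = D.T ω' ∧
      D.s (i - r') (j + r) ω = D.s (i - r') (j + r) ω') :
    CH q (qh (c := c) (k0 := k0) (k1 := k1) D J w z i j r X C P S ys gs q).hgt Z ≤
      aH c k0 k1 * (z + X * Pb q (fun ω => ¬ E ω)) := by
  refine few_z H.ok.isLaw _ _ E (27 + 24 * (k0 + k1)) (4 + 3 * (k0 + k1)) H.z1 ?_
    (fun ω _ u => H.hgt_rng ω u)
  intro ω ω' hω hω' hE hE' e u
  obtain ⟨e1, e2, e3⟩ := hZ ω ω' hω hω' e
  exact H.hgt_two hω hω' hE hE' e1 e2 e3 u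

end

end Pool.P5
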