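import Pool.Agent.H25.P5.H2

/-!
# P5: the two directions at a deeper place `(i', j)`, and (H2)
-/

set_option autoImplicit false

namespace Pool.P5

open Finset Real MvPolynomial
open Pool.Agent.H49.Ent Pool.Agent.H32.Dense Pool.STK Pool.STAT Pool.MIC.Frm Pool.MIC7 Pool.FRM
open Pool.GSD Pool.POT
open Pool.BFL (Pb)
open Pool.P4 (t0 rt pp PthC FraC bb ze zt z0 be cl1 dg dgp Ry cb LLC tq GoodS FrP err
  dg_near dg_abs dg_lip dgp_lip dgp_near dgp_abs c_up c_up1 Ry_pos rt_near floor_near aC aC_nonneg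
  aE aE_nonneg few_z few_exp0 sides MI_inner le_expz dg_lipR dg_absR)

/-- The digits of the exact point. -/
noncomputable def zg {ι : Type} (D : NDat2) (z i j r X : ℕ) (C : ℝ) (P : D.Γ × D.Γ → ℕ → PN)
    (g : ι → ℕ) (ω : D.Ω) (u : ι) : ℤ := dg X (ze D i j r P ω (g u) / Rg z C)

/-- Contexts. -/
theorem ctx_th {D : NDat2} {c k0 k1 : ℕ} (J w z i j r X : ℕ) (C : ℝ) (S : Slo D)
    (ys : Fin (k0 + k1) → ℕ) (gs : Fin c → ℕ) (ω ω' : D.Ω) :
    ((tv D J w z i j r X C S ys gs ω, cb D J w i j r ω) =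
      (tv D J w z i j r X C S ys gs ω', cb D J w i j r ω')) ↔
    ((s3 D w z X C S ys gs ω, (D.c (i - 1) (j - r) ω, (D.c i j ω, D.T ω))) =
      (s3 D w z X C S ys gs ω', (D.c (i - 1) (j - r) ω', (D.c i j ω', D.T ω')))) := by
  rw [tv_eq, tv_eq]
  unfold cb Pool.P4.bb
  constructor
  · intro h
    have h1 := (Prod.ext_iff.mp h).1
    have h2 := (Prod.ext_iff.mp h1).1
    have h3 := (Prod.ext_iff.mp h1).2
    have h4 := (Prod.ext_iff.mp h3).1
    have h5 := (Prod.ext_iff.mp h3).2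
    have h6 := (Prod.ext_iff.mp h2).1
    have h7 := (Prod.ext_iff.mp h6).1
    have h8 := (Prod.ext_iff.mp h6).2
    exact Prod.ext h5 (Prod.ext h8 (Prod.ext h7 h4))
  · intro h
    have h1 := (Prod.ext_iff.mp h).1
    have h2 := (Prod.ext_iff.mp h).2
    have h3 := (Prod.ext_iff.mp h2).1
    have h4 := (Prod.ext_iff.mp h2).2
    have h5 := (Prod.ext_iff.mp h4).1
    have h6 := (Prod.ext_iff.mp h4).2
    have h7 : D.T ω / 2 ^ (J - w) = D.T ω' / 2 ^ (J - w) := congrArg (· / 2 ^ (J - w)) h6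
    have h8 : ((D.c i j ω, D.c (i - 1) (j - r) ω), D.T ω / 2 ^ (J - w)) =
        ((D.c i j ω', D.c (i - 1) (j - r) ω'), D.T ω' / 2 ^ (J - w)) :=
      Prod.ext (Prod.ext h5 h3) h7
    exact Prod.ext (Prod.ext h8 (Prod.ext h6 h1)) h8

/-- Contexts. -/
theorem ctx_v {D : NDat2} {c k0 k1 : ℕ} (J w z i j r X : ℕ) (C : ℝ) (P : D.Γ × D.Γ → ℕ → PN)
    (S : Slo D) (ys : Fin (k0 + k1) → ℕ) (gs : Fin c → ℕ) (ω ω' : D.Ω) :
    ((vv D J w z i j r X C P ys gs ω, (tv D J w z i j r X C S ys gs ω, cb D J w i j r ω)) =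
      (vv D J w z i j r X C P ys gs ω', (tv D J w z i j r X C S ys gs ω', cb D J w i j r ω'))) ↔
    ((v4 D J w z i j r X C P ys gs ω,
        (s3 D w z X C S ys gs ω, (D.c (i - 1) (j - r) ω, (D.c i j ω, D.T ω)))) =
      (v4 D J w z i j r X C P ys gs ω',
        (s3 D w z X C S ys gs ω', (D.c (i - 1) (j - r) ω', (D.c i j ω', D.T ω'))))) := by
  constructor
  · intro h
    have h1 := (Prod.ext_iff.mp h).1
    have h2 := (Prod.ext_iff.mp h).2
    exact Prod.ext (Prod.ext_iff.mp h1).2 ((ctx_th J w z i j r X C S ys gs ω ω').mp h2)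
  · intro h
    have h1 := (Prod.ext_iff.mp h).1
    have h2 := (ctx_th J w z i j r X C S ys gs ω ω').mpr (Prod.ext_iff.mp h).2
    have h3 : cb D J w i j r ω = cb D J w i j r ω' := (Prod.ext_iff.mp h2).2
    exact Prod.ext (Prod.ext h3 h1) h2

section

variable {D : NDat2} {n K K' J a₀ w₀ z M w i j r r2 r' r'' y a X : ℕ} {lam gam : ℕ → ℝ}
  {κ C₁ C : ℝ} {q : D.Ω → ℝ} {E : D.Ω → Prop} {P : D.Γ × D.Γ → ℕ → PN} {S : Slo D}
  {c k0 k1 : ℕ} {ys : Fin (k0 + k1) → ℕ} {gs : Fin c → ℕ}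
  (H : Hyp D n K K' J a₀ w₀ z M w i j r r2 r' r'' y a X lam gam κ C₁ C q E P S ys gs)

include H

/-- **The direction `(s, r)`**, `s = r'` or `s = r''`: functions of the right side against functions
of the left side, given the deeper context. -/
theorem Hyp.dir {i' s : ℕ} (hs : r' ≤ s) (hs' : s ≤ r'') (hi : i ≤ i') (hM : i' + r'' < M)
    {SX SY : Type} (Xf : D.Ω → SX) (Yf : D.Ω → SY) {e₁ e₂ : ℝ}
    (hX : ∀ {T' : Type} (Z : D.Ω → T'), (∀ ω ω', 0 < q ω → 0 < q ω' → Z ω = Z ω' →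
      bb D i j r ω = bb D i j r ω' ∧ D.T ω = D.T ω' ∧
        D.c (i - s) (j + r) ω = D.c (i - s) (j + r) ω') → CH q Xf Z ≤ e₁)
    (hY : ∀ {T' : Type} (Z : D.Ω → T'), (∀ ω ω', 0 < q ω → 0 < q ω' → Z ω = Z ω' →
      bb D i j r ω = bb D i j r ω' ∧ D.T ω = D.T ω' ∧
        D.c (i + s) (j - r) ω = D.c (i + s) (j - r) ω') → CH q Yf Z ≤ e₂) :
    MI q Xf Yf (fun ω => (D.c (i - 1) (j - r) ω, (D.c i' j ω, D.T ω))) ≤
      κ * z + e₁ + e₂ := by
  have hq := H.ok.isLaw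
  have h0 := hq.nonneg
  obtain ⟨W, hW⟩ : ∃ W : D.Ω → D.Γ × ℕ, W = fun ω => (D.c i' j ω, D.T ω) := ⟨_, rfl⟩
  obtain ⟨β, hβ⟩ : ∃ β : D.Ω → D.Γ, β = D.c (i - 1) (j - r) := ⟨_, rfl⟩
  obtain ⟨L, hL⟩ : ∃ L, L = D.lft i' j s r 1 := ⟨_, rfl⟩
  obtain ⟨R, hR⟩ : ∃ R, R = D.rgt i' j s r 1 := ⟨_, rfl⟩
  have i1 := H.i1
  have i2 := H.i2
  have j1 := H.j1
  have j2 := H.j2
  -- the two sides
  have dL : Det q L β := by
    intro ω ω' hω hω' e
    rw [hL] at e
    have e1 := congrFun e (1 : Fin 2)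
    simp only [NDat2.lft, Fin.val_one, one_mul] at e1
    rw [hβ]
    have := c_up H.ok (j := j - r) (by omega) (i - 1) (i' + s - (i - 1)) (by omega)
    rw [show i - 1 + (i' + s - (i - 1)) = i' + s by omega] at this
    exact this ω ω' hω hω' e1
  have hMI : MI q L R W ≤ κ * z := by
    have := H.dma.lr (i := i') (j := j) (a := s) (b := r) (s := 1) (s' := 1) (by omega)
      (by omega) (by omega) (by omega)
    unfold MI
    rw [hL, hR, hW]
    linarith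
  -- equalities of contexts
  have eqZ : ∀ ω ω', 0 < q ω → 0 < q ω' → (β ω, W ω) = (β ω', W ω') →
      bb D i j r ω = bb D i j r ω' ∧ D.T ω = D.T ω' := by
    intro ω ω' hω hω' e
    rw [hβ, hW] at e
    obtain ⟨e1, e2, e3⟩ := H.up hi hM hω hω' e
    exact ⟨e1, e3⟩
  have k1' := hX (fun ω => (R ω, (β ω, W ω))) (fun ω ω' hω hω' e => by
    obtain ⟨e3, e2⟩ := eqZ ω ω' hω hω' (Prod.ext_iff.mp e).2
    have e0 := (Prod.ext_iff.mp e).1
    simp only at e0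
    rw [hR] at e0
    have e5 := congrFun e0 (1 : Fin 2)
    simp only [NDat2.rgt, Fin.val_one, one_mul] at e5
    have e6 := c_up H.ok (j := j + r) (by omega) (i - s) (i' - i) (by omega)
    rw [show i - s + (i' - i) = i' - s by omega] at e6
    exact ⟨e3, e2, e6 ω ω' hω hω' e5⟩)
  have k2' := hY (fun ω => (L ω, (β ω, W ω))) (fun ω ω' hω hω' e => by
    obtain ⟨e3, e2⟩ := eqZ ω ω' hω hω' (Prod.ext_iff.mp e).2
    have e0 := (Prod.ext_iff.mp e).1
    simp only at e0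
    rw [hL] at e0
    have e5 := congrFun e0 (1 : Fin 2)
    simp only [NDat2.lft, Fin.val_one, one_mul] at e5
    have e6 := c_up H.ok (j := j - r) (by omega) (i + s) (i' - i) (by omega)
    rw [show i + s + (i' - i) = i' + s by omega] at e6
    exact ⟨e3, e2, e6 ω ω' hω hω' e5⟩)
  have k7 := sides h0 Xf Yf L R W β dL hMI k1' k2'
  have e9 : (fun ω => (β ω, W ω)) = fun ω => (D.c (i - 1) (j - r) ω, (D.c i' j ω, D.T ω)) := by
    rw [hβ, hW]
  rwa [e9] at k7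

/-- The context at `R` determines the context at `R''`. -/
theorem Hyp.R_R {ω ω' : D.Ω} (hω : 0 < q ω) (hω' : 0 < q ω')
    (h : D.c (i - r') (j + r) ω = D.c (i - r') (j + r) ω') :
    D.c (i - r'') (j + r) ω = D.c (i - r'') (j + r) ω' := by
  have i1 := H.i1
  have i2 := H.i2
  have j2 := H.j2
  have r1 := H.r1
  have e6 := c_up H.ok (j := j + r) (by omega) (i - r'') (r'' - r') (by omega)
  rw [show i - r'' + (r'' - r') = i - r' by omega] at e6
  exact e6 ω ω' hω hω' h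

/-- **The direction `(r', r)`.** -/
theorem Hyp.info1 {i' : ℕ} (hi : i ≤ i') (hM : i' + r'' < M) :
    MI q (fun ω => (s3 (c := c) (k0 := k0) (k1 := k1) D w z X C S ys gs ω,
        (qh (c := c) (k0 := k0) (k1 := k1) D J w z i j r X C P S ys gs q).hgt ω))
      (v4 (c := c) (k0 := k0) (k1 := k1) D J w z i j r X C P ys gs)
      (fun ω => (D.c (i - 1) (j - r) ω, (D.c i' j ω, D.T ω))) ≤
    κ * z + (aS c k0 k1 C + aH c k0 k1 + aV c k0 k1) *
      (z + X * Pb q (fun ω => ¬ E ω)) := by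
  have h0 := H.ok.isLaw.nonneg
  have i2 := H.i2
  have j2 := H.j2
  have := H.dir (s := r') le_rfl H.r1 hi hM
    (fun ω => (s3 (c := c) (k0 := k0) (k1 := k1) D w z X C S ys gs ω,
        (qh (c := c) (k0 := k0) (k1 := k1) D J w z i j r X C P S ys gs q).hgt ω))
    (v4 (c := c) (k0 := k0) (k1 := k1) D J w z i j r X C P ys gs)
    (e₁ := (aS c k0 k1 C + aH c k0 k1) * (z + X * Pb q (fun ω => ¬ E ω)))
    (e₂ := aV c k0 k1 * (z + X * Pb q (fun ω => ¬ E ω)))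
    (fun {T'} Z hZ => by
      have g1 := H.few_s3 Z (fun ω ω' hω hω' e => ⟨(hZ ω ω' hω hω' e).1,
        (hZ ω ω' hω hω' e).2.1, H.R_R hω hω' (hZ ω ω' hω hω' e).2.2⟩)
      have g2 := H.few_hgt Z (fun ω ω' hω hω' e => ⟨(hZ ω ω' hω hω' e).1,
        (hZ ω ω' hω hω' e).2.1, H.ok.s_c (i - r') (by omega) (j + r) (by omega) ω ω' hω hω'
          (Prod.ext (hZ ω ω' hω hω' e).2.2 (hZ ω ω' hω hω' e).2.1)⟩)
      refine (CH_subadd h0 _ _ Z).trans ?_
      rw [add_mul]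
      exact add_le_add g1 g2)
    (fun {T'} Z hZ => H.few_v4 Z (fun ω ω' hω hω' e => ⟨(hZ ω ω' hω hω' e).1,
      by rw [(hZ ω ω' hω hω' e).2.1], (hZ ω ω' hω hω' e).2.2⟩))
  refine this.trans (le_of_eq ?_)
  ring

end

/-- **(H2).** -/
theorem h2 : H2Stmt := by
  intro n K K' c k0 k1 C₁ C
  obtain ⟨A, hA⟩ : ∃ A, A = aS c k0 k1 |C| + aH c k0 k1 + aV c k0 k1 := ⟨_, rfl⟩
  have A0 : 0 ≤ A := by
    rw [hA]
    have := aS_nonneg c k0 k1 (abs_nonneg C)
    have := aH_nonneg c k0 k1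
    have := aV_nonneg c k0 k1
    positivity
  refine ⟨1 + A, by positivity, ?_⟩
  intro D J a₀ w₀ z M w i j r r2 r' r'' y a X lam gam κ q E P S ys gs H
  have hq := H.ok.isLaw
  have h0 := hq.nonneg
  rw [abs_of_nonneg H.C0] at hA
  obtain ⟨b, hb⟩ : ∃ b, b = Pb q (fun ω => ¬ E ω) := ⟨_, rfl⟩
  have b0 : 0 ≤ b := by
    rw [hb]
    exact H.b0
  have k7 := H.info1 le_rfl H.i2
  rw [← hb, ← hA] at k7
  rw [← hb]
  change CH q (qh (c := c) (k0 := k0) (k1 := k1) D J w z i j r X C P S ys gs q).hgt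
      (fun ω => (tv D J w z i j r X C S ys gs ω, cb D J w i j r ω)) ≤
    CH q (qh (c := c) (k0 := k0) (k1 := k1) D J w z i j r X C P S ys gs q).hgt
      (fun ω => (vv D J w z i j r X C P ys gs ω,
        (tv D J w z i j r X C S ys gs ω, cb D J w i j r ω))) + err (1 + A) κ z X b
  obtain ⟨hg, hhg⟩ : ∃ hg : D.Ω → Fin c → ℤ, hg =
    (qh (c := c) (k0 := k0) (k1 := k1) D J w z i j r X C P S ys gs q).hgt := ⟨_, rfl⟩
  rw [← hhg] at k7 ⊢
  obtain ⟨W, hW⟩ : ∃ W : D.Ω → D.Γ × (D.Γ × ℕ), W = fun ω =>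
    (D.c (i - 1) (j - r) ω, (D.c i j ω, D.T ω)) := ⟨_, rfl⟩
  have k8 := MI_inner h0 hg (s3 (c := c) (k0 := k0) (k1 := k1) D w z X C S ys gs)
    (v4 (c := c) (k0 := k0) (k1 := k1) D J w z i j r X C P ys gs) W
  have l1 : CH q hg (fun ω => (tv D J w z i j r X C S ys gs ω, cb D J w i j r ω)) =
      CH q hg (fun ω => (s3 D w z X C S ys gs ω, W ω)) := by
    refine CH_congr h0 (fun _ _ _ _ h => (Prod.ext_iff.mp h).1)
      (fun _ _ _ _ h => (Prod.ext_iff.mp h).1) ?_ ?_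
    · intro ω ω' _ _ h
      rw [hW]
      exact (ctx_th J w z i j r X C S ys gs ω ω').mp h
    · intro ω ω' _ _ h
      rw [hW] at h
      exact (ctx_th J w z i j r X C S ys gs ω ω').mpr h
  have l2 : CH q hg (fun ω => (vv D J w z i j r X C P ys gs ω,
      (tv D J w z i j r X C S ys gs ω, cb D J w i j r ω))) =
      CH q hg (fun ω => (v4 D J w z i j r X C P ys gs ω, (s3 D w z X C S ys gs ω, W ω))) := by
    refine CH_congr h0 (fun _ _ _ _ h => (Prod.ext_iff.mp h).1)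
      (fun _ _ _ _ h => (Prod.ext_iff.mp h).1) ?_ ?_
    · intro ω ω' _ _ h
      rw [hW]
      exact (ctx_v J w z i j r X C P S ys gs ω ω').mp h
    · intro ω ω' _ _ h
      rw [hW] at h
      exact (ctx_v J w z i j r X C P S ys gs ω ω').mpr h
  rw [l1, l2]
  rw [← hW] at k7
  unfold MI at k7 k8
  have z1 : (1 : ℝ) ≤ z := by exact_mod_cast H.z1
  have x0 : (0 : ℝ) ≤ X := Nat.cast_nonneg X
  have xb : 0 ≤ (X : ℝ) * b := mul_nonneg x0 b0
  have κ0 := H.κ0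
  have m1 : κ * z + A * (z + X * b) ≤ err (1 + A) κ z X b := by
    unfold err
    have n2 : 0 ≤ κ * z := mul_nonneg κ0 (by linarith)
    have n3 : 0 ≤ A * (κ * z) := mul_nonneg A0 n2
    nlinarith
  linarith

end Pool.P5
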