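import Pool.Agent.H25.P5.H2f

/-!
# P5: the paths, two samples; the direction `(r'', r)`
-/

set_option autoImplicit false

namespace Pool.P5

open Finset Real MvPolynomial
open Pool.Agent.H49.Ent Pool.Agent.H32.Dense Pool.STK Pool.STAT Pool.MIC.Frm Pool.MIC7 Pool.FRM
open Pool.GSD Pool.POT
open Pool.BFL (Pb)
open Pool.P4 (t0 rt pp PthC FraC bb ze zt z0 be cl1 dg dgp Ry cb LLC tq GoodS FrP err
  dg_near dg_abs dg_lip dgp_lip dgp_near dgp_abs c_up c_up1 Ry_pos rt_near floor_near aC aC_nonneg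
  aE aE_nonneg few_z few_exp0 sides MI_inner le_expz dg_lipR dg_absR)

/-- The range of digits. -/
theorem dg_rng {A : ℝ} (hA : 1 ≤ A) {z X : ℕ} (x : ℝ) :
    |(dg X x : ℝ)| ≤ exp (A * (z + X)) := by
  refine (dg_absR _).trans ((Pool.P4.two_pow_exp X).trans (Real.exp_le_exp.mpr ?_))
  have x0 : (0 : ℝ) ≤ X := Nat.cast_nonneg X
  have z0 : (0 : ℝ) ≤ z := Nat.cast_nonneg z
  nlinarith

section

variable {D : NDat2} {n K K' J a₀ w₀ z M w i j r r2 r' r'' y a X : ℕ} {lam gam : ℕ → ℝ}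
  {κ C₁ C : ℝ} {q : D.Ω → ℝ} {E : D.Ω → Prop} {P : D.Γ × D.Γ → ℕ → PN} {S : Slo D}
  {c k0 k1 : ℕ} {ys : Fin (k0 + k1) → ℕ} {gs : Fin c → ℕ}
  (H : Hyp D n K K' J a₀ w₀ z M w i j r r2 r' r'' y a X lam gam κ C₁ C q E P S ys gs)

include H

/-- The relative times of two samples. -/
theorem Hyp.rt_eq {ω ω' : D.Ω} (hT : D.T ω = D.T ω') : rt D J w ω' = rt D J w ω := by
  unfold rt t0
  rw [H.ok.X_zero, H.ok.X_zero, hT]

theorem Hyp.rt_le (ω : D.Ω) : |rt D J w ω| ≤ 1 :=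
  (rt_near (D := D) (J := J) (w := w) (X := X) (ω := ω) (H.ok.X_zero ω) H.wX).1

/-- Two samples, a constant coordinate. -/
theorem Hyp.path0 {ω ω' : D.Ω} (hω : 0 < q ω) (hω' : 0 < q ω') (hE : E ω) (hE' : E ω')
    {l : ℕ} (hl : sl0 gam n l) {d : ℝ}
    (g0 : |z0 D J w i j r P ω l - z0 D J w i j r P ω' l| ≤ d) :
    |ze D i j r P ω l - ze D i j r P ω' l| ≤ 2 * (exp (C * z) / 2 ^ (y * z)) + d := by
  have a1 := (H.geo.slow0 ω hω hE l hl w H.w1 H.w2).1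
  have a2 := (H.geo.slow0 ω' hω' hE' l hl w H.w1 H.w2).1
  rw [abs_le] at a1 a2 g0 ⊢
  constructor <;> linarith [a1.1, a1.2, a2.1, a2.2, g0.1, g0.2]

/-- Two samples with the same time, an affine coordinate. -/
theorem Hyp.path1 {ω ω' : D.Ω} (hω : 0 < q ω) (hω' : 0 < q ω') (hE : E ω) (hE' : E ω')
    (hT : D.T ω = D.T ω') {l : ℕ} (hl : sl1 gam n l) {d d' : ℝ}
    (g0 : |z0 D J w i j r P ω l - z0 D J w i j r P ω' l| ≤ d)
    (g1 : |b1 D J w i j r P ω l - b1 D J w i j r P ω' l| ≤ d') :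
    |ze D i j r P ω l - ze D i j r P ω' l| ≤ 2 * (exp (C * z) / 2 ^ (y * z)) + (d + d') := by
  have a1 := (H.geo.slow1 ω hω hE l hl w H.w1 H.w2).1
  have a2 := (H.geo.slow1 ω' hω' hE' l hl w H.w1 H.w2).1
  rw [H.rt_eq hT] at a2
  have a5 : |rt D J w ω * b1 D J w i j r P ω l - rt D J w ω * b1 D J w i j r P ω' l| ≤ d' := by
    rw [← mul_sub, abs_mul]
    calc _ ≤ 1 * d' := mul_le_mul (H.rt_le ω) g1 (abs_nonneg _) (by norm_num)
      _ = d' := one_mul _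
  rw [abs_le] at a1 a2 a5 g0 ⊢
  constructor <;> linarith [a1.1, a1.2, a2.1, a2.2, g0.1, g0.2, a5.1, a5.2]

/-- Two samples with the same time, a coordinate of the group. -/
theorem Hyp.path2 {ω ω' : D.Ω} (hω : 0 < q ω) (hω' : 0 < q ω') (hE : E ω) (hE' : E ω')
    (hT : D.T ω = D.T ω') {l : ℕ} (hl : gr gam n l) {d d' d'' : ℝ}
    (g0 : |z0 D J w i j r P ω l - z0 D J w i j r P ω' l| ≤ d)
    (g1 : |b1 D J w i j r P ω l - b1 D J w i j r P ω' l| ≤ d')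
    (g2 : |b2 D J w i j r P ω l - b2 D J w i j r P ω' l| ≤ d'') :
    |ze D i j r P ω l - ze D i j r P ω' l| ≤
      2 * (exp (C * z) / 2 ^ (y * z)) + (d + d' + d'') := by
  have a1 := H.geo.grp ω hω hE l hl w H.w1 H.w2
  have a2 := H.geo.grp ω' hω' hE' l hl w H.w1 H.w2
  rw [H.rt_eq hT] at a2
  have a5 : |rt D J w ω * b1 D J w i j r P ω l - rt D J w ω * b1 D J w i j r P ω' l| ≤ d' := by
    rw [← mul_sub, abs_mul]
    calc _ ≤ 1 * d' := mul_le_mul (H.rt_le ω) g1 (abs_nonneg _) (by norm_num)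
      _ = d' := one_mul _
  have hr2 : |rt D J w ω ^ 2| ≤ 1 := by
    rw [abs_pow]
    exact pow_le_one₀ (abs_nonneg _) (H.rt_le ω)
  have a6 : |rt D J w ω ^ 2 * b2 D J w i j r P ω l -
      rt D J w ω ^ 2 * b2 D J w i j r P ω' l| ≤ d'' := by
    rw [← mul_sub, abs_mul]
    calc _ ≤ 1 * d'' := mul_le_mul hr2 g2 (abs_nonneg _) (by norm_num)
      _ = d'' := one_mul _
  rw [abs_le] at a1 a2 a5 a6 g0 ⊢
  constructor <;> linarith [a1.1, a1.2, a2.1, a2.2, g0.1, g0.2, a5.1, a5.2, a6.1, a6.2]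

/-- Two samples with the same time. -/
theorem Hyp.path {ω ω' : D.Ω} (hω : 0 < q ω) (hω' : 0 < q ω') (hE : E ω) (hE' : E ω')
    (hT : D.T ω = D.T ω') {l : ℕ} (h1 : 1 ≤ l) (h2 : l ≤ n) {d : ℝ}
    (g0 : |z0 D J w i j r P ω l - z0 D J w i j r P ω' l| ≤ d)
    (g1 : |b1 D J w i j r P ω l - b1 D J w i j r P ω' l| ≤ d)
    (g2 : |b2 D J w i j r P ω l - b2 D J w i j r P ω' l| ≤ d) :
    |ze D i j r P ω l - ze D i j r P ω' l| ≤ 2 * (exp (C * z) / 2 ^ (y * z)) + 3 * d := by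
  have d0 := (abs_nonneg _).trans g0
  rcases sl_or_gr (gam := gam) h1 h2 with hs | hs
  · rcases (sl_iff H.g3 l).1 hs with hs | hs
    · have := H.path0 hω hω' hE hE' hs g0
      linarith
    · have := H.path1 hω hω' hE hE' hT hs g0 g1
      linarith
  · have := H.path2 hω hω' hE hE' hT hs g0 g1 g2
    linarith

/-- The coordinates of the exact point, two samples with the same closed context at `L''`. -/
theorem Hyp.ze_line {ω ω' : D.Ω} (hω : 0 < q ω) (hω' : 0 < q ω') (hE : E ω) (hE' : E ω')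
    (hb : bb D i j r ω = bb D i j r ω')
    (hc : D.c (i + r'') (j - r) ω = D.c (i + r'') (j - r) ω')
    (hT : D.T ω = D.T ω') {l : ℕ} (h1 : 1 ≤ l) (h2 : l ≤ n) :
    2 ^ X * |ze D i j r P ω l - ze D i j r P ω' l| ≤ 5 := by
  have ht := H.tau
  obtain ⟨g0, g1, g2⟩ := H.geo.left3 ω ω' hω hω' hE hE' hb hc w H.w1 H.w2 (by rw [hT]) l h1 h2
  have key := H.path hω hω' hE hE' hT h1 h2 g0 g1 g2
  obtain ⟨τ, hτ⟩ : ∃ τ, τ = exp (C * z) / 2 ^ (y * z) := ⟨_, rfl⟩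
  rw [← hτ] at ht key
  calc _ ≤ 2 ^ X * (2 * τ + 3 * τ) := mul_le_mul_of_nonneg_left key (by positivity)
    _ = 5 * (2 ^ X * τ) := by ring
    _ ≤ 5 := by linarith

/-- **The direction `(r'', r)`**: the slopes against the exact point. -/
theorem Hyp.info2 {i' : ℕ} (hi : i ≤ i') (hM : i' + r'' < M) {ι : Type} [Fintype ι]
    (g : ι → ℕ) (hgn : ∀ u, 1 ≤ g u ∧ g u ≤ n) :
    MI q (s3 (c := c) (k0 := k0) (k1 := k1) D w z X C S ys gs) (zg D z i j r X C P g)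
      (fun ω => (D.c (i - 1) (j - r) ω, (D.c i' j ω, D.T ω))) ≤
    κ * z + (aS c k0 k1 C + aE (Fintype.card ι) 6) * (z + X * Pb q (fun ω => ¬ E ω)) := by
  have this := H.dir (s := r'') H.r1 le_rfl hi hM
    (s3 (c := c) (k0 := k0) (k1 := k1) D w z X C S ys gs) (zg D z i j r X C P g)
    (e₁ := aS c k0 k1 C * (z + X * Pb q (fun ω => ¬ E ω)))
    (e₂ := aE (Fintype.card ι) 6 * (z + X * Pb q (fun ω => ¬ E ω)))
    (fun {T'} Z hZ => H.few_s3 Z hZ)
    (fun {T'} Z hZ => by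
      refine few_exp0 H.ok.isLaw _ _ E (by norm_num) H.z1 ?_
        (fun ω _ u => dg_rng (by norm_num) _)
      intro ω ω' hω hω' hE hE' e u
      obtain ⟨e1, e2, e3⟩ := hZ ω ω' hω hω' e
      have e7 := H.ze_line hω hω' hE hE' e1 e3 e2 (hgn u).1 (hgn u).2
      have hRg := Rg_pos z C
      have hR1 := H.one_Rg
      have e8 : 2 ^ X * |ze D i j r P ω (g u) / Rg z C - ze D i j r P ω' (g u) / Rg z C| ≤
          5 := by
        rw [← sub_div, abs_div, abs_of_pos hRg, ← mul_div_assoc]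
        rw [div_le_iff₀ hRg]
        linarith
      have e9 := dg_lipR (X := X) (ze D i j r P ω (g u) / Rg z C)
        (ze D i j r P ω' (g u) / Rg z C)
      have e10 : (6 : ℝ) ≤ exp (6 * z) := le_expz (by norm_num) H.z1
      unfold zg
      linarith)
  refine this.trans (le_of_eq ?_)
  ring

end

end Pool.P5
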