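import Pool.Agent.H25.P5.Hs1
import Pool.Agent.H89.P4.Hs2

/-!
# P5: few values at the deeper place
-/

set_option autoImplicit false

namespace Pool.P5

open Finset Real MvPolynomial
open Pool.Agent.H49.Ent Pool.Agent.H32.Dense Pool.STK Pool.STAT Pool.MIC.Frm Pool.MIC7 Pool.FRM
open Pool.GSD Pool.POT
open Pool.BFL (Pb)
open Pool.P4 (t0 rt pp PthC FraC bb ze zt z0 be cl1 dg dgp Ry cb LLC tq GoodS FrP err
  dg_near dg_abs dg_lip dgp_lip dgp_near dgp_abs c_up c_up1 Ry_pos rt_near floor_near aC aC_nonneg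
  aE aE_nonneg few_z few_exp few_exp0 sides MI_inner le_expz mul_expz dg_lipR dg_absR dg_inj
  div_lipR div_absR)

/-- Digits over the large unit. -/
theorem dgR {X z : ℕ} {C : ℝ} (x y : ℝ) : |(dg X (x / Rg z C) : ℝ) - dg X (y / Rg z C)| ≤
    2 ^ X / Rg z C * |x - y| + 1 := by
  have hR := Rg_pos z C
  have h1 := dg_lipR (X := X) (x / Rg z C) (y / Rg z C)
  rw [← sub_div, abs_div, abs_of_pos hR] at h1
  calc _ ≤ _ := h1
    _ = _ := by ring

section

variable {D : NDat2} {n K K' J a₀ w₀ z M w i j r r2 r' r'' y a X : ℕ} {lam gam : ℕ → ℝ}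
  {κ C₁ C : ℝ} {q : D.Ω → ℝ} {E : D.Ω → Prop} {P : D.Γ × D.Γ → ℕ → PN} {S : Slo D}
  {c k0 k1 : ℕ} {ys : Fin (k0 + k1) → ℕ} {gs : Fin c → ℕ}
  (H : Hyp D n K K' J a₀ w₀ z M w i j r r2 r' r'' y a X lam gam κ C₁ C q E P S ys gs)

include H

/-- Equal digits. -/
theorem Hyp.dg_inj {x y' : ℝ} (hx : |x| ≤ exp (C * z)) (hy : |y'| ≤ exp (C * z))
    (h : dg X (x / Rg z C) = dg X (y' / Rg z C)) : 2 ^ X / Rg z C * |x - y'| ≤ 2 := by
  have hR := Rg_pos z C
  have h3 := Pool.P4.dg_inj (X := X) (x := x / Rg z C) (y := y' / Rg z C)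
    (by
      rw [abs_div, abs_of_pos hR, div_le_one hR]
      exact hx.trans H.exp_le_Rg)
    (by
      rw [abs_div, abs_of_pos hR, div_le_one hR]
      exact hy.trans H.exp_le_Rg) h
  rw [← sub_div, abs_div, abs_of_pos hR] at h3
  calc _ = 2 ^ X * (|x - y'| / Rg z C) := by ring
    _ ≤ 2 := h3

/-- Equal digits of the exact point. -/
theorem Hyp.ze_dg {ω ω' : D.Ω} (hω : 0 < q ω) (hω' : 0 < q ω') (hE : E ω) (hE' : E ω') {l : ℕ}
    (h1 : 1 ≤ l) (h2 : l ≤ n)
    (h : dg X (ze D i j r P ω l / Rg z C) = dg X (ze D i j r P ω' l / Rg z C)) :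
    2 ^ X / Rg z C * |ze D i j r P ω l - ze D i j r P ω' l| ≤ 2 :=
  H.dg_inj (H.geo.bz ω hω hE l h1 h2) (H.geo.bz ω' hω' hE' l h1 h2) h

/-- Equal digits of slopes. -/
theorem Hyp.S_inj {s s' : ℝ} (hs : |s| ≤ exp (C * z)) (hs' : |s'| ≤ exp (C * z))
    (h : dg X (s * (2 * Ry z C) / Rg z C) = dg X (s' * (2 * Ry z C) / Rg z C)) :
    2 ^ X / Rg z C * |s - s'| * exp (C * z) ≤ 1 := by
  have hR := Rg_pos z C
  have hRy := Ry_pos z C
  have a4 := Pool.P4.dg_inj (H.S_le1 hs) (H.S_le1 hs') h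
  have e2 : s * (2 * Ry z C) / Rg z C - s' * (2 * Ry z C) / Rg z C =
      (s - s') * (2 * Ry z C / Rg z C) := by ring
  rw [e2, abs_mul, abs_of_pos (by positivity : 0 < 2 * Ry z C / Rg z C)] at a4
  have e3 : 2 ^ X * (|s - s'| * (2 * Ry z C / Rg z C)) =
      2 * (2 ^ X / Rg z C * |s - s'| * Ry z C) := by ring
  rw [e3] at a4
  unfold Ry at a4
  linarith

/-- A product of a slope and a coordinate, two samples. -/
theorem Hyp.Sz_two {s s' x x' : ℝ} {d : ℝ} (hs' : |s'| ≤ exp (C * z)) (hx : |x| ≤ exp (C * z))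
    (h : 2 ^ X / Rg z C * |s - s'| * exp (C * z) ≤ 1) (h' : 2 ^ X / Rg z C * |x - x'| ≤ d) :
    2 ^ X / Rg z C * |s * x - s' * x'| ≤ (1 + d) * exp (C * z) := by
  have hR := Rg_pos z C
  obtain ⟨f, hf⟩ : ∃ f, f = 2 ^ X / Rg z C := ⟨_, rfl⟩
  have f0 : 0 < f := by
    rw [hf]
    positivity
  rw [← hf] at h h' ⊢
  have e1 := H.e1
  have e4 : s * x - s' * x' = (s - s') * x + s' * (x - x') := by ring
  have a6 : f * |(s - s') * x| ≤ 1 := by
    rw [abs_mul]
    calc _ ≤ f * (|s - s'| * exp (C * z)) :=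
          mul_le_mul_of_nonneg_left (mul_le_mul_of_nonneg_left hx (abs_nonneg _)) f0.le
      _ ≤ 1 := by
        rw [← mul_assoc]
        exact h
  have a7 : f * |s' * (x - x')| ≤ exp (C * z) * d := by
    rw [abs_mul]
    calc _ = |s'| * (f * |x - x'|) := by ring
      _ ≤ exp (C * z) * d := mul_le_mul hs' h' (by positivity) (Real.exp_pos _).le
  rw [e4]
  have a8 := abs_add_le ((s - s') * x) (s' * (x - x'))
  have a9 := mul_le_mul_of_nonneg_left a8 f0.le
  linarith

/-- **The exact point from the own sheet.** -/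
theorem Hyp.zo_two {ω ω' : D.Ω} (hω : 0 < q ω) (hω' : 0 < q ω') (hE : E ω) (hE' : E ω')
    {u : Fin c}
    (hh : (qh (c := c) (k0 := k0) (k1 := k1) D J w z i j r X C P S ys gs q).hgt ω u =
      (qh (c := c) (k0 := k0) (k1 := k1) D J w z i j r X C P S ys gs q).hgt ω' u)
    (hS : Sv (c := c) (k0 := k0) (k1 := k1) D z X C S ys gs ω = Sv D z X C S ys gs ω')
    (hy : zg D z i j r X C P ys ω = zg D z i j r X C P ys ω') :
    2 ^ X / Rg z C * |ze D i j r P ω (gs u) - ze D i j r P ω' (gs u)| ≤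
      (26 + 27 * ((k0 : ℝ) + k1)) * exp (C * z) := by
  have hR := Rg_pos z C
  have e1 := H.e1
  have k00 : (0 : ℝ) ≤ k0 := Nat.cast_nonneg k0
  have k10 : (0 : ℝ) ≤ k1 := Nat.cast_nonneg k1
  obtain ⟨f, hf⟩ : ∃ f, f = 2 ^ X / Rg z C := ⟨_, rfl⟩
  have f0 : 0 < f := by
    rw [hf]
    positivity
  have h1 := H.hgt_nn hω hE u
  have h2 := H.hgt_nn hω' hE' u
  rw [hh] at h1
  have h3 : f * |nn D n i j r gam P S.S ω (gs u) - nn D n i j r gam P S.S ω' (gs u)| ≤
      26 + 24 * ((k0 : ℝ) + k1) := by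
    rw [← hf] at h1 h2
    have : |f * nn D n i j r gam P S.S ω (gs u) - f * nn D n i j r gam P S.S ω' (gs u)| ≤
        26 + 24 * ((k0 : ℝ) + k1) := by
      rw [abs_le] at h1 h2 ⊢
      constructor <;> linarith [h1.1, h1.2, h2.1, h2.2]
    rwa [← mul_sub, abs_mul, abs_of_pos f0] at this
  have h4 : ∀ b, |f * (S.S ω (gs u) (ys b) * ze D i j r P ω (ys b)) -
      f * (S.S ω' (gs u) (ys b) * ze D i j r P ω' (ys b))| ≤ (1 + 2) * exp (C * z) := by
    intro b
    rw [← mul_sub, abs_mul, abs_of_pos f0, hf]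
    have hya := H.ys_n b
    exact H.Sz_two (H.bS hω' hE' _ _) (H.geo.bz ω hω hE (ys b) hya.1 hya.2)
      (H.S_inj (H.bS hω hE _ _) (H.bS hω' hE' _ _) (congrFun (congrFun hS u) b))
      (H.ze_dg hω hω' hE hE' hya.1 hya.2 (congrFun hy b))
  have h5 := sum_near h4
  rw [← Finset.mul_sum, ← Finset.mul_sum, ← mul_sub, abs_mul, abs_of_pos f0] at h5
  have e5 : ze D i j r P ω (gs u) - ze D i j r P ω' (gs u) =
      (nn D n i j r gam P S.S ω (gs u) - nn D n i j r gam P S.S ω' (gs u)) +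
      (∑ b, S.S ω (gs u) (ys b) * ze D i j r P ω (ys b) -
        ∑ b, S.S ω' (gs u) (ys b) * ze D i j r P ω' (ys b)) := by
    rw [H.nn_eq ω u, H.nn_eq ω' u]
    ring
  rw [← hf, e5]
  have a8 := abs_add_le (nn D n i j r gam P S.S ω (gs u) - nn D n i j r gam P S.S ω' (gs u))
    (∑ b, S.S ω (gs u) (ys b) * ze D i j r P ω (ys b) -
        ∑ b, S.S ω' (gs u) (ys b) * ze D i j r P ω' (ys b))
  have a9 := mul_le_mul_of_nonneg_left a8 f0.le
  have a10 : 26 + 24 * ((k0 : ℝ) + k1) ≤ (26 + 24 * ((k0 : ℝ) + k1)) * exp (C * z) := by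
    have : (0 : ℝ) ≤ 26 + 24 * ((k0 : ℝ) + k1) := by positivity
    nlinarith
  push_cast at h5
  linarith

/-- **(few, 3)** -/
theorem Hyp.few3 {ι S' : Type} [Fintype ι] (g : ι → Fin c) (B : D.Ω → S') :
    CH q (zg D z i j r X C P (fun u => gs (g u)))
      (fun ω => ((fun u => (qh (c := c) (k0 := k0) (k1 := k1) D J w z i j r X C P S ys gs q).hgt
        ω (g u)), (zg D z i j r X C P ys ω,
          (s3 (c := c) (k0 := k0) (k1 := k1) D w z X C S ys gs ω, B ω)))) ≤
      aE (Fintype.card ι) (27 + 27 * ((k0 : ℝ) + k1) + C) *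
        (z + X * Pb q (fun ω => ¬ E ω)) := by
  have C0 := H.C0
  have k00 : (0 : ℝ) ≤ k0 := Nat.cast_nonneg k0
  have k10 : (0 : ℝ) ≤ k1 := Nat.cast_nonneg k1
  refine few_exp0 H.ok.isLaw _ _ E (by positivity) H.z1 ?_
    (fun ω _ u => dg_rng (by linarith) _)
  intro ω ω' hω hω' hE hE' e u
  have e1 := (Prod.ext_iff.mp e).1
  have e2 := (Prod.ext_iff.mp e).2
  have e3 := (Prod.ext_iff.mp e2).1
  have e4 := (Prod.ext_iff.mp (Prod.ext_iff.mp e2).2).1
  have h1 := H.zo_two hω hω' hE hE' (congrFun e1 u) (Prod.ext_iff.mp e4).1 e3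
  have h2 := dgR (X := X) (z := z) (C := C) (ze D i j r P ω (gs (g u)))
    (ze D i j r P ω' (gs (g u)))
  have h3 := mul_expz (a := 27 + 27 * ((k0 : ℝ) + k1)) (b := C) (by positivity) H.z1
  have h4 := H.e1
  unfold zg
  linarith

/-- **(few, 1)** The first digits of the group, given the deeper context. -/
theorem Hyp.few1 {x v : ℕ} (hx : x ≤ X)
    (hv : v * z ≤ x) (hv' : x < v * z + z) (hM : i + v + r'' < M) {S' : Type} (B : D.Ω → S') :
    CH q (fun ω (u : Fin c) => nuv D J w z i j r X C P gs ω u / 2 ^ (X - x))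
      (fun ω => (B ω, (D.c (i - 1) (j - r) ω, (D.c (i + v) j ω, D.T ω)))) ≤
      aE c 4 * (z + X * Pb q (fun ω => ¬ E ω)) := by
  have hz := H.z1
  have hD := H.dep
  have z1 : (1 : ℝ) ≤ z := by exact_mod_cast hz
  have x0 : (0 : ℝ) ≤ X := Nat.cast_nonneg X
  have key := few_exp0 H.ok.isLaw
    (fun ω (u : Fin c) => nuv D J w z i j r X C P gs ω u / 2 ^ (X - x))
    (fun ω => (B ω, (D.c (i - 1) (j - r) ω, (D.c (i + v) j ω, D.T ω)))) E (A := 4) (X := X)
    (by norm_num) hz ?_ ?_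
  · rwa [Fintype.card_fin] at key
  · intro ω ω' hω hω' hE hE' e u
    have e1 := (Prod.ext_iff.mp e).2
    obtain ⟨f1, f2, f3⟩ := H.up (i' := i + v) (by omega) hM hω hω' e1
    have h1 := (hD.ctx (i + v) (by omega) (by omega) ω ω' hω hω' hE hE' f1 f2 w H.w1 H.w2
      (by rw [f3]) (gs u) (H.gs_n u).1 (H.gs_n u).2).1
    rw [Nat.add_sub_cancel_left] at h1
    have h2 := dgR (X := X) (z := z) (C := C) (z0 D J w i j r P ω (gs u))
      (z0 D J w i j r P ω' (gs u))
    have hR := Rg_pos z C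
    have h3 : 2 ^ X / Rg z C * |z0 D J w i j r P ω (gs u) - z0 D J w i j r P ω' (gs u)| ≤
        2 ^ (X - v * z) := by
      calc _ ≤ 2 ^ X / Rg z C * (exp (C * z) / 2 ^ (v * z)) :=
            mul_le_mul_of_nonneg_left h1 (by positivity)
        _ = (2 ^ X / 2 ^ (v * z)) * (exp (C * z) / Rg z C) := by ring
        _ ≤ (2 ^ X / 2 ^ (v * z)) * 1 := by
            refine mul_le_mul_of_nonneg_left ?_ (by positivity)
            rw [div_le_one hR]
            exact H.exp_le_Rg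
        _ = 2 ^ (X - v * z) := by
            rw [mul_one, div_eq_iff (by positivity), ← pow_add]
            congr 1
            omega
    have h4 := div_lipR (m := X - x) (h2.trans (add_le_add_left h3 1))
    unfold nuv
    refine h4.trans ?_
    have h5 : (2 : ℝ) ^ (X - v * z) / 2 ^ (X - x) ≤ 2 ^ z := by
      rw [div_le_iff₀ (by positivity), ← pow_add]
      exact pow_le_pow_right₀ (by norm_num) (by omega)
    have h6 : (1 : ℝ) / 2 ^ (X - x) ≤ 1 := by
      rw [div_le_one (by positivity)]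
      exact one_le_pow₀ (by norm_num)
    have h7 := Pool.P4.two_pow_exp z
    have h8 := mul_expz (a := 3) (b := 1) (by norm_num) hz
    have h9 : (1 : ℝ) ≤ exp z := Real.one_le_exp (by linarith)
    rw [one_mul] at h8
    rw [add_div]
    norm_num at h8
    linarith
  · intro ω hω u
    have h1 := div_absR (m := X - x) (one_le_pow₀ (by norm_num : (1 : ℝ) ≤ 2))
      (dg_absR (X := X) (z0 D J w i j r P ω (gs u) / Rg z C))
    unfold nuv
    have h2 := Pool.P4.two_pow_exp X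
    have h3 : (2 : ℝ) * exp X ≤ exp (4 * (z + X)) := by
      have h4 : (2 : ℝ) ≤ exp 1 := by
        have := Real.add_one_le_exp (1 : ℝ)
        linarith
      calc (2 : ℝ) * exp X ≤ exp 1 * exp X := mul_le_mul_of_nonneg_right h4 (Real.exp_pos _).le
        _ = exp (1 + X) := (Real.exp_add _ _).symm
        _ ≤ _ := Real.exp_le_exp.mpr (by nlinarith)
    linarith

/-- **(few, 8)** The entropy of the slow coordinates, given the deeper context. -/
theorem Hyp.few8 {v : ℕ} (hx : v * z ≤ X) (hM : i + v + r'' < M) :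
    CH q (zg D z i j r X C P ys) (fun ω => (D.c (i - 1) (j - r) ω, (D.c (i + v) j ω, D.T ω))) ≤
      ((k0 + k1 : ℕ) : ℝ) * (((X - v * z : ℕ) : ℝ) * Real.log 2) +
        aE (k0 + k1) 6 * (z + X * Pb q (fun ω => ¬ E ω)) := by
  have hz := H.z1
  have hD := H.dep
  have z1 : (1 : ℝ) ≤ z := by exact_mod_cast hz
  have x0 : (0 : ℝ) ≤ X := Nat.cast_nonneg X
  have key := few_exp H.ok.isLaw (zg D z i j r X C P ys)
    (fun ω => (D.c (i - 1) (j - r) ω, (D.c (i + v) j ω, D.T ω))) E (A := 6) (X := X)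
    (by norm_num) (X - v * z) hz ?_ (fun ω _ u => dg_rng (by norm_num) _)
  · rwa [Fintype.card_fin] at key
  · intro ω ω' hω hω' hE hE' e b
    obtain ⟨f1, f2, f3⟩ := H.up (i' := i + v) (by omega) hM hω hω' e
    obtain ⟨h1, h1', h1''⟩ := hD.ctx (i + v) (by omega) (by omega) ω ω' hω hω' hE hE' f1 f2 w
      H.w1 H.w2 (by rw [f3]) (ys b) (H.ys_n b).1 (H.ys_n b).2
    rw [Nat.add_sub_cancel_left] at h1 h1' h1''
    have hR := Rg_pos z C
    have hR1 := H.one_Rg
    have ht := H.tau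
    have h3 := H.path hω hω' hE hE' f3 (H.ys_n b).1 (H.ys_n b).2 h1 h1' h1''
    have h2 := dgR (X := X) (z := z) (C := C) (ze D i j r P ω (ys b)) (ze D i j r P ω' (ys b))
    obtain ⟨τ, hτ⟩ : ∃ τ, τ = exp (C * z) / 2 ^ (y * z) := ⟨_, rfl⟩
    rw [← hτ] at ht h3
    have h4 : 2 ^ X / Rg z C * |ze D i j r P ω (ys b) - ze D i j r P ω' (ys b)| ≤
        2 + 3 * 2 ^ (X - v * z) := by
      calc _ ≤ 2 ^ X / Rg z C * (2 * τ + 3 * (exp (C * z) / 2 ^ (v * z))) :=
            mul_le_mul_of_nonneg_left h3 (by positivity)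
        _ = 2 * ((2 ^ X * τ) / Rg z C) + 3 * ((2 ^ X / 2 ^ (v * z)) * (exp (C * z) / Rg z C)) := by
            ring
        _ ≤ 2 * 1 + 3 * ((2 ^ X / 2 ^ (v * z)) * 1) := by
            refine add_le_add (mul_le_mul_of_nonneg_left ?_ (by norm_num))
              (mul_le_mul_of_nonneg_left ?_ (by norm_num))
            · rw [div_le_one hR]
              linarith
            · refine mul_le_mul_of_nonneg_left ?_ (by positivity)
              rw [div_le_one hR]
              exact H.exp_le_Rg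
        _ = 2 + 3 * 2 ^ (X - v * z) := by
            rw [mul_one, mul_one]
            congr 2
            rw [div_eq_iff (by positivity), ← pow_add]
            congr 1
            omega
    unfold zg
    have h5 : (1 : ℝ) ≤ 2 ^ (X - v * z) := one_le_pow₀ (by norm_num)
    have h6 : (6 : ℝ) ≤ exp (6 * z) := le_expz (by norm_num) hz
    have h7 : 6 * (2 : ℝ) ^ (X - v * z) ≤ exp (6 * z) * 2 ^ (X - v * z) :=
      mul_le_mul_of_nonneg_right h6 (by positivity)
    linarith

/-- **(few, 6)** The digits over the visible labels of the deeper place, from the digits over the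
frame. -/
theorem Hyp.few6 {v U : ℕ} (hx : (v + U) * z = X)
    (hM : i + v + r'' < M) {ι S' : Type} (g : ι → ℕ) (hg : ∀ l, 1 ≤ l → l < n → ∃ u, g u = l)
    (B : D.Ω → S') :
    CH q (D.vd n (i + v) j (U * z)) (fun ω => ((B ω, zg D z i j r X C P g ω),
        (D.c (i - 1) (j - r) ω, (D.c (i + v) j ω, D.T ω)))) ≤
      aE (n - 1) (5 + 2 * C₁ + 4 * C) * (z + X * Pb q (fun ω => ¬ E ω)) := by
  have hz := H.z1
  have hD := H.dep
  have z1 : (1 : ℝ) ≤ z := by exact_mod_cast hz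
  have x0 : (0 : ℝ) ≤ X := Nat.cast_nonneg X
  have C0 := H.C0
  have C10 : 0 ≤ C₁ := by linarith [H.C1]
  have key := few_exp0 H.ok.isLaw (D.vd n (i + v) j (U * z))
    (fun ω => ((B ω, zg D z i j r X C P g ω), (D.c (i - 1) (j - r) ω, (D.c (i + v) j ω, D.T ω)))) E
    (A := 5 + 2 * C₁ + 4 * C) (X := X) (by positivity) hz ?_ ?_
  · rwa [Fintype.card_fin] at key
  · intro ω ω' hω hω' hE hE' e l
    obtain ⟨f1, f2, f3⟩ := H.up (i' := i + v) (by omega) hM hω hω' (Prod.ext_iff.mp e).2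
    have e2 : zg D z i j r X C P g ω = zg D z i j r X C P g ω' :=
      (Prod.ext_iff.mp (Prod.ext_iff.mp e).1).2
    have hR := Rg_pos z C
    have hl : (l : ℕ) + 1 < n := by
      have := l.2
      omega
    have h1 := hD.toV (i + v) (by omega) (by omega) ω ω' hω hω' hE hE' f1 f2 f3 (l + 1)
      (by omega) hl.le (2 * Rg z C / 2 ^ X) (by positivity) (by
        intro k' hk1 hk2
        obtain ⟨u, hu⟩ := hg k' hk1 (by omega)
        have h2 := H.ze_dg hω hω' hE hE' hk1 (by omega) (l := k') (by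
          have := congrFun e2 u
          unfold zg at this
          rw [hu] at this
          exact this)
        rw [div_mul_eq_mul_div, div_le_iff₀ hR] at h2
        rw [le_div_iff₀ (by positivity)]
        linarith)
    rw [← mul_sub, abs_mul, abs_of_pos (by positivity : (0 : ℝ) < 2 ^ D.g i j (l + 1))] at h1
    obtain ⟨d, hd⟩ : ∃ d, d = |D.sh (i + v) j ω (l + 1) - D.sh (i + v) j ω' (l + 1)| := ⟨_, rfl⟩
    rw [← hd] at h1
    have hh1 := H.ok.hom (i + v) (by omega) j (by have := H.j2; omega) (l + 1) (by omega) hl.le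
    have hh2 := H.ok.hom i (by omega) j (by have := H.j2; omega) (l + 1) (by omega) hl.le
    rw [H.lam1 _ (by omega) hl.le] at hh1 hh2
    have hgg : ((D.g (i + v) j (l + 1) + U * z : ℕ) : ℝ) ≤
        D.g i j (l + 1) + X + 2 * C₁ * z := by
      have hX' : (X : ℝ) = (v + U) * z := by
        rw [← hx]
        push_cast
        ring
      rw [abs_le] at hh1 hh2
      push_cast at hh1 hh2 ⊢
      rw [hX']
      linarith [hh1.1, hh1.2, hh2.1, hh2.2]
    have h2 : (2 : ℝ) ^ (D.g (i + v) j (l + 1) + U * z) ≤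
        2 ^ D.g i j (l + 1) * 2 ^ X * exp (2 * C₁ * z) := by
      have l2 : 0 ≤ Real.log 2 := Real.log_nonneg (by norm_num)
      have l1 : Real.log 2 ≤ 1 := by
        have := Real.log_le_sub_one_of_pos (by norm_num : (0 : ℝ) < 2)
        linarith
      have g0 : 0 ≤ 2 * C₁ * z := by positivity
      have m1 := mul_le_mul_of_nonneg_right hgg l2
      have e0 : ∀ m : ℕ, (2 : ℝ) ^ m = exp (m * Real.log 2) := by
        intro m
        rw [← Real.log_pow, Real.exp_log (by positivity)]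
      rw [e0, e0 (D.g i j (l + 1)), e0 X, ← Real.exp_add, ← Real.exp_add]
      refine Real.exp_le_exp.mpr (m1.trans ?_)
      nlinarith
    have h3 : (2 : ℝ) ^ (D.g (i + v) j (l + 1) + U * z) * d ≤ 4 * exp ((2 * C₁ + 4 * C) * z) := by
      have d0 : 0 ≤ d := by
        rw [hd]
        exact abs_nonneg _
      calc _ ≤ 2 ^ D.g i j (l + 1) * 2 ^ X * exp (2 * C₁ * z) * d :=
            mul_le_mul_of_nonneg_right h2 d0
        _ = 2 ^ X * exp (2 * C₁ * z) * (2 ^ D.g i j (l + 1) * d) := by ring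
        _ ≤ 2 ^ X * exp (2 * C₁ * z) * (exp (C * z) * (2 * Rg z C / 2 ^ X)) :=
            mul_le_mul_of_nonneg_left h1 (by positivity)
        _ = exp (2 * C₁ * z) * exp (C * z) * (2 * Rg z C) := by
            field_simp
        _ = 4 * exp ((2 * C₁ + 4 * C) * z) := by
            unfold Rg
            rw [show (2 * C₁ + 4 * C) * z = 2 * C₁ * z + C * z + 3 * C * z by ring,
              Real.exp_add, Real.exp_add]
            ring
    have h4 : |(2 : ℝ) ^ (D.g (i + v) j (l + 1) + U * z) * D.sh (i + v) j ω (l + 1) -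
        2 ^ (D.g (i + v) j (l + 1) + U * z) * D.sh (i + v) j ω' (l + 1)| ≤
        4 * exp ((2 * C₁ + 4 * C) * z) := by
      rw [← mul_sub, abs_mul, abs_of_pos (by positivity), ← hd]
      exact h3
    have h5 := floor_near h4
    push_cast at h5
    unfold NDat2.vd
    have h6 : (1 : ℝ) ≤ exp ((2 * C₁ + 4 * C) * z) := Real.one_le_exp (by positivity)
    have h7 := mul_expz (a := 5) (b := 2 * C₁ + 4 * C) (by norm_num) hz
    rw [show 5 + 2 * C₁ + 4 * C = 5 + (2 * C₁ + 4 * C) by ring]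
    linarith
  · intro ω hω l
    have hl : (l : ℕ) + 1 < n := by
      have := l.2
      omega
    have h1 := H.ok.pos (i + v) (by omega) j (by have := H.j2; omega) ω hω (l + 1) (by omega)
      hl.le
    have h2 : |(2 : ℝ) ^ (D.g (i + v) j (l + 1) + U * z) * D.sh (i + v) j ω (l + 1) - 0| ≤
        2 ^ (U * z) := by
      rw [sub_zero, abs_mul, abs_of_pos (by positivity)]
      calc _ ≤ (2 : ℝ) ^ (D.g (i + v) j (l + 1) + U * z) * (1 / 2 ^ D.g (i + v) j (l + 1)) :=
            mul_le_mul_of_nonneg_left h1 (by positivity)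
        _ = 2 ^ (U * z) := by
            rw [pow_add]
            field_simp
    have h3 := floor_near h2
    rw [Int.floor_zero, sub_zero] at h3
    unfold NDat2.vd
    have h4 : (2 : ℝ) ^ (U * z) ≤ 2 ^ X := by
      refine pow_le_pow_right₀ (by norm_num) ?_
      rw [← hx]
      exact Nat.mul_le_mul_right _ (by omega)
    have h5 := Pool.P4.two_pow_exp X
    have h6 : (2 : ℝ) * exp X ≤ exp ((5 + 2 * C₁ + 4 * C) * (z + X)) := by
      have h4 : (2 : ℝ) ≤ exp 1 := by
        have := Real.add_one_le_exp (1 : ℝ)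
        linarith
      calc (2 : ℝ) * exp X ≤ exp 1 * exp X := mul_le_mul_of_nonneg_right h4 (Real.exp_pos _).le
        _ = exp (1 + X) := (Real.exp_add _ _).symm
        _ ≤ _ := Real.exp_le_exp.mpr (by
            nlinarith [mul_nonneg (by positivity : (0 : ℝ) ≤ 4 + 2 * C₁ + 4 * C)
              (by positivity : (0 : ℝ) ≤ (z : ℝ) + X)])
    have h7 : (1 : ℝ) ≤ exp X := Real.one_le_exp x0
    linarith

end

end Pool.P5
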