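import Pool.Agent.H25.P5.Hs2
import Pool.Agent.H89.P4.V6
import Pool.Agent.H98.P5.Dch

/-!
# P5: the visible chart of the picture, two samples

The change of charts `Pool.P4.Cht`, the record `Pool.P4.Rcv`, the flag and the flagged variables
are those of P4.
-/

set_option autoImplicit false

namespace Pool.P5

open Finset Real MvPolynomial
open Pool.Agent.H49.Ent Pool.Agent.H32.Dense Pool.STK Pool.STAT Pool.MIC.Frm Pool.MIC7 Pool.FRM
open Pool.GSD Pool.POT
open Pool.BFL (Pb)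
open Pool.P4 (t0 rt pp PthC FraC bb ze zt z0 be cl1 dg dgp Ry cb LLC tq GoodS FrP err
  dg_near dg_abs dg_lip dgp_lip dgp_near dgp_abs c_up c_up1 Ry_pos rt_near floor_near aC aC_nonneg
  aE aE_nonneg few_z few_exp few_exp0 sides MI_inner le_expz mul_expz dg_lipR dg_absR dgp_inj)

/-- Digits of a bounded number. -/
theorem dg_f {X z : ℕ} {C : ℝ} {x x' : ℝ} (h : |x| ≤ Rg z C) (h' : |x'| ≤ Rg z C) :
    |((dg X (x / Rg z C) : ℝ) - dg X (x' / Rg z C)) - 2 ^ X / Rg z C * (x - x')| ≤ 2 := by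
  have hR := Rg_pos z C
  have h1 := dg_near (X := X) (x := x / Rg z C)
    (by rw [abs_div, abs_of_pos hR, div_le_one hR]; exact h)
  have h2 := dg_near (X := X) (x := x' / Rg z C)
    (by rw [abs_div, abs_of_pos hR, div_le_one hR]; exact h')
  have e1 : 2 ^ X / Rg z C * (x - x') = 2 ^ X * (x / Rg z C) - 2 ^ X * (x' / Rg z C) := by ring
  rw [e1]
  rw [abs_le] at h1 h2 ⊢
  constructor <;> linarith [h1.1, h1.2, h2.1, h2.2]

/-- Equal digits of slow coordinates. -/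
theorem dgy_inj {X z : ℕ} {C : ℝ} {x x' : ℝ} (h : |x| ≤ Ry z C) (h' : |x'| ≤ Ry z C)
    (e : dgp X ((x + Ry z C) / (2 * Ry z C)) = dgp X ((x' + Ry z C) / (2 * Ry z C))) :
    2 ^ X * |x - x'| ≤ 4 * Ry z C := by
  have hRy := Ry_pos z C
  rw [abs_le] at h h'
  have h3 := dgp_inj (X := X) (x := (x + Ry z C) / (2 * Ry z C))
    (y := (x' + Ry z C) / (2 * Ry z C))
    (div_nonneg (by linarith) (by linarith)) (by rw [div_le_one (by linarith)]; linarith)
    (div_nonneg (by linarith) (by linarith)) (by rw [div_le_one (by linarith)]; linarith) e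
  rw [← sub_div, abs_div, abs_of_pos (by positivity : (0 : ℝ) < 2 * Ry z C),
    add_sub_add_right_eq_sub, ← mul_div_assoc, div_le_iff₀ (by positivity)] at h3
  linarith

section

variable {D : NDat2} {n K K' J a₀ w₀ z M w i j r r2 r' r'' y a X : ℕ} {lam gam : ℕ → ℝ}
  {κ C₁ C : ℝ} {q : D.Ω → ℝ} {E : D.Ω → Prop} {P : D.Γ × D.Γ → ℕ → PN} {S : Slo D}
  {c k0 k1 : ℕ} {ys : Fin (k0 + k1) → ℕ} {gs : Fin c → ℕ}
  (H : Hyp D n K K' J a₀ w₀ z M w i j r r2 r' r'' y a X lam gam κ C₁ C q E P S ys gs)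

include H

/-- Near slow coordinates of the exact point, from the data of the line. -/
theorem Hyp.y_ze {ω ω' : D.Ω} (hω : 0 < q ω) (hω' : 0 < q ω') (hE : E ω) (hE' : E ω')
    (hT : D.T ω = D.T ω')
    (h : yv (k0 := k0) (k1 := k1) D J w z i j r X C P ys ω = yv D J w z i j r X C P ys ω')
    (hm : mv (k0 := k0) (k1 := k1) D J w z i j r X C P ys ω = mv D J w z i j r X C P ys ω')
    (b : Fin (k0 + k1)) :
    2 ^ X * |ze D i j r P ω (ys b) - ze D i j r P ω' (ys b)| ≤ 10 * Ry z C := by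
  have hRy := Ry_pos z C
  have hRy1 := H.one_Ry
  have ht := H.tau
  have hX : (0 : ℝ) < 2 ^ X := by positivity
  have hyb := H.ys_n b
  have bt := H.geo.bt ω hω hE (ys b) hyb.1 hyb.2 w H.w1 H.w2
  have bt' := H.geo.bt ω' hω' hE' (ys b) hyb.1 hyb.2 w H.w1 H.w2
  have g0 := dgy_inj (X := X) bt.1 bt'.1 (congrFun h b)
  have g0' : |z0 D J w i j r P ω (ys b) - z0 D J w i j r P ω' (ys b)| ≤
      4 * Ry z C / 2 ^ X := by
    rw [le_div_iff₀ hX, mul_comm]
    exact g0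
  revert bt bt' g0' g0 hyb
  refine Fin.addCases (fun a => ?_) (fun l => ?_) b
  · intro _ _ _ _ g0'
    have := H.path0 hω hω' hE hE' (H.ys0 a) g0'
    calc _ ≤ 2 ^ X * (2 * (exp (C * z) / 2 ^ (y * z)) + 4 * Ry z C / 2 ^ X) :=
          mul_le_mul_of_nonneg_left this hX.le
      _ = 2 * (2 ^ X * (exp (C * z) / 2 ^ (y * z))) + 4 * Ry z C := by
          field_simp
      _ ≤ _ := by linarith
  · intro _ bt bt' _ g0'
    have b1' : |b1 D J w i j r P ω (ys (Fin.natAdd k0 l))| ≤ Ry z C := bt.2.1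
    have b1'' : |b1 D J w i j r P ω' (ys (Fin.natAdd k0 l))| ≤ Ry z C := bt'.2.1
    have h3 := Pool.P4.dg_inj (X := X)
      (x := b1 D J w i j r P ω (ys (Fin.natAdd k0 l)) / (2 * Ry z C))
      (y := b1 D J w i j r P ω' (ys (Fin.natAdd k0 l)) / (2 * Ry z C))
      (by
        rw [abs_div, abs_of_pos (by positivity : (0 : ℝ) < 2 * Ry z C),
          div_le_one (by positivity)]
        linarith)
      (by
        rw [abs_div, abs_of_pos (by positivity : (0 : ℝ) < 2 * Ry z C),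
          div_le_one (by positivity)]
        linarith) (congrFun hm l)
    rw [← sub_div, abs_div, abs_of_pos (by positivity : (0 : ℝ) < 2 * Ry z C),
      ← mul_div_assoc, div_le_iff₀ (by positivity)] at h3
    have g1' : |b1 D J w i j r P ω (ys (Fin.natAdd k0 l)) -
        b1 D J w i j r P ω' (ys (Fin.natAdd k0 l))| ≤ 4 * Ry z C / 2 ^ X := by
      rw [le_div_iff₀ hX, mul_comm]
      linarith
    have := H.path1 hω hω' hE hE' hT (H.ys1 l) g0' g1'
    calc _ ≤ 2 ^ X * (2 * (exp (C * z) / 2 ^ (y * z)) +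
            (4 * Ry z C / 2 ^ X + 4 * Ry z C / 2 ^ X)) :=
          mul_le_mul_of_nonneg_left this hX.le
      _ = 2 * (2 ^ X * (exp (C * z) / 2 ^ (y * z))) + 8 * Ry z C := by
          field_simp
          ring
      _ ≤ _ := by linarith

/-- The group at the left end and at the time. -/
theorem Hyp.z0_ze {ω ω' : D.Ω} (hω : 0 < q ω) (hω' : 0 < q ω') (hE : E ω) (hE' : E ω')
    (hT : D.T ω = D.T ω')
    (h : bev (c := c) D J w z i j r X C P gs ω = bev D J w z i j r X C P gs ω')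
    (h2 : be2v (c := c) D J w z i j r X C P gs ω = be2v D J w z i j r X C P gs ω')
    (u : Fin c) :
    |2 ^ X / Rg z C * (ze D i j r P ω (gs u) - ze D i j r P ω' (gs u)) -
      2 ^ X / Rg z C * (z0 D J w i j r P ω (gs u) - z0 D J w i j r P ω' (gs u))| ≤ 6 := by
  have hR := Rg_pos z C
  have hR1 := H.one_Rg
  obtain ⟨τ, hτ⟩ : ∃ τ, τ = exp (C * z) / 2 ^ (y * z) := ⟨_, rfl⟩
  have ht := H.tau
  have hg := H.geo
  have hgu := H.gs_n u
  have bt := (hg.bt ω hω hE (gs u) hgu.1 hgu.2 w H.w1 H.w2).2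
  have bt' := (hg.bt ω' hω' hE' (gs u) hgu.1 hgu.2 w H.w1 H.w2).2
  have g1 := H.dg_inj bt.1 bt'.1 (congrFun h u)
  have g2 := H.dg_inj bt.2 bt'.2 (congrFun h2 u)
  rw [← hτ] at ht hg
  have a1 := hg.grp ω hω hE (gs u) (H.gs_gr u) w H.w1 H.w2
  have a2 := hg.grp ω' hω' hE' (gs u) (H.gs_gr u) w H.w1 H.w2
  have hr := H.rt_le ω
  rw [H.rt_eq hT] at a2
  obtain ⟨f, hf⟩ : ∃ f, f = 2 ^ X / Rg z C := ⟨_, rfl⟩
  have f0 : 0 < f := by
    rw [hf]
    positivity
  have hfτ : f * τ ≤ 1 := by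
    rw [hf, div_mul_eq_mul_div, div_le_one hR]
    linarith
  have hr2 : |rt D J w ω ^ 2| ≤ 1 := by
    rw [abs_pow]
    exact pow_le_one₀ (abs_nonneg _) hr
  rw [← hf] at g1 g2
  rw [← hf, ← mul_sub, abs_mul, abs_of_pos f0]
  obtain ⟨B1, hB1⟩ : ∃ B, B = b1 D J w i j r P ω (gs u) - b1 D J w i j r P ω' (gs u) := ⟨_, rfl⟩
  obtain ⟨B2, hB2⟩ : ∃ B, B = b2 D J w i j r P ω (gs u) - b2 D J w i j r P ω' (gs u) := ⟨_, rfl⟩
  rw [← hB1] at g1
  rw [← hB2] at g2
  have a5 : |rt D J w ω * B1| ≤ |B1| := by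
    rw [abs_mul]
    calc _ ≤ 1 * |B1| := mul_le_mul_of_nonneg_right hr (abs_nonneg _)
      _ = _ := one_mul _
  have a6 : |rt D J w ω ^ 2 * B2| ≤ |B2| := by
    rw [abs_mul]
    calc _ ≤ 1 * |B2| := mul_le_mul_of_nonneg_right hr2 (abs_nonneg _)
      _ = _ := one_mul _
  have h6 : |ze D i j r P ω (gs u) - ze D i j r P ω' (gs u) -
      (z0 D J w i j r P ω (gs u) - z0 D J w i j r P ω' (gs u))| ≤ 2 * τ + (|B1| + |B2|) := by
    have e1 : rt D J w ω * B1 = rt D J w ω * b1 D J w i j r P ω (gs u) -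
        rt D J w ω * b1 D J w i j r P ω' (gs u) := by
      rw [hB1]
      ring
    have e2 : rt D J w ω ^ 2 * B2 = rt D J w ω ^ 2 * b2 D J w i j r P ω (gs u) -
        rt D J w ω ^ 2 * b2 D J w i j r P ω' (gs u) := by
      rw [hB2]
      ring
    rw [e1] at a5
    rw [e2] at a6
    rw [abs_le] at a1 a2 a5 a6 ⊢
    constructor <;> linarith [a1.1, a1.2, a2.1, a2.2, a5.1, a5.2, a6.1, a6.2]
  have h7 := mul_le_mul_of_nonneg_left h6 f0.le
  linarith

/-- **The height and the exact point.** -/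
theorem Hyp.hgt_ze {ω ω' : D.Ω} (hω : 0 < q ω) (hω' : 0 < q ω') (hE : E ω) (hE' : E ω')
    (hS : Sv (c := c) (k0 := k0) (k1 := k1) D z X C S ys gs ω = Sv D z X C S ys gs ω') {ρ : ℝ}
    (hy : ∀ b, 2 ^ X * |ze D i j r P ω (ys b) - ze D i j r P ω' (ys b)| ≤ ρ) (u : Fin c) :
    |2 ^ X / Rg z C * (ze D i j r P ω (gs u) - ze D i j r P ω' (gs u)) -
      (((qh (c := c) (k0 := k0) (k1 := k1) D J w z i j r X C P S ys gs q).hgt ω u : ℝ) -
        (qh (c := c) (k0 := k0) (k1 := k1) D J w z i j r X C P S ys gs q).hgt ω' u)| ≤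
      26 + 24 * ((k0 : ℝ) + k1) + (1 + ρ) * ((k0 : ℝ) + k1) := by
  have hR := Rg_pos z C
  have e1 := H.e1
  obtain ⟨f, hf⟩ : ∃ f, f = 2 ^ X / Rg z C := ⟨_, rfl⟩
  have f0 : 0 < f := by
    rw [hf]
    positivity
  have h1 := H.hgt_nn hω hE u
  have h2 := H.hgt_nn hω' hE' u
  have h4 : ∀ b, |f * (S.S ω (gs u) (ys b) * ze D i j r P ω (ys b)) -
      f * (S.S ω' (gs u) (ys b) * ze D i j r P ω' (ys b))| ≤ 1 + ρ := by
    intro b
    have hya := H.ys_n b
    have a2 := H.geo.bz ω hω hE (ys b) hya.1 hya.2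
    have a3 := H.bS hω' hE' (gs u) (ys b)
    have a5 := H.S_inj (H.bS hω hE (gs u) (ys b)) a3 (congrFun (congrFun hS u) b)
    rw [← hf] at a5
    have e4 : f * (S.S ω (gs u) (ys b) * ze D i j r P ω (ys b)) -
        f * (S.S ω' (gs u) (ys b) * ze D i j r P ω' (ys b)) =
        f * ((S.S ω (gs u) (ys b) - S.S ω' (gs u) (ys b)) * ze D i j r P ω (ys b)) +
        f * (S.S ω' (gs u) (ys b) * (ze D i j r P ω (ys b) - ze D i j r P ω' (ys b))) := by ring
    have a6 : |f * ((S.S ω (gs u) (ys b) - S.S ω' (gs u) (ys b)) * ze D i j r P ω (ys b))| ≤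
        1 := by
      rw [abs_mul, abs_of_pos f0, abs_mul]
      calc _ ≤ f * (|S.S ω (gs u) (ys b) - S.S ω' (gs u) (ys b)| * exp (C * z)) :=
            mul_le_mul_of_nonneg_left (mul_le_mul_of_nonneg_left a2 (abs_nonneg _)) f0.le
        _ ≤ 1 := by
          rw [← mul_assoc]
          exact a5
    have a7 : |f * (S.S ω' (gs u) (ys b) * (ze D i j r P ω (ys b) - ze D i j r P ω' (ys b)))| ≤
        ρ := by
      rw [abs_mul, abs_of_pos f0, abs_mul]
      have hρ0 : 0 ≤ ρ := le_trans (by positivity) (hy b)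
      have e5 : exp (C * z) / Rg z C ≤ 1 := by
        rw [div_le_one hR]
        exact H.exp_le_Rg
      calc _ ≤ f * (exp (C * z) * |ze D i j r P ω (ys b) - ze D i j r P ω' (ys b)|) :=
            mul_le_mul_of_nonneg_left (mul_le_mul_of_nonneg_right a3 (abs_nonneg _)) f0.le
        _ = (exp (C * z) / Rg z C) *
            (2 ^ X * |ze D i j r P ω (ys b) - ze D i j r P ω' (ys b)|) := by
            rw [hf]
            ring
        _ ≤ 1 * ρ := mul_le_mul e5 (hy b) (by positivity) (by norm_num)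
        _ = ρ := one_mul _
    rw [e4]
    exact (abs_add_le _ _).trans (add_le_add a6 a7)
  have h6 := sum_near h4
  rw [← Finset.mul_sum, ← Finset.mul_sum] at h6
  rw [← hf] at h1 h2 ⊢
  rw [H.nn_eq ω u] at h1
  rw [H.nn_eq ω' u] at h2
  rw [mul_sub] at h1 h2 ⊢
  push_cast at h6
  rw [abs_le] at h1 h2 h6 ⊢
  constructor <;> linarith [h1.1, h1.2, h2.1, h2.2, h6.1, h6.2]

end

end Pool.P5
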