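import Pool.Agent.H25.P5.V2

/-!
# P5: the visible chart of the picture, the flagged variables
-/

set_option autoImplicit false

namespace Pool.P5

open Finset Real MvPolynomial
open Pool.Agent.H49.Ent Pool.Agent.H32.Dense Pool.STK Pool.STAT Pool.MIC.Frm Pool.MIC Pool.MIC7
open Pool.FRM Pool.GSD Pool.POT
open Pool.BFL (Pb)
open Pool.QC (nfb)
open Pool.QT64 (QH)
open Pool.P4 (t0 rt pp PthC FraC bb ze zt z0 be cl1 dg dgp Ry cb LLC tq GoodS FrP err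
  dg_near dg_abs dg_lip dgp_lip dgp_near dgp_abs c_up c_up1 Ry_pos rt_near floor_near aC aC_nonneg
  aE aE_nonneg few_z few_exp few_exp0 sides MI_inner le_expz mul_expz dg_lipR dg_absR dgp_inj
  vecF mem_vecF card_vecF aW aW_nonneg log_rng rng_err yF nF MF yD flag_up flag_lo)

/-- The number in the ranges. -/
def K5 (k0 k1 : ℕ) : ℕ := 2 * (k0 + k1) + 1

/-- The width of the ranges. -/
def W5 (k0 k1 X : ℕ) : ℕ := (3 + 2 * K5 k0 k1) * 2 ^ X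

theorem two_W5 (k0 k1 X : ℕ) : (2 : ℤ) ^ X ≤ (W5 k0 k1 X : ℤ) := by
  have hA : (0 : ℤ) < 2 ^ X := by positivity
  unfold W5 K5
  push_cast
  have : (0 : ℤ) ≤ (k0 : ℤ) + k1 := by positivity
  nlinarith

section

variable {D : NDat2} {n K K' J a₀ w₀ z M w i j r r2 r' r'' y a X : ℕ} {lam gam : ℕ → ℝ}
  {κ C₁ C : ℝ} {q : D.Ω → ℝ} {E : D.Ω → Prop} {P : D.Γ × D.Γ → ℕ → PN} {S : Slo D}
  {c k0 k1 : ℕ} {ys : Fin (k0 + k1) → ℕ} {gs : Fin c → ℕ}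

theorem yF_bd {m : ℕ} {ys : Fin m → ℕ} (k0 k1 : ℕ) {zd : D.Ω → ℕ → ℝ} (ω : D.Ω) (a : Fin m) :
    |yF E (yD z X C zd ys) ω a| ≤ (W5 k0 k1 X : ℤ) := by
  have hA : (0 : ℤ) < 2 ^ X := by positivity
  unfold yF
  split_ifs
  · exact (dgp_abs _).trans (two_W5 k0 k1 X)
  · rw [Pi.zero_apply, abs_zero]
    positivity

theorem nD_bd (k0 k1 : ℕ) {zd : D.Ω → ℕ → ℝ} (ω : D.Ω) (u : Fin c) :
    |nuD z X C zd gs ω u| ≤ (W5 k0 k1 X : ℤ) := (dg_abs _).trans (two_W5 k0 k1 X)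

theorem yD_bd {m : ℕ} {ys : Fin m → ℕ} (k0 k1 : ℕ) {zd : D.Ω → ℕ → ℝ} (ω : D.Ω) (a : Fin m) :
    |yD z X C zd ys ω a| ≤ (W5 k0 k1 X : ℤ) := (dgp_abs _).trans (two_W5 k0 k1 X)

variable (H : Hyp D n K K' J a₀ w₀ z M w i j r r2 r' r'' y a X lam gam κ C₁ C q E P S ys gs)
  {Sg : Type} {s : D.Ω → Sg} {zd : D.Ω → ℕ → ℝ}

include H

theorem Hyp.hgt_bd (ω : D.Ω) (u : Fin c) :
    |(qh (c := c) (k0 := k0) (k1 := k1) D J w z i j r X C P S ys gs q).hgt ω u| ≤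
      (W5 k0 k1 X : ℤ) := by
  refine (H.hgt_rng ω u).trans ?_
  unfold W5 K5
  have h1 : 4 + 3 * (k0 + k1) ≤ 3 + 2 * (2 * (k0 + k1) + 1) := by omega
  have h2 := Nat.mul_le_mul_right (2 ^ X) h1
  exact_mod_cast h2

theorem Hyp.nF_bd {zd : D.Ω → ℕ → ℝ} (ω : D.Ω) (u : Fin c) :
    |nF E (nuD z X C zd gs)
      (qh (c := c) (k0 := k0) (k1 := k1) D J w z i j r X C P S ys gs q).hgt ω u| ≤
      (W5 k0 k1 X : ℤ) := by
  unfold nF
  split_ifs
  · exact nD_bd k0 k1 ω u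
  · exact H.hgt_bd ω u

theorem Hyp.bE1 : Pb q (fun ω => ¬ E ω) ≤ 1 := by
  have h := H.ok.isLaw
  have := Pool.MIC.Pb_not h.sum_one E
  have := Pool.MIC.Pb_nonneg h.nonneg E
  linarith

/-- **(F)** for the flagged variables. -/
theorem Hyp.hF_flag {Bt : Type} (bt : D.Ω → Bt) {δ0 : ℝ}
    (hF0 : CH q (fun ω => (yD z X C zd ys ω, nuD z X C zd gs ω)) s ≤
      CH q (fun ω => (yD z X C zd ys ω, nuD z X C zd gs ω)) (fun ω => (bt ω, s ω)) + δ0) :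
    CH q (fun ω => (yF E (yD z X C zd ys) ω, nF E (nuD z X C zd gs)
        (qh (c := c) (k0 := k0) (k1 := k1) D J w z i j r X C P S ys gs q).hgt ω))
        (fun ω => (E ω, s ω)) ≤
      CH q (fun ω => (yF E (yD z X C zd ys) ω, nF E (nuD z X C zd gs)
        (qh (c := c) (k0 := k0) (k1 := k1) D J w z i j r X C P S ys gs q).hgt ω))
        (fun ω => (bt ω, (E ω, s ω))) +
      (δ0 + (1 + 2 * ((k0 + k1 + c : ℕ) * aW (K5 k0 k1))) *
        (z + X * Pb q (fun ω => ¬ E ω))) := by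
  have hq := H.ok.isLaw
  have hnb := fun ω u => H.nF_bd (zd := zd) ω u
  obtain ⟨hg, hhg⟩ : ∃ hg : D.Ω → Fin c → ℤ, hg =
    (qh (c := c) (k0 := k0) (k1 := k1) D J w z i j r X C P S ys gs q).hgt := ⟨_, rfl⟩
  rw [← hhg] at hnb ⊢
  obtain ⟨F, hF⟩ : ∃ F : Finset ((Fin (k0 + k1) → ℤ) × (Fin c → ℤ)),
    F = vecF (k0 + k1) (W5 k0 k1 X) ×ˢ vecF c (W5 k0 k1 X) := ⟨_, rfl⟩
  have hcard : Real.log F.card ≤ (k0 + k1 + c : ℕ) * (aW (K5 k0 k1) - 1 + X) := by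
    rw [hF, Finset.card_product, card_vecF, card_vecF, ← pow_add, Nat.cast_pow, Real.log_pow]
    exact mul_le_mul_of_nonneg_left (log_rng (K5 k0 k1) X) (Nat.cast_nonneg _)
  have m1 : ∀ ω, 0 < q ω → (yF E (yD z X C zd ys) ω, nF E (nuD z X C zd gs) hg ω) ∈ F := by
    intro ω _
    rw [hF, Finset.mem_product]
    exact ⟨mem_vecF fun a => yF_bd k0 k1 ω a, mem_vecF fun u => hnb ω u⟩
  have m2 : ∀ ω, 0 < q ω → (yD z X C zd ys ω, nuD z X C zd gs ω) ∈ F := by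
    intro ω _
    rw [hF, Finset.mem_product]
    exact ⟨mem_vecF fun a => yD_bd k0 k1 ω a, mem_vecF fun u => nD_bd k0 k1 ω u⟩
  have onE : ∀ ω, E ω → (yF E (yD z X C zd ys) ω, nF E (nuD z X C zd gs) hg ω) =
      (yD z X C zd ys ω, nuD z X C zd gs ω) := by
    intro ω hω
    unfold yF nF
    rw [if_pos hω, if_pos hω]
  have u1 := flag_up hq (f := fun ω => (yD z X C zd ys ω, nuD z X C zd gs ω)) (g := s)
    (f' := fun ω => (yF E (yD z X C zd ys) ω, nF E (nuD z X C zd gs) hg ω))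
    (g' := fun ω => (E ω, s ω)) E (fun ω ω' e => iff_of_eq (Prod.ext_iff.mp e).1)
    (fun ω ω' h1 h2 e => by
      rw [onE ω h1, onE ω' h2]
      exact e) (fun ω ω' _ _ e => (Prod.ext_iff.mp e).2) F m1
  have u2 := flag_lo hq (f := fun ω => (yD z X C zd ys ω, nuD z X C zd gs ω))
    (g := fun ω => (bt ω, s ω))
    (f' := fun ω => (yF E (yD z X C zd ys) ω, nF E (nuD z X C zd gs) hg ω))
    (g' := fun ω => (bt ω, (E ω, s ω))) E
    (fun ω ω' h1 h2 e => by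
      simp only [onE ω h1, onE ω' h2] at e
      exact e) (fun ω ω' h1 h2 e => by
      have e1 := (Prod.ext_iff.mp e).1
      have e2 := (Prod.ext_iff.mp e).2
      exact Prod.ext e1 (Prod.ext (propext ⟨fun _ => h2, fun _ => h1⟩) e2)) F m2
  have b0 := H.b0
  have bE1 := H.bE1
  have e1 := mul_le_mul_of_nonneg_left hcard b0
  have e2 := rng_err (m := k0 + k1 + c) (k := K5 k0 k1) (X := X) H.z1 b0 bE1
  have e3 := H.xb
  have z1 : (1 : ℝ) ≤ z := by exact_mod_cast H.z1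
  have x0 : (0 : ℝ) ≤ X := Nat.cast_nonneg X
  have xb : 0 ≤ (X : ℝ) * Pb q (fun ω => ¬ E ω) := mul_nonneg x0 b0
  have l2 : Real.log 2 ≤ 1 := by
    have := Real.log_le_sub_one_of_pos (by norm_num : (0 : ℝ) < 2)
    linarith
  linarith

/-- **Nonfullness** for the flagged variables. -/
theorem Hyp.nf_flag (n₀ : Fin c) {B : ℕ} {ν : ℝ}
    (h : nfb q (nuD z X C zd gs) (fun ω => (yD z X C zd ys ω, s ω)) n₀ X B ≤ ν) :
    nfb q (nF E (nuD z X C zd gs)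
      (qh (c := c) (k0 := k0) (k1 := k1) D J w z i j r X C P S ys gs q).hgt)
      (fun ω => (yF E (yD z X C zd ys) ω, (E ω, s ω))) n₀ X B ≤
      ν + B * (aW (K5 k0 k1) * (z + X * Pb q (fun ω => ¬ E ω))) := by
  have hq := H.ok.isLaw
  have hnb := fun ω u => H.nF_bd (zd := zd) ω u
  obtain ⟨hg, hhg⟩ : ∃ hg : D.Ω → Fin c → ℤ, hg =
    (qh (c := c) (k0 := k0) (k1 := k1) D J w z i j r X C P S ys gs q).hgt := ⟨_, rfl⟩
  rw [← hhg] at hnb ⊢
  have b0 := H.b0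
  have bE1 := H.bE1
  refine le_trans ?_ (add_le_add h le_rfl)
  unfold nfb
  have hsum : (B : ℝ) * (aW (K5 k0 k1) * (z + X * Pb q (fun ω => ¬ E ω))) =
      ∑ _j ∈ Finset.range B, aW (K5 k0 k1) * (z + X * Pb q (fun ω => ¬ E ω)) := by
    rw [Finset.sum_const, Finset.card_range, nsmul_eq_mul]
  rw [hsum, ← Finset.sum_add_distrib]
  refine Finset.sum_le_sum fun t _ => ?_
  obtain ⟨e1, he1⟩ : ∃ e, e = X - (t + 1) * X / B := ⟨_, rfl⟩
  obtain ⟨e0, he0⟩ : ∃ e, e = X - t * X / B := ⟨_, rfl⟩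
  rw [← he1, ← he0]
  have onE : ∀ ω, E ω → nF E (nuD z X C zd gs) hg ω = nuD z X C zd gs ω := by
    intro ω hω
    unfold nF
    rw [if_pos hω]
  have onE' : ∀ ω, E ω → yF E (yD z X C zd ys) ω = yD z X C zd ys ω := by
    intro ω hω
    unfold yF
    rw [if_pos hω]
  have u1 := flag_up hq
    (f := fun ω => nuD z X C zd gs ω n₀ / 2 ^ e1)
    (g := fun ω => (nuD z X C zd gs ω n₀ / 2 ^ e0,
      ((fun u : {u : Fin c // u ≠ n₀} => nuD z X C zd gs ω u / 2 ^ e1),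
        (yD z X C zd ys ω, s ω))))
    (f' := fun ω => nF E (nuD z X C zd gs) hg ω n₀ / 2 ^ e1)
    (g' := fun ω => (nF E (nuD z X C zd gs) hg ω n₀ / 2 ^ e0,
      ((fun u : {u : Fin c // u ≠ n₀} => nF E (nuD z X C zd gs) hg ω u / 2 ^ e1),
        (yF E (yD z X C zd ys) ω, (E ω, s ω))))) E
    (fun ω ω' e => by
      have f1 := (Prod.ext_iff.mp e).2
      have f2 := (Prod.ext_iff.mp f1).2
      have f3 := (Prod.ext_iff.mp f2).2
      exact iff_of_eq (Prod.ext_iff.mp f3).1)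
    (fun ω ω' h1 h2 e => by
      simp only [onE ω h1, onE ω' h2]
      exact e)
    (fun ω ω' h1 h2 e => by
      simp only [onE ω h1, onE ω' h2, onE' ω h1, onE' ω' h2] at e
      have f0 := (Prod.ext_iff.mp e).1
      have f1 := (Prod.ext_iff.mp e).2
      have f2 := (Prod.ext_iff.mp f1).2
      have f3 := (Prod.ext_iff.mp f2).2
      exact Prod.ext f0 (Prod.ext (Prod.ext_iff.mp f1).1 (Prod.ext (Prod.ext_iff.mp f2).1
        (Prod.ext_iff.mp f3).2)))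
    (Finset.Icc (-(W5 k0 k1 X : ℤ)) (W5 k0 k1 X : ℤ))
    (fun ω _ => by
      rw [Finset.mem_Icc, ← abs_le]
      exact (Int.abs_ediv_le_abs _ _).trans (hnb ω n₀))
  have hc : (Finset.Icc (-(W5 k0 k1 X : ℤ)) (W5 k0 k1 X : ℤ)).card = 2 * W5 k0 k1 X + 1 := by
    rw [Int.card_Icc]
    omega
  rw [hc] at u1
  refine u1.trans (add_le_add le_rfl ?_)
  have e2 := rng_err (m := 1) (k := K5 k0 k1) (X := X) H.z1 b0 bE1
  rw [Nat.cast_one, one_mul, one_mul] at e2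
  exact (mul_le_mul_of_nonneg_left (log_rng (K5 k0 k1) X) b0).trans e2

/-- Ranges, for `few_exp0`. -/
theorem Hyp.rng {A : ℝ} (hA : aW (K5 k0 k1) ≤ A) {x : ℤ} (hx : |x| ≤ (W5 k0 k1 X : ℤ)) :
    |(x : ℝ)| ≤ exp (A * (z + X)) := by
  have kk : (0 : ℝ) ≤ (K5 k0 k1 : ℕ) := Nat.cast_nonneg _
  have z1 : (1 : ℝ) ≤ z := by exact_mod_cast H.z1
  have x0 : (0 : ℝ) ≤ X := Nat.cast_nonneg X
  obtain ⟨kk5, hk5⟩ : ∃ k : ℕ, k = K5 k0 k1 := ⟨_, rfl⟩
  unfold W5 at hx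
  rw [← hk5] at hx hA kk
  have h1 : |(x : ℝ)| ≤ (3 + 2 * kk5) * 2 ^ X := by exact_mod_cast hx
  have h2 := Pool.P4.two_pow_exp X
  have hl : Real.log (3 + 2 * kk5) ≤ aW kk5 - 1 := by
    unfold aW
    have := Real.log_le_log (show (0 : ℝ) < 3 + 2 * kk5 by positivity)
      (show (3 + 2 * kk5 : ℝ) ≤ 3 * (3 + 2 * kk5) by linarith)
    linarith
  have hl0 : 0 ≤ Real.log (3 + 2 * (kk5 : ℝ)) := Real.log_nonneg (by linarith)
  have h3 : (3 + 2 * kk5 : ℝ) ≤ exp (aW kk5 - 1) := by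
    rw [← Real.log_le_iff_le_exp (by positivity)]
    exact hl
  calc |(x : ℝ)| ≤ (3 + 2 * kk5) * 2 ^ X := h1
    _ ≤ exp (aW kk5 - 1) * exp X := mul_le_mul h3 h2 (by positivity) (Real.exp_pos _).le
    _ = exp (aW kk5 - 1 + X) := (Real.exp_add _ _).symm
    _ ≤ exp (A * (z + X)) := by
        refine Real.exp_le_exp.mpr ?_
        have hA1 : 1 ≤ A := by linarith
        nlinarith

end

end Pool.P5
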