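import Pool.Agent.H25.P5.V4

/-!
# P5: the visible chart of the picture, the relations
-/

set_option autoImplicit false

namespace Pool.P5

open Finset Real MvPolynomial
open Pool.Agent.H49.Ent Pool.Agent.H32.Dense Pool.STK Pool.STAT Pool.MIC.Frm Pool.MIC Pool.MIC7
open Pool.FRM Pool.GSD Pool.POT
open Pool.BFL (Pb)
open Pool.QC (nfb)
open Pool.QT64 (QH)
open Pool.P4 (t0 rt pp PthC FraC bb ze zt z0 be cl1 dg dgp Ry cb LLC tq GoodS FrP err
  dg_near dg_abs dg_lip dgp_lip dgp_near dgp_abs c_up c_up1 Ry_pos rt_near floor_near aC aC_nonneg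
  aE aE_nonneg few_z few_exp few_exp0 sides MI_inner le_expz mul_expz dg_lipR dg_absR dgp_inj
  vecF mem_vecF card_vecF aW aW_nonneg log_rng rng_err yF nF MF yD flag_up flag_lo Cht Rcv
  inv_near exp_mz')

section

variable {D : NDat2} {n K K' J a₀ w₀ z M w i j r r2 r' r'' y a X : ℕ} {lam gam : ℕ → ℝ}
  {κ C₁ C : ℝ} {q : D.Ω → ℝ} {E : D.Ω → Prop} {P : D.Γ × D.Γ → ℕ → PN} {S : Slo D}
  {c k0 k1 : ℕ} {ys : Fin (k0 + k1) → ℕ} {gs : Fin c → ℕ}
  (H : Hyp D n K K' J a₀ w₀ z M w i j r r2 r' r'' y a X lam gam κ C₁ C q E P S ys gs)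
  {Sg : Type} {s : D.Ω → Sg} {zd : D.Ω → ℕ → ℝ}
  (hD : Rcv D n z i j r C q E s zd)
  {Mx : D.Γ × D.Γ → Sg → Matrix (Fin c) (Fin c) ℝ}
  (hc : Cht D z i j r X C E P s zd ys gs Mx)

include hc in
theorem cht_det {ω : D.Ω} (hE : E ω) : IsUnit (Mx (bb D i j r ω) (s ω)).det := by
  rw [det_low (hc.one ω hE) (hc.low ω hE)]
  exact isUnit_one

include H

theorem Hyp.posE {ω : D.Ω} (hE : E ω) : 0 < q ω := (H.gd ω hE).1

include hc hD

/-- The visible heights are the linear image of the closed ones. -/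
theorem Hyp.nD_ze {ω ω' : D.Ω} (hE : E ω) (hE' : E ω') (hb : bb D i j r ω = bb D i j r ω')
    (hT : D.T ω = D.T ω') {ρ : ℝ} (hρ : 0 ≤ ρ)
    (hy : ∀ a, 2 ^ X * |ze D i j r P ω (ys a) - ze D i j r P ω' (ys a)| ≤ ρ) (u : Fin c) :
    |dv (nuD z X C zd gs ω) (nuD z X C zd gs ω') u - ∑ v, Mx (bb D i j r ω) (s ω) u v *
      (2 ^ X / Rg z C * (ze D i j r P ω (gs v) - ze D i j r P ω' (gs v)))| ≤ 3 + ρ := by
  have hω := H.posE hE
  have hω' := H.posE hE'
  have hR := Rg_pos z C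
  have hgu := H.gs_n u
  obtain ⟨f, hf⟩ : ∃ f, f = 2 ^ X / Rg z C := ⟨_, rfl⟩
  have f0 : 0 < f := by
    rw [hf]
    positivity
  have h1 := dg_f (X := X) (z := z) (C := C)
    ((hD.bd ω hω hE (gs u) hgu.1 hgu.2).trans H.exp_le_Rg)
    ((hD.bd ω' hω' hE' (gs u) hgu.1 hgu.2).trans H.exp_le_Rg)
  have hX : (0 : ℝ) < 2 ^ X := by positivity
  have h2 := (hc.fw ω ω' hE hE' hb hT (ρ / 2 ^ X) (by positivity) (fun a => by
    rw [le_div_iff₀ hX, mul_comm]
    exact hy a)).2 u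
  have h3 := mul_le_mul_of_nonneg_left h2 f0.le
  rw [← abs_of_pos f0, ← abs_mul, abs_of_pos f0] at h3
  have e1 : f * (zd ω (gs u) - zd ω' (gs u) - ∑ v, Mx (bb D i j r ω) (s ω) u v *
      (ze D i j r P ω (gs v) - ze D i j r P ω' (gs v))) =
      f * (zd ω (gs u) - zd ω' (gs u)) - ∑ v, Mx (bb D i j r ω) (s ω) u v *
      (f * (ze D i j r P ω (gs v) - ze D i j r P ω' (gs v))) := by
    rw [mul_sub, Finset.mul_sum]
    congr 1
    refine Finset.sum_congr rfl fun v _ => ?_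
    ring
  rw [e1] at h3
  have h4 : f * (exp (C * z) * (ρ / 2 ^ X + ((2 : ℝ) ^ X)⁻¹)) ≤ 1 + ρ := by
    have e2 : f * (exp (C * z) * (ρ / 2 ^ X + ((2 : ℝ) ^ X)⁻¹)) =
        (exp (C * z) / Rg z C) * (ρ + 1) := by
      rw [hf]
      field_simp
    rw [e2]
    have e3 : exp (C * z) / Rg z C ≤ 1 := by
      rw [div_le_one hR]
      exact H.exp_le_Rg
    have := mul_le_mul_of_nonneg_right e3 (by linarith : (0 : ℝ) ≤ ρ + 1)
    linarith
  rw [← hf] at h1 ⊢
  have e4 : dv (nuD z X C zd gs ω) (nuD z X C zd gs ω') u =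
      (dg X (zd ω (gs u) / Rg z C) : ℝ) - dg X (zd ω' (gs u) / Rg z C) := by
    unfold dv nuD
    push_cast
    rfl
  rw [e4]
  rw [abs_le] at h1 h3 ⊢
  constructor <;> linarith [h1.1, h1.2, h3.1, h3.2]

/-- The relation at one time. -/
theorem Hyp.rel_E {ω ω' : D.Ω} (hE : E ω) (hE' : E ω')
    (hyD : yD z X C zd ys ω = yD z X C zd ys ω') (hb : bb D i j r ω = bb D i j r ω')
    (hT : D.T ω = D.T ω')
    (hS : Sv (c := c) (k0 := k0) (k1 := k1) D z X C S ys gs ω = Sv D z X C S ys gs ω')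
    (u : Fin c) :
    |((Mx (bb D i j r ω) (s ω))⁻¹.mulVec (dv (nuD z X C zd gs ω) (nuD z X C zd gs ω'))) u -
      dv ((qh (c := c) (k0 := k0) (k1 := k1) D J w z i j r X C P S ys gs q).hgt ω)
        ((qh (c := c) (k0 := k0) (k1 := k1) D J w z i j r X C P S ys gs q).hgt ω') u| ≤
      (26 + 30 * ((k0 : ℝ) + k1) + 8 * c) * exp ((3 * C) * z) := by
  have hω := H.posE hE
  have hω' := H.posE hE'
  have hRy := Ry_pos z C
  have hX : (0 : ℝ) < 2 ^ X := by positivity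
  have e1 := H.e1
  -- the slow coordinates
  have hs : ∀ a, 2 ^ X * |ze D i j r P ω (ys a) - ze D i j r P ω' (ys a)| ≤
      5 * exp ((2 * C) * z) := by
    intro a
    have h1 : ∀ a, |zd ω (ys a) - zd ω' (ys a)| ≤ 4 * Ry z C / 2 ^ X := by
      intro a
      have hya := H.ys_n a
      have b1 : |zd ω (ys a)| ≤ Ry z C := hD.bd ω hω hE (ys a) hya.1 hya.2
      have b2 : |zd ω' (ys a)| ≤ Ry z C := hD.bd ω' hω' hE' (ys a) hya.1 hya.2
      rw [le_div_iff₀ hX, mul_comm]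
      exact dgy_inj b1 b2 (congrFun hyD a)
    have h2 := hc.bw ω ω' hE hE' hb hT (4 * Ry z C / 2 ^ X) (by positivity) h1 a
    have h3 := mul_le_mul_of_nonneg_left h2 hX.le
    refine h3.trans ?_
    have e2 : (2 : ℝ) ^ X * (exp (C * z) * (4 * Ry z C / 2 ^ X + ((2 : ℝ) ^ X)⁻¹)) =
        exp (C * z) * (4 * exp (C * z) + 1) := by
      unfold Ry
      field_simp
    rw [e2, show (2 * C) * z = C * z + C * z by ring, Real.exp_add]
    nlinarith
  have h1 := H.hgt_ze hω hω' hE hE' hS hs u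
  have hinv := inv_near (cht_det hc hE) (G := exp (C * z)) (Real.exp_pos _).le (hc.inv ω hE)
    (x := dv (nuD z X C zd gs ω) (nuD z X C zd gs ω'))
    (e := fun v => 2 ^ X / Rg z C * (ze D i j r P ω (gs v) - ze D i j r P ω' (gs v)))
    (t := 3 + 5 * exp ((2 * C) * z))
    (fun u => H.nD_ze hD hc hE hE' hb hT (by positivity) hs u) u
  have e3 : dv ((qh (c := c) (k0 := k0) (k1 := k1) D J w z i j r X C P S ys gs q).hgt ω)
        ((qh (c := c) (k0 := k0) (k1 := k1) D J w z i j r X C P S ys gs q).hgt ω') u =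
      ((qh (c := c) (k0 := k0) (k1 := k1) D J w z i j r X C P S ys gs q).hgt ω u : ℝ) -
        (qh (c := c) (k0 := k0) (k1 := k1) D J w z i j r X C P S ys gs q).hgt ω' u := by
    unfold dv
    push_cast
    rfl
  rw [e3]
  obtain ⟨kk, hkk⟩ : ∃ kk : ℝ, kk = (k0 : ℝ) + k1 := ⟨_, rfl⟩
  have kk0 : 0 ≤ kk := by
    rw [hkk]
    positivity
  rw [← hkk] at h1 ⊢
  have c0 : (0 : ℝ) ≤ c := Nat.cast_nonneg c
  obtain ⟨x, hx⟩ : ∃ x, x = exp (C * z) := ⟨_, rfl⟩
  have e4 : exp ((2 * C) * z) = x * x := by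
    rw [show (2 * C) * z = C * z + C * z by ring, Real.exp_add, hx]
  have e5 : exp ((3 * C) * z) = x * (x * x) := by
    rw [show (3 * C) * z = C * z + (C * z + C * z) by ring, Real.exp_add, Real.exp_add, hx]
  rw [e4] at h1
  rw [e4, ← hx] at hinv
  rw [e5]
  rw [← hx] at e1
  have x2 : 1 ≤ x * x := by nlinarith
  have x3 : x * x ≤ x * (x * x) := by nlinarith
  have x4 : x ≤ x * (x * x) := by nlinarith
  have g1 : 26 + 24 * kk + (1 + 5 * (x * x)) * kk ≤ (26 + 30 * kk) * (x * (x * x)) := by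
    have a1 : (26 : ℝ) ≤ 26 * (x * (x * x)) := by linarith
    have a2 : 25 * kk ≤ 25 * kk * (x * (x * x)) := by
      have : 0 ≤ 25 * kk := by positivity
      nlinarith
    have a3 : 5 * kk * (x * x) ≤ 5 * kk * (x * (x * x)) :=
      mul_le_mul_of_nonneg_left x3 (by positivity)
    linarith
  have g2 : (c : ℝ) * (x * (3 + 5 * (x * x))) ≤ 8 * c * (x * (x * x)) := by
    have a1 : x * (3 + 5 * (x * x)) ≤ 8 * (x * (x * x)) := by nlinarith
    have := mul_le_mul_of_nonneg_left a1 c0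
    linarith
  rw [abs_le] at h1 hinv ⊢
  constructor <;> linarith [h1.1, h1.2, hinv.1, hinv.2]

/-- The relation along the line. -/
theorem Hyp.tr_E {ω ω' : D.Ω} (hE : E ω) (hE' : E ω')
    (hyv : yv (k0 := k0) (k1 := k1) D J w z i j r X C P ys ω = yv D J w z i j r X C P ys ω')
    (hmv : mv (k0 := k0) (k1 := k1) D J w z i j r X C P ys ω = mv D J w z i j r X C P ys ω')
    (hbe : bev (c := c) D J w z i j r X C P gs ω = bev D J w z i j r X C P gs ω')
    (hbe2 : be2v (c := c) D J w z i j r X C P gs ω = be2v D J w z i j r X C P gs ω')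
    (hb : bb D i j r ω = bb D i j r ω') (hT : D.T ω = D.T ω') (u : Fin c) :
    |((Mx (bb D i j r ω) (s ω))⁻¹.mulVec (dv (nuD z X C zd gs ω) (nuD z X C zd gs ω'))) u -
      dv (nuv D J w z i j r X C P gs ω) (nuv D J w z i j r X C P gs ω') u| ≤
      (8 + 13 * c) * exp ((3 * C) * z) := by
  have hω := H.posE hE
  have hω' := H.posE hE'
  have e1 := H.e1
  have hs := H.y_ze hω hω' hE hE' hT hyv hmv
  have h1 := H.z0_ze hω hω' hE hE' hT hbe hbe2 u
  have hgu := H.gs_n u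
  have h2 := dg_f (X := X) (z := z) (C := C)
    ((H.geo.bt ω hω hE (gs u) hgu.1 hgu.2 w H.w1 H.w2).1.trans H.exp_le_Rg)
    ((H.geo.bt ω' hω' hE' (gs u) hgu.1 hgu.2 w H.w1 H.w2).1.trans H.exp_le_Rg)
  have hinv := inv_near (cht_det hc hE) (G := exp (C * z)) (Real.exp_pos _).le (hc.inv ω hE)
    (x := dv (nuD z X C zd gs ω) (nuD z X C zd gs ω'))
    (e := fun v => 2 ^ X / Rg z C * (ze D i j r P ω (gs v) - ze D i j r P ω' (gs v)))
    (t := 3 + 10 * Ry z C)
    (fun u => H.nD_ze hD hc hE hE' hb hT (by have := Ry_pos z C; positivity) hs u) u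
  have e3 : dv (nuv D J w z i j r X C P gs ω) (nuv D J w z i j r X C P gs ω') u =
      (dg X (z0 D J w i j r P ω (gs u) / Rg z C) : ℝ) -
        dg X (z0 D J w i j r P ω' (gs u) / Rg z C) := by
    unfold dv nuv
    push_cast
    rfl
  rw [e3]
  have c0 : (0 : ℝ) ≤ c := Nat.cast_nonneg c
  obtain ⟨x, hx⟩ : ∃ x, x = exp (C * z) := ⟨_, rfl⟩
  have e5 : exp ((3 * C) * z) = x * (x * x) := by
    rw [show (3 * C) * z = C * z + (C * z + C * z) by ring, Real.exp_add, Real.exp_add, hx]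
  unfold Ry at hinv
  rw [← hx] at hinv
  rw [e5]
  rw [← hx] at e1
  have x2 : 1 ≤ x * x := by nlinarith
  have x3 : x * x ≤ x * (x * x) := by nlinarith
  have x4 : x ≤ x * (x * x) := by nlinarith
  have g2 : (c : ℝ) * (x * (3 + 10 * x)) ≤ 13 * c * (x * (x * x)) := by
    have a1 : x * (3 + 10 * x) ≤ 13 * (x * (x * x)) := by nlinarith
    have := mul_le_mul_of_nonneg_left a1 c0
    linarith
  rw [abs_le] at h1 h2 hinv ⊢
  constructor <;> linarith [h1.1, h1.2, h2.1, h2.2, hinv.1, hinv.2]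

end

end Pool.P5
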